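import Pool.Agent.W_59b51d_h18.Pres

/-! One multilinear monomial whose variety contains a finitely presented algebra with unsolvable
word problem. -/

namespace Pool.Agent.W_59b51d_h18

open Pool.Agent.W_MP_b13100_lc

/-! ### Change of generators -/

/-- leaves -/
def lv {X : Type} : FreeMagma X → List X
  | .of i => [i]
  | .mul s t => lv s ++ lv t

theorem lift_congr' {X A : Type} [Mul A] (t : FreeMagma X) (a a' : X → A)
    (h : ∀ i ∈ lv t, a i = a' i) : FreeMagma.lift a t = FreeMagma.lift a' t := by
  induction t using FreeMagma.rec with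
  | of i => exact h i (by simp [lv])
  | mul s t ih1 ih2 =>
    change FreeMagma.lift a s * FreeMagma.lift a t = FreeMagma.lift a' s * FreeMagma.lift a' t
    rw [ih1 fun i hi => h i (by simp [lv, hi]), ih2 fun i hi => h i (by simp [lv, hi])]

theorem lift_map {X Y A : Type} [Mul A] (ρ : X → Y) (a : Y → A) (t : FreeMagma X) :
    FreeMagma.lift a (FreeMagma.map ρ t) = FreeMagma.lift (fun x => a (ρ x)) t := by
  induction t using FreeMagma.rec with
  | of i => rfl
  | mul s t ih1 ih2 =>
    change FreeMagma.lift a (FreeMagma.map ρ s) * FreeMagma.lift a (FreeMagma.map ρ t) =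
      FreeMagma.lift (fun x => a (ρ x)) s * FreeMagma.lift (fun x => a (ρ x)) t
    rw [ih1, ih2]

/-- change of variables -/
def rmap {F X Y : Type} (ρ : X → Y) (p : Poly F X) : Poly F Y :=
  p.map fun q => (q.1, FreeMagma.map ρ q.2)

section

variable {F : Type} [Field F] {A : Type} [NonUnitalNonAssocRing A] [Module F A]

theorem eval_rmap {X Y : Type} (ρ : X → Y) (a : Y → A) (p : Poly F X) :
    (rmap ρ p).eval a = p.eval fun x => a (ρ x) := by
  rw [Poly.eval, rmap, List.map_map, Poly.eval]
  congr 1
  refine List.map_congr_left fun q _ => ?_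
  simp only [Function.comp_apply, lift_map]

theorem eval_congr {X : Type} (a a' : X → A) (p : Poly F X)
    (h : ∀ q ∈ p, ∀ i ∈ lv q.2, a i = a' i) : p.eval a = p.eval a' := by
  rw [Poly.eval, Poly.eval]
  congr 1
  refine List.map_congr_left fun q hq => ?_
  rw [lift_congr' q.2 a a' (h q hq)]

end

/-! ### Codes -/

section

variable {n : ℕ} (ρ : Bg → Fin n) (d : ℕ)

/-- code of a product with a generator -/
def mcode (i u : ℕ) : ℕ := 2 * Nat.pair (2 * i) u + 1

theorem primrec_mcode (i : ℕ) : Primrec (mcode i) := by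
  unfold mcode
  exact Primrec.nat_add.comp (Primrec.nat_mul.comp (Primrec.const 2)
    (Primrec₂.natPair.comp (Primrec.const _) Primrec.id)) (Primrec.const 1)

/-- code of the operator of a main letter -/
def scode (w : Wd) (u : ℕ) : ℕ := (mcode (ρ .c))^[d - 1] (mcode (ρ (.l (.inl w))) u)

theorem primrec_scode (w : Wd) : Primrec (scode ρ d w) := by
  unfold scode
  exact Primrec.nat_iterate (Primrec.const (d - 1)) (primrec_mcode _)
    ((primrec_mcode (ρ .c)).comp Primrec.snd).to₂

theorem code_tC (k : ℕ) (t : FreeMagma Bg) : code (FreeMagma.map ρ (tC k t)) =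
    (mcode (ρ .c))^[k] (code (FreeMagma.map ρ t)) := by
  induction k with
  | zero => rfl
  | succ k ih =>
    rw [Function.iterate_succ_apply', ← ih]
    rfl

theorem code_tS (w : Wd) (t : FreeMagma Bg) :
    code (FreeMagma.map ρ (tS d w t)) = scode ρ d w (code (FreeMagma.map ρ t)) := by
  rw [tS, code_tC]
  rfl

theorem code_tS_iter (w : Wd) (k : ℕ) (t : FreeMagma Bg) :
    code (FreeMagma.map ρ ((tS d w)^[k] t)) =
      (scode ρ d w)^[k] (code (FreeMagma.map ρ t)) := by
  induction k with
  | zero => rfl
  | succ k ih => rw [Function.iterate_succ_apply', Function.iterate_succ_apply', code_tS, ih]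

theorem primrec_iter {f : ℕ → ℕ} (hf : Primrec f) {g : ℕ → ℕ} (hg : Primrec g) :
    Primrec fun n => f^[n] (g n) :=
  Primrec.nat_iterate Primrec.id hg (hf.comp Primrec.snd).to₂

theorem primrec_tr1 (κ x t : ℕ) : Primrec fun k => code (FreeMagma.map ρ (tr1 d κ x t k)) := by
  have h := (primrec_scode ρ d [(κ, true)]).comp (primrec_iter (primrec_scode ρ d [(x, true)])
    ((primrec_scode ρ d [(t, true)]).comp (primrec_iter (primrec_scode ρ d [(x, false)])
      (Primrec.const (code (FreeMagma.map ρ (FreeMagma.of Bg.b)))))))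
  refine h.of_eq fun k => ?_
  rw [tr1, code_tS, code_tS_iter, code_tS, code_tS_iter]

theorem primrec_tr2 (κ x t : ℕ) : Primrec fun k => code (FreeMagma.map ρ (tr2 d κ x t k)) := by
  have h := primrec_iter (primrec_scode ρ d [(x, true)])
    ((primrec_scode ρ d [(t, true)]).comp (primrec_iter (primrec_scode ρ d [(x, false)])
      (Primrec.const (scode ρ d [(κ, true)] (code (FreeMagma.map ρ (FreeMagma.of Bg.b)))))))
  refine h.of_eq fun k => ?_
  rw [tr2, code_tS_iter, code_tS, code_tS_iter, code_tS]

end

theorem mem_lv_tC {k : ℕ} {t : FreeMagma Bg} {i : Bg} (h : i ∈ lv (tC k t)) :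
    i = .c ∨ i ∈ lv t := by
  induction k with
  | zero => exact Or.inr h
  | succ k ih =>
    simp only [tC, lv, List.cons_append, List.nil_append, List.mem_cons] at h
    rcases h with h | h
    · exact Or.inl h
    · exact ih h

theorem mem_lv_tS {d : ℕ} {w : Wd} {t : FreeMagma Bg} {i : Bg} (h : i ∈ lv (tS d w t)) :
    i = .c ∨ i = .l (.inl w) ∨ i ∈ lv t := by
  rcases mem_lv_tC h with h | h
  · exact Or.inl h
  · simp only [lv, List.cons_append, List.nil_append, List.mem_cons] at h
    exact Or.inr h

theorem mem_lv_tS_iter {d : ℕ} {w : Wd} {t : FreeMagma Bg} {i : Bg} {k : ℕ}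
    (h : i ∈ lv ((tS d w)^[k] t)) : i = .c ∨ i = .l (.inl w) ∨ i ∈ lv t := by
  induction k with
  | zero => exact Or.inr (Or.inr h)
  | succ k ih =>
    rw [Function.iterate_succ_apply'] at h
    rcases mem_lv_tS h with h | h | h
    · exact Or.inl h
    · exact Or.inr (Or.inl h)
    · exact ih h

theorem length_RK (F : Type) [Field F] (m : ℕ) (R : List Wd) : dd F m R = 6 * (Ql m R).length := by
  have h : ∀ (L : List ((Wd × Wd × Wd × Wd) × ℕ)),
      (L.flatMap fun q => six F q.1 q.2).length = 6 * L.length := by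
    intro L
    induction L with
    | nil => rfl
    | cons q L ih =>
      rw [List.flatMap_cons, List.length_append, ih]
      simp only [six, List.length_cons, List.length_nil]
      omega
  rw [dd, RK, h, List.length_zipIdx]

/-- **Main theorem of the unsolvable side.** -/
theorem exists_monomial : ∃ t : FreeMagma ℕ, Multilinear t ∧
    ∀ (F : Type) [Field F] [Primcodable F], ∃ (n : ℕ) (r : List (Poly F (Fin n))),
      ¬ Solvable F [t] r := by
  classical
  obtain ⟨m, R, κ, x, t, hR, hκ, hx, ht, h1, h2⟩ := novikov_boone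
  set K := 2 * (6 * (Ql m R).length) with hK
  refine ⟨num (big K K) 0, multilinear_num _ 0, ?_⟩
  intro F _ _
  have hdd : 2 * dd F m R = K := by rw [length_RK, hK]
  have hml : ∀ t ∈ [num (big K K) 0], Multilinear t := by
    intro t ht
    rw [List.mem_singleton] at ht
    rw [ht]
    exact multilinear_num _ 0
  -- the list of all letters
  let Sl : List Bg := .c :: .b :: .l (.inl [(κ, true)]) :: .l (.inl [(x, true)]) ::
    .l (.inl [(x, false)]) :: .l (.inl [(t, true)]) ::
    (rels F m R).flatMap fun p => p.flatMap fun q => lv q.2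
  let ρ : Bg → Fin (Sl.length + 1) := fun i =>
    ⟨Sl.idxOf i, Nat.lt_succ_of_le (List.idxOf_le_length ..)⟩
  let σ : Fin (Sl.length + 1) → Bg := fun i => Sl.getD i .c
  have hρσ : ∀ i ∈ Sl, σ (ρ i) = i := by
    intro i hi
    have h3 : Sl.idxOf i < Sl.length := List.idxOf_lt_length_of_mem hi
    simp only [σ, ρ]
    rw [List.getD_eq_getElem _ _ h3, List.getElem_idxOf]
  have hlvr : ∀ p ∈ rels F m R, ∀ q ∈ p, ∀ i ∈ lv q.2, i ∈ Sl := by
    intro p hp q hq i hi
    simp only [Sl, List.mem_cons, List.mem_flatMap]
    exact Or.inr (Or.inr (Or.inr (Or.inr (Or.inr (Or.inr ⟨p, hp, q, hq, hi⟩)))))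
  have hlv1 : ∀ k, ∀ i ∈ lv (tr1 (dd F m R) κ x t k), i ∈ Sl := by
    intro k i hi
    have h3 : i = .c ∨ i = .b ∨ i = .l (.inl [(κ, true)]) ∨ i = .l (.inl [(x, true)]) ∨
        i = .l (.inl [(x, false)]) ∨ i = .l (.inl [(t, true)]) := by
      rw [tr1] at hi
      rcases mem_lv_tS hi with h | h | h
      · tauto
      · tauto
      rcases mem_lv_tS_iter h with h | h | h
      · tauto
      · tauto
      rcases mem_lv_tS h with h | h | h
      · tauto
      · tauto
      rcases mem_lv_tS_iter h with h | h | h
      · tauto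
      · tauto
      simp only [lv, List.mem_singleton] at h
      tauto
    simp only [Sl, List.mem_cons]
    tauto
  have hlv2 : ∀ k, ∀ i ∈ lv (tr2 (dd F m R) κ x t k), i ∈ Sl := by
    intro k i hi
    have h3 : i = .c ∨ i = .b ∨ i = .l (.inl [(κ, true)]) ∨ i = .l (.inl [(x, true)]) ∨
        i = .l (.inl [(x, false)]) ∨ i = .l (.inl [(t, true)]) := by
      rw [tr2] at hi
      rcases mem_lv_tS_iter hi with h | h | h
      · tauto
      · tauto
      rcases mem_lv_tS h with h | h | h
      · tauto
      · tauto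
      rcases mem_lv_tS_iter h with h | h | h
      · tauto
      · tauto
      rcases mem_lv_tS h with h | h | h
      · tauto
      · tauto
      simp only [lv, List.mem_singleton] at h
      tauto
    simp only [Sl, List.mem_cons]
    tauto
  let r : List (Poly F (Fin (Sl.length + 1))) := (rels F m R).map (rmap ρ)
  refine ⟨Sl.length + 1, r, ?_⟩
  rintro ⟨f, hf, hf'⟩
  -- the test polynomials
  let w : ℕ → Poly F (Fin (Sl.length + 1)) := fun e =>
    [(1, FreeMagma.map ρ (tr1 (dd F m R) κ x t (inp e))),
      (-1, FreeMagma.map ρ (tr2 (dd F m R) κ x t (inp e)))]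
  have heval : ∀ (A : Type) [NonUnitalNonAssocRing A] [Module F A]
      (a : Fin (Sl.length + 1) → A) (e : ℕ), (w e).eval a = 0 ↔
      FreeMagma.lift (fun i => a (ρ i)) (tr1 (dd F m R) κ x t (inp e)) =
        FreeMagma.lift (fun i => a (ρ i)) (tr2 (dd F m R) κ x t (inp e)) := by
    intro A _ _ a e
    simp only [w, Poly.eval, List.map_cons, List.map_nil, List.sum_cons, List.sum_nil, one_smul,
      neg_smul, add_zero, lift_map]
    rw [← sub_eq_add_neg, sub_eq_zero]
  have hvan : ∀ e, Vanishes F [num (big K K) 0] r (w e) ↔ Hl e := by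
    intro e
    constructor
    · intro h3
      by_contra he
      obtain ⟨G, hG, v, hv, hcomm⟩ := h2 e he
      have h4 := h3 (Mdl (mdG (F := F) v m R hv)) ?_ (fun i => asg m R v hv (σ i)) ?_
      · rw [heval] at h4
        have h5 := half2 (F := F) m R v hv κ x t (inp e) hcomm
        apply h5
        rw [lift_congr' (tr1 (dd F m R) κ x t (inp e)) (asg (F := F) m R v hv)
            (fun i => asg (F := F) m R v hv (σ (ρ i)))
            fun i hi => by rw [hρσ i (hlv1 _ i hi)],
          lift_congr' (tr2 (dd F m R) κ x t (inp e)) (asg (F := F) m R v hv)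
            (fun i => asg (F := F) m R v hv (σ (ρ i)))
            fun i hi => by rw [hρσ i (hlv2 _ i hi)]]
        exact h4
      · rw [sat_iff _ hml]
        intro t ht p hp
        rw [List.mem_singleton] at ht
        subst ht
        rw [sh_num, ← hdd] at hp
        exact Mdl.sat _ p hp
      · intro p hp
        obtain ⟨q, hq, rfl⟩ := List.mem_map.1 hp
        rw [eval_rmap]
        rw [← asg_rels (F := F) m R v hv q hq]
        refine eval_congr _ _ _ fun z hz i hi => ?_
        rw [hρσ i (hlvr q hq z hz i hi)]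
    · intro he A _ _ _ _ hsat a ha
      rw [heval]
      rw [sat_iff _ hml] at hsat
      refine half1 (F := F) m R ?_ (fun i => a (ρ i)) ?_ hR κ x t (inp e) hκ hx ht (h1 e he)
      · have h5 := hsat (num (big K K) 0) (by simp)
        rw [sh_num, ← hdd] at h5
        exact h5
      · intro p hp
        rw [← eval_rmap]
        exact ha _ (List.mem_map_of_mem hp)
  have hcomp : Computable fun e : ℕ => ((w e).map fun q => (q.1, code q.2)) := by
    have h3 : Primrec fun k : ℕ => ([(1, code (FreeMagma.map ρ (tr1 (dd F m R) κ x t k))),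
        (-1, code (FreeMagma.map ρ (tr2 (dd F m R) κ x t k)))] : List (F × ℕ)) := by
      refine Primrec.list_cons.comp (Primrec.pair (Primrec.const _)
        (primrec_tr1 ρ (dd F m R) κ x t)) ?_
      exact Primrec.list_cons.comp (Primrec.pair (Primrec.const _)
        (primrec_tr2 ρ (dd F m R) κ x t)) (Primrec.const [])
    exact h3.to_comp.comp computable_inp
  apply ComputablePred.halting_problem 0
  refine ⟨fun c => Classical.propDecidable _, ?_⟩
  have h3 : Computable (fun c : Nat.Partrec.Code =>
      f ((w (Encodable.encode c)).map fun q => (q.1, code q.2))) :=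
    hf.comp (hcomp.comp Computable.encode)
  refine h3.of_eq fun c => ?_
  have h4 := (hf' (w (Encodable.encode c))).trans (hvan (Encodable.encode c))
  rw [Hl, Denumerable.ofNat_encode] at h4
  exact Bool.eq_iff_iff.2 (h4.trans (@decide_eq_true_iff _ (_)).symm)

end Pool.Agent.W_59b51d_h18
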