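import Pool.Agent.W_59b51d_h18.SComp2

/-!
# The coded lists are primitive recursive
-/

namespace Pool.Agent.W_59b51d_h18

section Codes

/-- The codes of the variables. -/
def CX (n : ℕ) : List ℕ := (List.range n).map fun i => 2 * i

/-- The code of a product. -/
def cmul (a b : ℕ) : ℕ := 2 * Nat.pair a b + 1

/-- The codes of the monomials of height at most `H`. -/
def CM (n : ℕ) : ℕ → List ℕ
  | 0 => CX n
  | H + 1 => CX n ++ (CM n H).flatMap fun a => (CM n H).map fun b => cmul a b

theorem SComp3_CX (n : ℕ) : ((List.finRange n).map FreeMagma.of).map code = CX n := by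
  rw [CX, ← List.map_coe_finRange_eq_range, List.map_map, List.map_map]
  rfl

theorem CM_eq (n H : ℕ) : CM n H = (PM n H).map code := by
  induction H with
  | zero => exact (SComp3_CX n).symm
  | succ H ih =>
    rw [CM, PM, List.map_append, SComp3_CX, ih, List.map_flatMap, List.flatMap_map]
    congr 1
    refine List.flatMap_congr fun a _ => ?_
    rw [List.map_map, List.map_map]
    rfl

/-- The codes of the values of `t` at monomials of height at most `H`. -/
def CV (n : ℕ) : FreeMagma ℕ → ℕ → List ℕ
  | .of _, H => CM n H
  | .mul s t, H => (CV n s H).flatMap fun a => (CV n t H).map fun b => cmul a b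

theorem CV_eq (n : ℕ) (t : FreeMagma ℕ) (H : ℕ) : CV n t H = (PV n t H).map code := by
  induction t using FreeMagma.rec with
  | of i => exact CM_eq n H
  | mul s t hs ht =>
    change (CV n s H).flatMap (fun a => (CV n t H).map fun b => cmul a b) =
      ((PV n s H).flatMap fun a => (PV n t H).map fun b => a * b).map code
    rw [hs, ht, List.map_flatMap, List.flatMap_map]
    refine List.flatMap_congr fun a _ => ?_
    rw [List.map_map, List.map_map]
    rfl

variable {F : Type} [Field F] {n : ℕ}

/-- The code of a polynomial. -/
def cpoly (w : Poly F (Fin n)) : List (F × ℕ) := w.map fun q => (q.1, code q.2)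

/-- The codes of the relators and of the instances of the identities. -/
def CB (T : List (FreeMagma ℕ)) (r : List (Poly F (Fin n))) (H : ℕ) : List (List (F × ℕ)) :=
  r.map cpoly ++ T.flatMap fun t => (CV n t H).map fun m => [(1, m)]

/-- The codes of the products with monomials. -/
def CS (G : List (List (F × ℕ))) (M : List ℕ) : List (List (F × ℕ)) :=
  (G.flatMap fun g => M.map fun m => g.map fun q => (q.1, cmul q.2 m)) ++
    (G.flatMap fun g => M.map fun m => g.map fun q => (q.1, cmul m q.2))

/-- The codes of the consequences with fuel `H`. -/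
def CG (T : List (FreeMagma ℕ)) (r : List (Poly F (Fin n))) : ℕ → List (List (F × ℕ))
  | 0 => CB T r 0
  | H + 1 => CB T r (H + 1) ++ CS (CG T r H) (CM n H)

theorem CB_eq (T : List (FreeMagma ℕ)) (r : List (Poly F (Fin n))) (H : ℕ) :
    CB T r H = (PB T r H).map cpoly := by
  rw [CB, PB, List.map_append, List.map_flatMap]
  congr 1
  refine List.flatMap_congr fun t _ => ?_
  rw [CV_eq, List.map_map, List.map_map]
  rfl

theorem CG_eq (T : List (FreeMagma ℕ)) (r : List (Poly F (Fin n))) (H : ℕ) :
    CG T r H = (PG T r H).map cpoly := by
  induction H with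
  | zero => exact CB_eq T r 0
  | succ H ih =>
    rw [CG, PG, List.map_append, List.map_append, CB_eq, CS, ih, CM_eq]
    congr 1
    rw [List.map_flatMap, List.map_flatMap, List.flatMap_map, List.flatMap_map]
    congr 1
    · refine List.flatMap_congr fun g _ => ?_
      rw [List.map_map, List.map_map]
      refine List.map_congr_left fun m _ => ?_
      simp only [Function.comp_apply, cpoly, List.map_map]
      rfl
    · refine List.flatMap_congr fun g _ => ?_
      rw [List.map_map, List.map_map]
      refine List.map_congr_left fun m _ => ?_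
      simp only [Function.comp_apply, cpoly, List.map_map]
      rfl

end Codes

section Prim

theorem primrec_cmul : Primrec₂ cmul := by
  unfold cmul
  exact Primrec.nat_add.comp (Primrec.nat_mul.comp (Primrec.const 2)
    (Primrec₂.natPair.comp Primrec.fst Primrec.snd)) (Primrec.const 1)

theorem primrec_prod {f g : ℕ → List ℕ} (hf : Primrec f) (hg : Primrec g) :
    Primrec fun H => (f H).flatMap fun a => (g H).map fun b => cmul a b := by
  refine Primrec.list_flatMap hf ?_
  refine Primrec.list_map (hg.comp Primrec.fst) ?_
  exact primrec_cmul.comp (Primrec.snd.comp Primrec.fst) Primrec.snd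

theorem primrec_CM (n : ℕ) : Primrec (CM n) := by
  have h1 : Primrec₂ fun (_ : ℕ) (l : List ℕ) =>
      CX n ++ l.flatMap fun a => l.map fun b => cmul a b := by
    refine Primrec.list_append.comp (Primrec.const _) ?_
    refine Primrec.list_flatMap Primrec.snd ?_
    refine Primrec.list_map (Primrec.snd.comp Primrec.fst) ?_
    exact primrec_cmul.comp (Primrec.snd.comp Primrec.fst) Primrec.snd
  refine (Primrec.nat_rec₁ (CX n) h1).of_eq fun H => ?_
  induction H with
  | zero => rfl
  | succ H ih => rw [CM, ← ih]

theorem primrec_CV (n : ℕ) (t : FreeMagma ℕ) : Primrec (CV n t) := by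
  induction t using FreeMagma.rec with
  | of i => exact primrec_CM n
  | mul s t hs ht => exact primrec_prod hs ht

variable {F : Type} [Field F] [Primcodable F] {n : ℕ}

theorem primrec_CB (T : List (FreeMagma ℕ)) (r : List (Poly F (Fin n))) : Primrec (CB T r) := by
  unfold CB
  refine Primrec.list_append.comp (Primrec.const _) ?_
  induction T with
  | nil => exact Primrec.const _
  | cons t T ih =>
    have h1 : Primrec fun H => (CV n t H).map fun m => [((1 : F), m)] := by
      refine Primrec.list_map (primrec_CV n t) ?_
      exact Primrec.list_cons.comp (Primrec.pair (Primrec.const 1) Primrec.snd) (Primrec.const [])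
    exact (Primrec.list_append.comp h1 ih).of_eq fun H => by simp

theorem primrec_CS : Primrec₂ fun (G : List (List (F × ℕ))) (M : List ℕ) => CS G M := by
  unfold CS
  refine Primrec.list_append.comp ?_ ?_
  · refine Primrec.list_flatMap Primrec.fst ?_
    refine Primrec.list_map (Primrec.snd.comp Primrec.fst) ?_
    refine Primrec.list_map (Primrec.snd.comp Primrec.fst) ?_
    refine Primrec.pair (Primrec.fst.comp Primrec.snd) ?_
    exact primrec_cmul.comp (Primrec.snd.comp Primrec.snd) (Primrec.snd.comp Primrec.fst)
  · refine Primrec.list_flatMap Primrec.fst ?_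
    refine Primrec.list_map (Primrec.snd.comp Primrec.fst) ?_
    refine Primrec.list_map (Primrec.snd.comp Primrec.fst) ?_
    refine Primrec.pair (Primrec.fst.comp Primrec.snd) ?_
    exact primrec_cmul.comp (Primrec.snd.comp Primrec.fst) (Primrec.snd.comp Primrec.snd)

theorem primrec_CG (T : List (FreeMagma ℕ)) (r : List (Poly F (Fin n))) : Primrec (CG T r) := by
  have h1 : Primrec₂ fun (H : ℕ) (G : List (List (F × ℕ))) => CB T r (H + 1) ++ CS G (CM n H) := by
    refine Primrec.list_append.comp ?_ ?_
    · exact (primrec_CB T r).comp (Primrec.succ.comp Primrec.fst)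
    · exact primrec_CS.comp Primrec.snd ((primrec_CM n).comp Primrec.fst)
  refine (Primrec.nat_rec₁ (CB T r 0) h1).of_eq fun H => ?_
  induction H with
  | zero => rfl
  | succ H ih => rw [CG, ← ih]

end Prim

end Pool.Agent.W_59b51d_h18
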