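import Pool.Agent.W_59b51d_h18.SComp1
import Pool.Agent.W_59b51d_h18.SComp3

/-!
# Deciding the word problem from a bound on derivations
-/

namespace Pool.Agent.W_59b51d_h18

theorem code_injective {n : ℕ} : Function.Injective (code : FreeMagma (Fin n) → ℕ) := by
  intro x
  induction x using FreeMagma.rec with
  | of i =>
    intro y h
    cases y with
    | of j =>
      have h1 : 2 * (i : ℕ) = 2 * (j : ℕ) := h
      have h2 : i = j := Fin.ext (by omega)
      rw [h2]
    | mul s t =>
      have h1 : 2 * (i : ℕ) = 2 * Nat.pair (code s) (code t) + 1 := h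
      omega
  | mul s t hs ht =>
    intro y h
    cases y with
    | of j =>
      have h1 : 2 * Nat.pair (code s) (code t) + 1 = 2 * (j : ℕ) := h
      omega
    | mul s' t' =>
      have h1 : 2 * Nat.pair (code s) (code t) + 1 = 2 * Nat.pair (code s') (code t') + 1 := h
      have h2 : Nat.pair (code s) (code t) = Nat.pair (code s') (code t') := by omega
      rw [Nat.pair_eq_pair] at h2
      have h3 := hs h2.1
      have h4 := ht h2.2
      rw [h3, h4]

theorem height_le_code {n : ℕ} (m : FreeMagma (Fin n)) : height m ≤ code m := by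
  induction m using FreeMagma.rec with
  | of i => exact Nat.zero_le _
  | mul s t hs ht =>
    have h1 : height (FreeMagma.mul s t) = max (height s) (height t) + 1 := rfl
    have h2 : code (FreeMagma.mul s t) = 2 * Nat.pair (code s) (code t) + 1 := rfl
    have h3 := Nat.left_le_pair (code s) (code t)
    have h4 := Nat.right_le_pair (code s) (code t)
    rw [h1, h2]
    omega

section

variable {F : Type} [Field F] {n : ℕ}

theorem vec_cpoly (w : Poly F (Fin n)) :
    vec (cpoly w) = Finsupp.lmapDomain F F code (toP w) := by
  induction w with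
  | nil => simp [cpoly, vec, toP]
  | cons q w ih =>
    have h1 : cpoly (q :: w) = (q.1, code q.2) :: cpoly w := rfl
    rw [h1, vec_cons, ih, SComp2_toP_cons, map_add]
    congr 1
    rw [Finsupp.lmapDomain_apply, Finsupp.mapDomain_single]

theorem map_Cons (T : List (FreeMagma ℕ)) (hT : ∀ t ∈ T, Multilinear t)
    (r : List (Poly F (Fin n))) (H : ℕ) :
    Submodule.map (Finsupp.lmapDomain F F code) (Cons T r H) = spn (CG T r H) := by
  rw [Cons, Submodule.map_span, spn]
  congr 1
  ext v
  constructor
  · rintro ⟨p, hp, rfl⟩
    obtain ⟨g, hg, rfl⟩ := (gen_iff T hT r H p).1 hp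
    refine ⟨cpoly g, ?_, (vec_cpoly g).symm⟩
    rw [CG_eq]
    exact List.mem_map.2 ⟨g, hg, rfl⟩
  · rintro ⟨g, hg, rfl⟩
    rw [CG_eq] at hg
    obtain ⟨g', hg', rfl⟩ := List.mem_map.1 hg
    exact ⟨toP g', (gen_iff T hT r H _).2 ⟨g', hg', rfl⟩, (vec_cpoly g').symm⟩

theorem mem_Cons_iff (T : List (FreeMagma ℕ)) (hT : ∀ t ∈ T, Multilinear t)
    (r : List (Poly F (Fin n))) (H : ℕ) (w : Poly F (Fin n)) :
    toP w ∈ Cons T r H ↔ vec (cpoly w) ∈ spn (CG T r H) := by
  rw [← map_Cons T hT, vec_cpoly]
  constructor
  · intro h
    exact ⟨_, h, rfl⟩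
  · rintro ⟨p, hp, h⟩
    have h1 : p = toP w := Finsupp.mapDomain_injective code_injective h
    rwa [← h1]

end

/-- A bound for the codes. -/
def bnd {F : Type} (L : List (F × ℕ)) : ℕ := L.foldl (fun s q => s + q.2) 0

theorem le_bnd {F : Type} (L : List (F × ℕ)) (q : F × ℕ) (hq : q ∈ L) : q.2 ≤ bnd L := by
  unfold bnd
  rw [SComp1_foldl_add (fun q : F × ℕ => q.2), zero_add]
  exact List.le_sum_of_mem (List.mem_map.2 ⟨q, hq, rfl⟩)

theorem primrec_bnd {F : Type} [Primcodable F] : Primrec fun L : List (F × ℕ) => bnd L := by
  unfold bnd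
  refine Primrec.list_foldl (α := List (F × ℕ)) (β := F × ℕ) (σ := ℕ)
    (h := fun _ p => p.1 + p.2.2) Primrec.id (Primrec.const 0) ?_
  exact Primrec.nat_add.comp (Primrec.fst.comp Primrec.snd)
    (Primrec.snd.comp (Primrec.snd.comp Primrec.snd))

/-- If, over a computable field, a polynomial `w` with monomials of height at most `h` vanishes in
the presented algebra exactly when it is in the span of the consequences with fuel `c + K * h`, then
the word problem is solvable.

Proof. For every `H` a list `G H : List (List (F × ℕ))` of coded polynomials which contains exactly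
the (coded) members of `{p | Gen T r H p}` (as elements of `ℕ →₀ F`; `code` is injective) can be
computed: the list of the codes of the monomials of height `≤ H` is computed by recursion on `H`
(all codes `2 * i`, `i < n`, and `2 * pair a b + 1` for `a`, `b` in the previous list); the codes of
`FreeMagma.lift c t`, heights of `c i` at most `H`, by recursion on the fixed `t` (as `t` is
multilinear, the values of `s * t` are all products of a value of `s` and a value of `t`);
`G (H + 1)` consists of the relators, the `lift c t`, and of the products `g m`, `m g` with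
`g ∈ G H` and `height m ≤ H`.
Membership of a vector `w` in the span of a finite list `G` of vectors is computable: search for
coefficients with `w = Σ c_i g_i` or for a functional (finite list of pairs (code, value)) killing
all `g_i` and not `w`; one of the two exists, so that the search terminates. -/
theorem solvable_of_bound {F : Type} [Field F] [Primcodable F]
    (hadd : Computable₂ fun a b : F => a + b) (hmul : Computable₂ fun a b : F => a * b) {n : ℕ}
    (T : List (FreeMagma ℕ)) (hT : ∀ t ∈ T, Multilinear t) (r : List (Poly F (Fin n))) (c K : ℕ)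
    (hb : ∀ (h : ℕ) (w : Poly F (Fin n)), (∀ q ∈ w, height q.2 ≤ h) →
      (Vanishes F T r w ↔ toP w ∈ Cons T r (c + K * h))) :
    Solvable F T r := by
  obtain ⟨f, hf, hfs⟩ := computable_spn (F := F) hadd hmul
  have h1 : Computable fun L : List (F × ℕ) => CG T r (c + K * bnd L) := by
    refine (primrec_CG T r).to_comp.comp (Primrec.to_comp ?_)
    exact Primrec.nat_add.comp (Primrec.const c)
      (Primrec.nat_mul.comp (Primrec.const K) primrec_bnd)
  refine ⟨fun L => f (L, CG T r (c + K * bnd L)), hf.comp (Computable.pair Computable.id h1),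
    fun w => ?_⟩
  rw [hfs]
  have h2 : ∀ q ∈ w, height q.2 ≤ bnd (cpoly w) := by
    intro q hq
    have h3 : ((q.1, code q.2) : F × ℕ) ∈ cpoly w := List.mem_map.2 ⟨q, hq, rfl⟩
    exact (height_le_code q.2).trans (le_bnd _ _ h3)
  rw [hb _ w h2, mem_Cons_iff T hT]
  rfl

end Pool.Agent.W_59b51d_h18
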