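import Pool.Agent.W_59b51d_h18.SImage

/-!
# The base of the induction: finite dimension
-/

namespace Pool.Agent.W_59b51d_h18

/-- There are finitely many monomials of bounded height.

Proof. Induction on `h`: a monomial of height at most `h + 1` is a variable or a product of two
monomials of height at most `h`. -/
theorem finite_height {X : Type} [Finite X] (h : ℕ) :
    {m : FreeMagma X | height m ≤ h}.Finite := by
  induction h with
  | zero =>
    refine (Set.finite_range (FreeMagma.of : X → FreeMagma X)).subset ?_
    intro m hm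
    cases m with
    | of x => exact ⟨x, rfl⟩
    | mul u v =>
      exfalso
      have : max (height u) (height v) + 1 ≤ 0 := hm
      omega
  | succ h ih =>
    refine ((Set.finite_range (FreeMagma.of : X → FreeMagma X)).union
      ((ih.prod ih).image fun p : FreeMagma X × FreeMagma X => p.1 * p.2)).subset ?_
    intro m hm
    cases m with
    | of x => exact Or.inl ⟨x, rfl⟩
    | mul u v =>
      have hm' : max (height u) (height v) + 1 ≤ h + 1 := hm
      have hu : height u ≤ h := by omega
      have hv : height v ≤ h := by omega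
      exact Or.inr ⟨(u, v), ⟨hu, hv⟩, rfl⟩

section Algebra

variable {F : Type} [Field F] {X A : Type} [NonUnitalNonAssocRing A] [Module F A]
  [IsScalarTower F A A] [SMulCommClass F A A]

/-- Every element of `NA F X` whose value lies in the sum of the `A_τ`, `τ ∈ S`, lies in some
`DD T r S H`, if the members of `S` are multilinear.

Proof. By `AS_eq_map`, `SS F A S` is the image under `ev` of the sum of the spans
`{tr (lift c τ)}`, `τ ∈ S` (`Submodule.map_iSup`), so there is `e` in this sum with
`ev e = ev p`. Each `tr (lift c τ)` is in some `EE F X S H`: only the values of `c` at the finitely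
many variables of `τ` matter (`lift_congr`), so replace `c` by a function which is constant (equal
to a value of `c`) off `vars τ`. The `DD T r S H` increase with `H`, so `e` is in one of them, and
`p - e` has value `0`, hence is in some `Cons T r H`. -/
theorem exists_mem_DD {T : List (FreeMagma ℕ)} {r : List (Poly F X)} {a : X → A}
    (hpres : IsPres F T r a) {S : Finset (FreeMagma ℕ)} (hS : ∀ τ ∈ S, Multilinear τ)
    {p : NA F X} (hp : ev F a p ∈ SS F A S) : ∃ H, p ∈ DD T r S H := by
  have hdir : Directed (· ≤ ·) (fun H => DD T r S H) :=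
    (monotone_nat_of_le_succ fun H => DD_mono (Nat.le_succ H)).directed_le
  -- values of members of `S`
  have h1 : ∀ τ ∈ S, ∀ c : ℕ → FreeMagma X, ∃ H, tr F (FreeMagma.lift c τ) ∈ DD T r S H := by
    intro τ hτ c
    let c' : ℕ → FreeMagma X := fun i => if i ∈ vars τ then c i else c 0
    have hc' : FreeMagma.lift c τ = FreeMagma.lift c' τ := lift_congr fun i hi => by
      simp only [c', if_pos hi]
    refine ⟨((vars τ).map fun i => height (c i)).sum + height (c 0), ?_⟩
    rw [hc']
    refine tr_mem_DD hτ fun i => ?_
    simp only [c']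
    split_ifs with hi
    · have : height (c i) ∈ (vars τ).map fun i => height (c i) := List.mem_map.2 ⟨i, hi, rfl⟩
      exact (List.single_le_sum (by simp) _ this).trans (Nat.le_add_right _ _)
    · exact Nat.le_add_left _ _
  have h2 : SS F A S ≤ Submodule.map (ev F a) (⨆ H, DD T r S H) := by
    refine iSup₂_le fun τ hτ => ?_
    rw [AS_eq_map hpres.surj (hS τ hτ)]
    refine Submodule.map_mono (Submodule.span_le.2 ?_)
    rintro _ ⟨c, rfl⟩
    obtain ⟨H, hH⟩ := h1 τ hτ c
    exact Submodule.mem_iSup_of_mem H hH
  obtain ⟨e, he, hep⟩ := h2 hp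
  have h3 : ev F a (p - e) = 0 := by rw [map_sub, hep, sub_self]
  obtain ⟨H, hH⟩ := (hpres.ker _).1 h3
  obtain ⟨H', hH'⟩ := (Submodule.mem_iSup_of_directed _ hdir).1 he
  refine ⟨max H H', ?_⟩
  have : p = (p - e) + e := by abel
  rw [this]
  exact add_mem (DD_mono (le_max_left _ _) (Cons_le_DD hH)) (DD_mono (le_max_right _ _) hH')

/-- The base of the induction.

Proof. For one `S`: the subspace `{w ∈ Tr F X h | ev F a w ∈ SS F A S}` is finite-dimensional
(`finite_height`), hence finitely generated, and is contained in the increasing union of the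
`DD T r S H` by `exists_mem_DD`, so it is contained in one of them. Take the maximum over the
finitely many `S ⊆ S₀` (`DD_mono`). -/
theorem exists_base [Finite X] {T : List (FreeMagma ℕ)} {r : List (Poly F X)} {a : X → A}
    (hpres : IsPres F T r a) (S₀ : Finset (FreeMagma ℕ)) (hS₀ : ∀ τ ∈ S₀, Multilinear τ)
    (h : ℕ) : ∃ N, ∀ S ⊆ S₀, Bd F T r a S h N := by
  have hfd : FiniteDimensional F (Tr F X h) := by
    refine FiniteDimensional.span_of_finite F ?_
    refine ((finite_height (X := X) h).image (tr F)).subset ?_
    rintro _ ⟨m, hm, rfl⟩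
    exact ⟨m, hm, rfl⟩
  have h1 : ∀ S : Finset (FreeMagma ℕ), ∃ N, S ⊆ S₀ → Bd F T r a S h N := by
    intro S
    by_cases hS : S ⊆ S₀
    · let M : Submodule F (NA F X) := Tr F X h ⊓ (SS F A S).comap (ev F a)
      have hM : M.FG := by
        have : FiniteDimensional F M := Submodule.finiteDimensional_of_le inf_le_left
        exact Module.Finite.iff_fg.1 this
      obtain ⟨B, hB⟩ := hM
      have h2 : ∀ p ∈ B, ∃ H, p ∈ DD T r S H := fun p hp => by
        have hpM : p ∈ M := by rw [← hB]; exact Submodule.subset_span hp
        exact exists_mem_DD hpres (fun τ hτ => hS₀ τ (hS hτ)) hpM.2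
      choose! Hf hHf using h2
      refine ⟨B.sup Hf, fun _ w hw hwS => ?_⟩
      have hwM : w ∈ M := ⟨hw, hwS⟩
      rw [← hB] at hwM
      refine (Submodule.span_le.2 ?_) hwM
      intro p hp
      exact DD_mono (Finset.le_sup (f := Hf) hp) (hHf p hp)
    · exact ⟨0, fun h => absurd h hS⟩
  choose Nf hNf using h1
  refine ⟨S₀.powerset.sup Nf, fun S hS w hw hwS => ?_⟩
  exact DD_mono (Finset.le_sup (f := Nf) (Finset.mem_powerset.2 hS)) (hNf S hS w hw hwS)

end Algebra

end Pool.Agent.W_59b51d_h18
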