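import Pool.Agent.W_59b51d_h18.SBasic

/-!
# The extension trick
-/

namespace Pool.Agent.W_59b51d_h18

variable {F : Type} [Field F] {X A Z : Type} [NonUnitalNonAssocRing A] [Module F A]
  [IsScalarTower F A A] [SMulCommClass F A A] [AddCommGroup Z] [Module F Z]

/-- The value of a monomial: `γ x` for a variable and `β (u(a)) (v(a))` for a product `u * v`. -/
noncomputable def dm (γ : X → Z) (β : A →ₗ[F] A →ₗ[F] Z) (a : X → A) : FreeMagma X → Z
  | .of x => γ x
  | .mul u v => β (FreeMagma.lift a u) (FreeMagma.lift a v)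

/-- The linear extension of `dm`. -/
noncomputable def DM (γ : X → Z) (β : A →ₗ[F] A →ₗ[F] Z) (a : X → A) : NA F X →ₗ[F] Z :=
  Finsupp.linearCombination F (dm γ β a)

/-- `DM` of a product. Proof: `NA_induction` twice, `mulP_tr`, `ev_tr`. -/
theorem DM_mulP (γ : X → Z) (β : A →ₗ[F] A →ₗ[F] Z) (a : X → A) (p q : NA F X) :
    DM γ β a (mulP F X p q) = β (ev F a p) (ev F a q) := by
  have hDM : ∀ m, DM γ β a (tr F m) = dm γ β a m := fun m => by simp [DM, tr]
  induction p using NA_induction with
  | h0 => simp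
  | hadd p p' hp hp' => simp only [map_add, LinearMap.add_apply, hp, hp']
  | hsm c m =>
    induction q using NA_induction with
    | h0 => simp
    | hadd q q' hq hq' => simp only [map_add, hq, hq']
    | hsm c' m' =>
      simp only [map_smul, LinearMap.smul_apply, mulP_tr, ev_tr, hDM]
      rfl

/-- **The extension trick.** A linear map on the presented algebra can be prescribed on the
generators and on the products.

Proof. `DM γ β a` vanishes on `ker (ev F a)`: by `IsPres.ker` it suffices to treat
`p ∈ Cons T r H`, hence (`Submodule.span_induction`) `Gen T r H p`: for the relators this is `hr`;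
for an instance `tr (lift c t)` of `t = L * R` the value is
`β (lift a (lift c L)) (lift a (lift c R))`, which is `0` by `hT`, `lift_lift` and `lift_mem_AS`; for
the products use `DM_mulP` and `ev F a g = 0` (`IsPres.ker`, as `g ∈ Cons T r H`). As `ev F a` is
surjective, `DM γ β a = δ ∘ ev F a` for a linear `δ` (e.g. `δ u = DM γ β a (s u)` for a linear
section `s` of `ev F a`). The second property from `DM_mulP` and surjectivity. -/
theorem exists_delta {T : List (FreeMagma ℕ)} {r : List (Poly F X)} {a : X → A}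
    (hpres : IsPres F T r a) (γ : X → Z) (β : A →ₗ[F] A →ₗ[F] Z)
    (hT : ∀ t ∈ T, ∃ L R : FreeMagma ℕ, t = L * R ∧ ∀ u ∈ AS F A L, ∀ v ∈ AS F A R, β u v = 0)
    (hr : ∀ p ∈ r, DM γ β a (toP p) = 0) :
    ∃ δ : A →ₗ[F] Z, (∀ p, δ (ev F a p) = DM γ β a p) ∧ ∀ u v : A, δ (u * v) = β u v := by
  have hgen : ∀ H (p : NA F X), Gen T r H p → DM γ β a p = 0 := by
    intro H p hp
    cases hp with
    | rel hp => exact hr _ hp
    | @inst _ t c ht hc =>
      obtain ⟨L, R, rfl, hLR⟩ := hT t ht
      have e : DM γ β a (tr F (FreeMagma.lift c (L * R))) =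
          β (FreeMagma.lift a (FreeMagma.lift c L)) (FreeMagma.lift a (FreeMagma.lift c R)) := by
        rw [map_mul, ← mulP_tr, DM_mulP, ev_tr, ev_tr]
      rw [e, lift_lift, lift_lift]
      exact hLR _ (lift_mem_AS _ _) _ (lift_mem_AS _ _)
    | mulr hg hm =>
      rw [DM_mulP, (hpres.ker _).2 ⟨_, Gen.mem hg⟩, map_zero, LinearMap.zero_apply]
    | mull hg hm =>
      rw [DM_mulP, (hpres.ker _).2 ⟨_, Gen.mem hg⟩, map_zero]
  have hker : ∀ p, ev F a p = 0 → DM γ β a p = 0 := by
    intro p hp
    obtain ⟨H, hH⟩ := (hpres.ker p).1 hp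
    have : Cons T r H ≤ LinearMap.ker (DM γ β a) := Submodule.span_le.2 fun g hg => hgen H g hg
    exact this hH
  obtain ⟨s, hs⟩ := LinearMap.exists_rightInverse_of_surjective (ev F a)
    (LinearMap.range_eq_top.2 hpres.surj)
  have hs' : ∀ u, ev F a (s u) = u := fun u => by
    have := LinearMap.congr_fun hs u
    simpa using this
  have h1 : ∀ p, (DM γ β a).comp s (ev F a p) = DM γ β a p := by
    intro p
    have := hker (s (ev F a p) - p) (by rw [map_sub, hs', sub_self])
    rw [map_sub, sub_eq_zero] at this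
    exact this
  refine ⟨(DM γ β a).comp s, h1, fun u v => ?_⟩
  have : u * v = ev F a (mulP F X (s u) (s v)) := by rw [ev_mulP, hs', hs']
  rw [this, h1, DM_mulP, hs', hs']

end Pool.Agent.W_59b51d_h18
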