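import Pool.Agent.W_59b51d_h18.SImage

/-!
# The presented algebra
-/

namespace Pool.Agent.W_59b51d_h18

/-- Consequences vanish in every algebra of the variety in which the relators vanish.

Proof. `Submodule.span_induction`, then induction on `Gen`: `ev_toP` for the relators, `ev_tr` and
`lift_lift` for the instances of identities, `ev_mulP` for the products. -/
theorem ev_eq_zero_of_mem_Cons {F X A : Type} [Field F] [NonUnitalNonAssocRing A] [Module F A]
    [IsScalarTower F A A] [SMulCommClass F A A] {T : List (FreeMagma ℕ)} {r : List (Poly F X)}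
    (hA : Sat A T) {a : X → A} (ha : ∀ p ∈ r, p.eval a = 0) {H : ℕ} {p : NA F X}
    (hp : p ∈ Cons T r H) : ev F a p = 0 := by
  refine Submodule.span_induction ?_ (map_zero _) (fun x y _ _ hx hy => by rw [map_add, hx, hy, add_zero])
    (fun c x _ hx => by rw [map_smul, hx, smul_zero]) hp
  intro x hx
  have hx' : Gen T r H x := hx
  clear hx hp
  induction hx' with
  | rel hp => rw [ev_toP]; exact ha _ hp
  | inst ht hc => rw [ev_tr, lift_lift]; exact hA _ ht _
  | mulr _ _ ih => rw [ev_mulP, ih, zero_mul]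
  | mull _ _ ih => rw [ev_mulP, ih, mul_zero]

lemma SQuot_mulr {F X : Type} [Field F] {T : List (FreeMagma ℕ)} {r : List (Poly F X)} {H H' : ℕ}
    {m : FreeMagma X} (hH : H ≤ H') (hm : height m ≤ H') {p : NA F X} (hp : p ∈ Cons T r H) :
    mulP F X p (tr F m) ∈ Cons T r (H' + 1) := by
  have h : Cons T r H ≤ (Cons T r (H' + 1)).comap ((mulP F X).flip (tr F m)) := by
    refine Submodule.span_le.2 fun g hg => ?_
    have hg' : Gen T r H g := hg
    have h1 : mulP F X g (tr F m) ∈ Cons T r (H' + 1) := Gen.mem (Gen.mulr (Gen.mono hg' hH) hm)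
    rw [SetLike.mem_coe, Submodule.mem_comap, LinearMap.flip_apply]
    exact h1
  exact h hp

lemma SQuot_mull {F X : Type} [Field F] {T : List (FreeMagma ℕ)} {r : List (Poly F X)} {H H' : ℕ}
    {m : FreeMagma X} (hH : H ≤ H') (hm : height m ≤ H') {p : NA F X} (hp : p ∈ Cons T r H) :
    mulP F X (tr F m) p ∈ Cons T r (H' + 1) := by
  have h : Cons T r H ≤ (Cons T r (H' + 1)).comap (mulP F X (tr F m)) := by
    refine Submodule.span_le.2 fun g hg => ?_
    have hg' : Gen T r H g := hg
    have h1 : mulP F X (tr F m) g ∈ Cons T r (H' + 1) := Gen.mem (Gen.mull (Gen.mono hg' hH) hm)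
    rw [SetLike.mem_coe, Submodule.mem_comap]
    exact h1
  exact h hp

/-- The ideal of all consequences is closed under multiplication.

Proof. For `p ∈ Cons T r H` and `q = tr m` use `Gen.mulr` (`H` may be increased, `Cons_mono`);
the general case by `NA_induction` for `q` (the `Cons T r H` increase with `H`). -/
theorem mulP_mem_iUnion {F X : Type} [Field F] {T : List (FreeMagma ℕ)} {r : List (Poly F X)}
    {p : NA F X} (hp : ∃ H, p ∈ Cons T r H) (q : NA F X) :
    (∃ H, mulP F X p q ∈ Cons T r H) ∧ ∃ H, mulP F X q p ∈ Cons T r H := by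
  obtain ⟨H, hp⟩ := hp
  induction q using NA_induction with
  | h0 => exact ⟨⟨0, by rw [map_zero]; exact zero_mem _⟩,
      ⟨0, by rw [map_zero, LinearMap.zero_apply]; exact zero_mem _⟩⟩
  | hadd q q' hq hq' =>
    obtain ⟨⟨a, ha⟩, b, hb⟩ := hq
    obtain ⟨⟨a', ha'⟩, b', hb'⟩ := hq'
    refine ⟨⟨max a a', ?_⟩, max b b', ?_⟩
    · rw [map_add]
      exact add_mem (Cons_mono (le_max_left _ _) ha) (Cons_mono (le_max_right _ _) ha')
    · rw [map_add, LinearMap.add_apply]
      exact add_mem (Cons_mono (le_max_left _ _) hb) (Cons_mono (le_max_right _ _) hb')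
  | hsm c m =>
    refine ⟨⟨max H (height m) + 1, ?_⟩, max H (height m) + 1, ?_⟩
    · rw [map_smul]
      exact Submodule.smul_mem _ _ (SQuot_mulr (le_max_left _ _) (le_max_right _ _) hp)
    · rw [map_smul, LinearMap.smul_apply]
      exact Submodule.smul_mem _ _ (SQuot_mull (le_max_left _ _) (le_max_right _ _) hp)

section Quotient

variable {F X : Type} [Field F] (T : List (FreeMagma ℕ)) (r : List (Poly F X))

/-- the ideal of all consequences -/
noncomputable def SQuot_J : Submodule F (NA F X) := ⨆ H, Cons T r H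

lemma SQuot_mem_J {p : NA F X} : p ∈ SQuot_J T r ↔ ∃ H, p ∈ Cons T r H := by
  refine Submodule.mem_iSup_of_directed _ ?_
  exact Monotone.directed_le fun a b hab => Cons_mono hab

/-- the presented algebra -/
def SQuot_A : Type := NA F X ⧸ SQuot_J T r

noncomputable instance SQuot_acg : AddCommGroup (SQuot_A T r) :=
  inferInstanceAs (AddCommGroup (NA F X ⧸ SQuot_J T r))

noncomputable instance SQuot_mod : Module F (SQuot_A T r) :=
  inferInstanceAs (Module F (NA F X ⧸ SQuot_J T r))

/-- the projection -/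
noncomputable def SQuot_mk : NA F X →ₗ[F] SQuot_A T r := (SQuot_J T r).mkQ

lemma SQuot_surj : Function.Surjective (SQuot_mk T r) := Submodule.mkQ_surjective _

lemma SQuot_zero {p : NA F X} : SQuot_mk T r p = 0 ↔ ∃ H, p ∈ Cons T r H := by
  rw [← SQuot_mem_J T r]
  exact Submodule.Quotient.mk_eq_zero _

/-- the product with a fixed left factor -/
noncomputable def SQuot_left : NA F X →ₗ[F] SQuot_A T r →ₗ[F] SQuot_A T r where
  toFun p := (SQuot_J T r).liftQ (SQuot_mk T r ∘ₗ mulP F X p) (by
    intro q hq
    rw [LinearMap.mem_ker, LinearMap.comp_apply, SQuot_zero]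
    exact (mulP_mem_iUnion ((SQuot_mem_J T r).1 hq) p).2)
  map_add' p p' := by
    refine LinearMap.ext fun x => ?_
    obtain ⟨q, rfl⟩ := SQuot_surj T r x
    change SQuot_mk T r (mulP F X (p + p') q) =
      SQuot_mk T r (mulP F X p q) + SQuot_mk T r (mulP F X p' q)
    rw [map_add, LinearMap.add_apply, map_add]
  map_smul' c p := by
    refine LinearMap.ext fun x => ?_
    obtain ⟨q, rfl⟩ := SQuot_surj T r x
    change SQuot_mk T r (mulP F X (c • p) q) = c • SQuot_mk T r (mulP F X p q)
    rw [map_smul, LinearMap.smul_apply, map_smul]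

/-- the product -/
noncomputable def SQuot_mul : SQuot_A T r →ₗ[F] SQuot_A T r →ₗ[F] SQuot_A T r :=
  (SQuot_J T r).liftQ (SQuot_left T r) (by
    intro p hp
    rw [LinearMap.mem_ker]
    refine LinearMap.ext fun x => ?_
    obtain ⟨q, rfl⟩ := SQuot_surj T r x
    change SQuot_mk T r (mulP F X p q) = 0
    rw [SQuot_zero]
    exact (mulP_mem_iUnion ((SQuot_mem_J T r).1 hp) q).1)

lemma SQuot_mul_mk (p q : NA F X) :
    SQuot_mul T r (SQuot_mk T r p) (SQuot_mk T r q) = SQuot_mk T r (mulP F X p q) := rfl

noncomputable instance SQuot_ring : NonUnitalNonAssocRing (SQuot_A T r) :=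
  { SQuot_acg T r with
    mul := fun x y => SQuot_mul T r x y
    left_distrib := fun x y z => map_add (SQuot_mul T r x) y z
    right_distrib := fun x y z => by
      change SQuot_mul T r (x + y) z = SQuot_mul T r x z + SQuot_mul T r y z
      rw [map_add, LinearMap.add_apply]
    zero_mul := fun x => by
      change SQuot_mul T r 0 x = 0
      rw [map_zero, LinearMap.zero_apply]
    mul_zero := fun x => map_zero (SQuot_mul T r x) }

instance SQuot_ist : IsScalarTower F (SQuot_A T r) (SQuot_A T r) :=
  ⟨fun c x y => by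
    change SQuot_mul T r (c • x) y = c • SQuot_mul T r x y
    rw [map_smul, LinearMap.smul_apply]⟩

instance SQuot_scc : SMulCommClass F (SQuot_A T r) (SQuot_A T r) :=
  ⟨fun c x y => (map_smul (SQuot_mul T r x) c y).symm⟩

/-- the generators -/
noncomputable def SQuot_a (x : X) : SQuot_A T r := SQuot_mk T r (tr F (FreeMagma.of x))

lemma SQuot_lift (m : FreeMagma X) :
    FreeMagma.lift (SQuot_a T r) m = SQuot_mk T r (tr F m) := by
  induction m using FreeMagma.rec with
  | of i => rfl
  | mul s t hs ht =>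
    change FreeMagma.lift (SQuot_a T r) s * FreeMagma.lift (SQuot_a T r) t =
      SQuot_mk T r (tr F (s * t))
    rw [hs, ht, ← mulP_tr, ← SQuot_mul_mk]
    rfl

lemma SQuot_ev (p : NA F X) : ev F (SQuot_a T r) p = SQuot_mk T r p := by
  induction p using NA_induction with
  | h0 => rw [map_zero, map_zero]
  | hadd p q hp hq => rw [map_add, map_add, hp, hq]
  | hsm c m => rw [map_smul, map_smul, ev_tr, SQuot_lift]

lemma SQuot_bdd (t : FreeMagma ℕ) (c : ℕ → FreeMagma X) :
    ∃ (H : ℕ) (c' : ℕ → FreeMagma X), (∀ i, height (c' i) ≤ H) ∧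
      FreeMagma.lift c t = FreeMagma.lift c' t := by
  classical
  refine ⟨max (height (c 0)) ((vars t).toFinset.sup fun i => height (c i)),
    fun i => if i ∈ vars t then c i else c 0, fun i => ?_, lift_congr fun i hi => ?_⟩
  · by_cases hi : i ∈ vars t
    · simp only [if_pos hi]
      exact le_max_of_le_right
        (Finset.le_sup (f := fun i => height (c i)) (List.mem_toFinset.2 hi))
    · simp only [if_neg hi]
      exact le_max_left _ _
  · simp only [if_pos hi]

end Quotient

/-- Existence of the presented algebra.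

Proof. Let `J = ⨆ H, Cons T r H` (a directed union, so `p ∈ J ↔ ∃ H, p ∈ Cons T r H`, by
`Submodule.mem_iSup_of_directed`) and let `A = NA F X ⧸ J` with the product induced by `mulP`
(well defined by `mulP_mem_iUnion`), `a x` the class of `tr (of x)`. Then
`FreeMagma.lift a m` is the class of `tr m` (induction on `m`, `mulP_tr`), so `ev F a p` is the
class of `p`; this gives `IsPres` and the vanishing of the relators. For `t ∈ T`, `AS F A t = ⊥`, by
`AS_eq_map` and `Gen.inst`, and `lift_mem_AS` gives `Sat A T`. (A universal structure: put the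
instances on the quotient with `letI`, or use a structure type wrapping the quotient.) -/
theorem exists_isPres {F X : Type} [Field F] (T : List (FreeMagma ℕ))
    (hT : ∀ t ∈ T, Multilinear t) (r : List (Poly F X)) :
    ∃ (A : Type) (_ : NonUnitalNonAssocRing A) (_ : Module F A) (_ : IsScalarTower F A A)
      (_ : SMulCommClass F A A) (a : X → A),
      IsPres F T r a ∧ Sat A T ∧ ∀ p ∈ r, p.eval a = 0 := by
  refine ⟨SQuot_A T r, SQuot_ring T r, SQuot_mod T r, SQuot_ist T r, SQuot_scc T r, SQuot_a T r,
    ⟨fun x => ?_, fun p => ?_⟩, ?_, fun p hp => ?_⟩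
  · obtain ⟨p, rfl⟩ := SQuot_surj T r x
    exact ⟨p, SQuot_ev T r p⟩
  · rw [SQuot_ev, SQuot_zero]
  · intro t ht v
    have hsurj : Function.Surjective (ev F (SQuot_a T r)) := fun x => by
      obtain ⟨p, rfl⟩ := SQuot_surj T r x
      exact ⟨p, SQuot_ev T r p⟩
    have h1 := lift_mem_AS (F := F) v t
    rw [AS_eq_map hsurj (hT t ht)] at h1
    have h2 : Submodule.map (ev F (SQuot_a T r))
        (Submodule.span F {p | ∃ c : ℕ → FreeMagma X, p = tr F (FreeMagma.lift c t)}) ≤ ⊥ := by
      rw [Submodule.map_span_le]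
      rintro _ ⟨c, rfl⟩
      obtain ⟨H, c', hc', hcc⟩ := SQuot_bdd t c
      rw [Submodule.mem_bot, SQuot_ev, SQuot_zero, hcc]
      exact ⟨H, Gen.mem (Gen.inst ht hc')⟩
    exact (Submodule.mem_bot F).1 (h2 h1)
  · rw [← ev_toP, SQuot_ev, SQuot_zero]
    exact ⟨0, Gen.mem (Gen.rel hp)⟩

/-- `Vanishes` is the vanishing in the presented algebra.

Proof. If `w` vanishes in all algebras, it vanishes in `A`. If `ev F a (toP w) = 0`, then
`toP w ∈ Cons T r H` for some `H`; use `ev_eq_zero_of_mem_Cons` and `ev_toP`. -/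
theorem vanishes_iff {F X A : Type} [Field F] [NonUnitalNonAssocRing A] [Module F A]
    [IsScalarTower F A A] [SMulCommClass F A A] {T : List (FreeMagma ℕ)} {r : List (Poly F X)}
    {a : X → A} (hpres : IsPres F T r a) (hA : Sat A T) (ha : ∀ p ∈ r, p.eval a = 0)
    (w : Poly F X) : Vanishes F T r w ↔ ev F a (toP w) = 0 := by
  constructor
  · intro h
    rw [ev_toP]
    exact h A hA a ha
  · intro h B _ _ _ _ hB b hb
    obtain ⟨H, hH⟩ := (hpres.ker _).1 h
    rw [← ev_toP]
    exact ev_eq_zero_of_mem_Cons hB hb hH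

end Pool.Agent.W_59b51d_h18
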