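import Pool.Agent.W_59b51d_h18.SBeta
import Pool.Agent.W_59b51d_h18.SExt
import Pool.Agent.W_59b51d_h18.SBase
import Pool.Agent.W_59b51d_h18.SQuot

/-!
# The induction step and the linear bound for derivations
-/

namespace Pool.Agent.W_59b51d_h18

variable {F : Type} [Field F] {X A : Type} [NonUnitalNonAssocRing A] [Module F A]
  [IsScalarTower F A A] [SMulCommClass F A A] {T : List (FreeMagma ℕ)} {r : List (Poly F X)}

/-- `DM` is the class map on the monomials of height at most `h + 1`.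

Proof. By `Tr_le` for the submodule `LinearMap.eqLocus`, `w = tr m`. For a variable this is the
definition. For `m = u * v`, `u` and `v` have height at most `h`, so `ū = lift a u`, `v̄ = lift a v`
are in `V = map (ev F a) (Tr F X h)` and `DM (tr m) = β ū v̄ = [s ū * s v̄]`. As `s ū - u ∈ Tr F X h`
has value `0`, it is in `DD T r ∅ N = Cons T r N` by `IH` for `S' = ∅`; the same for `v`. So
`s ū * s v̄ - u * v = (s ū - u) * s v̄ + u * (s v̄ - v)` is in `Cons T r (N + 1)` by `Cons_mulP` and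
`mulP_Cons`, hence in `DD T r S (N + K)`. -/
theorem DM_eq_mk {a : X → A} {h N K : ℕ} (hN : h ≤ N) (hK1 : 1 ≤ K)
    (IH : Bd F T r a ∅ h N) {S : Finset (FreeMagma ℕ)}
    {s : A →ₗ[F] NA F X} (hs : ∀ v ∈ Submodule.map (ev F a) (Tr F X h),
      s v ∈ Tr F X h ∧ ev F a (s v) = v)
    {β : A →ₗ[F] A →ₗ[F] (NA F X ⧸ DD T r S (N + K))}
    (hβ : ∀ v ∈ Submodule.map (ev F a) (Tr F X h), ∀ v' ∈ Submodule.map (ev F a) (Tr F X h),
        β v v' = Submodule.Quotient.mk (mulP F X (s v) (s v')))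
    {w : NA F X} (hw : w ∈ Tr F X (h + 1)) :
    DM (fun x => Submodule.Quotient.mk (tr F (FreeMagma.of x))) β a w =
      Submodule.Quotient.mk w := by
  have key : Tr F X (h + 1) ≤ LinearMap.eqLocus
      (DM (fun x => (Submodule.Quotient.mk (tr F (FreeMagma.of x)) :
        NA F X ⧸ DD T r S (N + K))) β a) (DD T r S (N + K)).mkQ := by
    refine Tr_le fun m hm => ?_
    rw [LinearMap.mem_eqLocus]
    have hDM : DM (fun x => (Submodule.Quotient.mk (tr F (FreeMagma.of x)) :
        NA F X ⧸ DD T r S (N + K))) β a (tr F m) =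
        dm (fun x => (Submodule.Quotient.mk (tr F (FreeMagma.of x)) :
        NA F X ⧸ DD T r S (N + K))) β a m := by
      simp [DM, tr]
    rw [hDM]
    cases m with
    | of x => rfl
    | mul u v =>
      change β (FreeMagma.lift a u) (FreeMagma.lift a v) = Submodule.Quotient.mk (tr F (u * v))
      have hm' : max (height u) (height v) + 1 ≤ h + 1 := hm
      have hu : height u ≤ h := by omega
      have hv : height v ≤ h := by omega
      have mu : FreeMagma.lift a u ∈ Submodule.map (ev F a) (Tr F X h) :=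
        ⟨tr F u, tr_mem_Tr hu, ev_tr a u⟩
      have mv : FreeMagma.lift a v ∈ Submodule.map (ev F a) (Tr F X h) :=
        ⟨tr F v, tr_mem_Tr hv, ev_tr a v⟩
      rw [hβ _ mu _ mv]
      obtain ⟨hu1, hu2⟩ := hs _ mu
      obtain ⟨hv1, hv2⟩ := hs _ mv
      set su := s (FreeMagma.lift a u)
      set sv := s (FreeMagma.lift a v)
      have du : su - tr F u ∈ Cons T r N := by
        have := IH (su - tr F u) (sub_mem hu1 (tr_mem_Tr hu)) (by
          rw [map_sub, hu2, ev_tr, sub_self]; exact zero_mem _)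
        rwa [DD_empty] at this
      have dv : sv - tr F v ∈ Cons T r N := by
        have := IH (sv - tr F v) (sub_mem hv1 (tr_mem_Tr hv)) (by
          rw [map_sub, hv2, ev_tr, sub_self]; exact zero_mem _)
        rwa [DD_empty] at this
      rw [Submodule.Quotient.eq]
      have e : mulP F X su sv - tr F (u * v) =
          mulP F X (su - tr F u) sv + mulP F X (tr F u) (sv - tr F v) := by
        rw [← mulP_tr]
        simp only [map_sub, LinearMap.sub_apply]
        abel
      rw [e]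
      have c1 : mulP F X (su - tr F u) sv ∈ Cons T r (N + 1) := Cons_mulP du (Tr_mono hN hv1)
      have c2 : mulP F X (tr F u) (sv - tr F v) ∈ Cons T r (N + 1) :=
        mulP_Cons (tr_mem_Tr (hu.trans hN)) dv
      exact Cons_le_DD (Cons_mono (by omega) (add_mem c1 c2))
  exact LinearMap.mem_eqLocus.1 (key hw)

/-- **The induction step**, when no member of `S ∪ T` is a variable.

Proof. `exists_section`, `exists_beta`; `exists_delta` for `γ x = [tr (of x)]` and this `β`: the
hypothesis `hT` by the last property of `β` and `StepData.cov` (members of `T` are products), `hr` by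
`DM_eq_mk`, `toP_mem_Tr` and `Gen.rel`. Let `δ` be the result. For `w ∈ Tr F X (h + 1)` we have
`δ (ev w) = [w]`. `δ` vanishes on `SS F A S`: for `τ ∈ S`, `τ = α * β'` and `AS τ` is spanned by
products `u * v`, `u ∈ AS α`, `v ∈ AS β'` (`Submodule.map₂_le`), with `δ (u * v) = β u v = 0`. So
`ev w ∈ SS F A S` gives `[w] = 0`. -/
theorem step_core {a : X → A} (hpres : IsPres F T r a) (hmul : ∀ τ ∈ allSubs T, Multilinear τ)
    {K : ℕ} (hK : ∀ τ ∈ allSubs T, height τ + 1 ≤ K) (hK1 : 1 ≤ K) {h N : ℕ} (hN : h ≤ N)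
    (hr : ∀ p ∈ r, ∀ q ∈ p, height q.2 ≤ h + 1)
    (IH : ∀ S' ⊆ allSubs T, Bd F T r a S' h N)
    {S T1 T2 L1 L2 L3 L4 : Finset (FreeMagma ℕ)} (data : StepData T S T1 T2 L1 L2 L3 L4) :
    Bd F T r a S (h + 1) (N + K) := by
  intro w hw hwS
  obtain ⟨s, hs⟩ := exists_section F a h
  obtain ⟨β, hβ, hβ'⟩ := exists_beta (r := r) hmul hK hK1 hN IH data hs
  have IH0 : Bd F T r a ∅ h N := IH ∅ (Finset.empty_subset _)
  have hDM := fun (w : NA F X) (hw : w ∈ Tr F X (h + 1)) =>
    DM_eq_mk (S := S) hN hK1 IH0 hs hβ hw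
  obtain ⟨δ, hδ, hδ'⟩ := exists_delta hpres
    (fun x => (Submodule.Quotient.mk (tr F (FreeMagma.of x)) : NA F X ⧸ DD T r S (N + K))) β
    (fun t ht => by
      obtain ⟨α, β', rfl, -⟩ := data.cov t (Or.inr ht)
      exact ⟨α, β', rfl, hβ' α β' (Or.inr ht)⟩)
    (fun p hp => by
      rw [hDM _ (toP_mem_Tr p (hr p hp)), Submodule.Quotient.mk_eq_zero]
      exact Cons_le_DD (Gen.mem (Gen.rel hp)))
  have hker : SS F A S ≤ LinearMap.ker δ := by
    refine iSup₂_le fun τ hτ => ?_
    obtain ⟨α, β', rfl, -⟩ := data.cov τ (Or.inl hτ)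
    rw [AS_mul]
    refine Submodule.map₂_le.2 fun u hu v hv => ?_
    rw [LinearMap.mem_ker, LinearMap.mul_apply', hδ']
    exact hβ' α β' (Or.inl hτ) u hu v hv
  have h0 : δ (ev F a w) = 0 := hker hwS
  rw [hδ, hDM w hw, Submodule.Quotient.mk_eq_zero] at h0
  exact h0

/-- **The induction step.**

Proof. If every member of `S ∪ T` is a product: `exists_stepData` and `step_core`. If `of i ∈ S` or
`of i ∈ T` then every `tr m` with `height m ≤ N + K` is in `DD T r S (N + K)` (`tr_mem_DD'` with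
`c = fun _ => m`), and `h + 1 ≤ N + K`. -/
theorem step {a : X → A} (hpres : IsPres F T r a) (hmul : ∀ τ ∈ allSubs T, Multilinear τ)
    (hfork : ∀ f g k : FreeMagma ℕ, IsFork T f → IsFork T g → IsFork T k →
      (Inst f g ∨ Inst g f) ∨ (Inst g k ∨ Inst k g) ∨ (Inst f k ∨ Inst k f))
    {K : ℕ} (hK : ∀ τ ∈ allSubs T, height τ + 1 ≤ K) (hK1 : 1 ≤ K) {h N : ℕ} (hN : h ≤ N)
    (hr : ∀ p ∈ r, ∀ q ∈ p, height q.2 ≤ h + 1)
    (IH : ∀ S' ⊆ allSubs T, Bd F T r a S' h N) :
    ∀ S ⊆ allSubs T, Bd F T r a S (h + 1) (N + K) := by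
  intro S hS
  by_cases hx : ∀ τ, τ ∈ S ∨ τ ∈ T → ∃ α β : FreeMagma ℕ, τ = α * β
  · obtain ⟨T1, T2, L1, L2, L3, L4, data⟩ := exists_stepData hfork hS hx
    exact step_core hpres hmul hK hK1 hN hr IH data
  · push Not at hx
    obtain ⟨τ, hτ, hne⟩ := hx
    cases τ with
    | mul α β => exact absurd rfl (hne α β)
    | of i =>
      intro w hw _
      have : Tr F X (h + 1) ≤ DD T r S (N + K) := by
        refine Tr_le fun m hm => ?_
        exact tr_mem_DD' (c := fun _ => m) hτ fun _ => hm.trans (by omega)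
      exact this hw

/-- **The linear bound for derivations.**

Proof. `K = 1 + ` the maximal height of the members of `allSubs T`; `h₀` a bound for the heights of
the monomials of the relators. `exists_isPres`, `vanishes_iff`, `exists_base` for `h = h₀` (and
`S₀ = allSubs T`) give `A` and `N₀`, and we may take `N₀ ≥ h₀` (`DD_mono`). By induction on `j`,
`step` gives `Bd F T r a S (h₀ + j) (N₀ + K * j)` for all `S ⊆ allSubs T`. Take `c = N₀`. If the
monomials of `w` have height at most `h`, then `toP w ∈ Tr F X (h₀ + h)` and, for `S = ∅`,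
`ev (toP w) = 0` gives `toP w ∈ DD T r ∅ (N₀ + K * h) = Cons T r (N₀ + K * h)`; the converse is
`IsPres.ker`. -/
theorem exists_bound {F X : Type} [Field F] [Finite X] {T : List (FreeMagma ℕ)}
    (hT : ∀ t ∈ T, Multilinear t)
    (hfork : ∀ f g k : FreeMagma ℕ, IsFork T f → IsFork T g → IsFork T k →
      (Inst f g ∨ Inst g f) ∨ (Inst g k ∨ Inst k g) ∨ (Inst f k ∨ Inst k f))
    (r : List (Poly F X)) :
    ∃ c K : ℕ, ∀ (h : ℕ) (w : Poly F X), (∀ q ∈ w, height q.2 ≤ h) →
      (Vanishes F T r w ↔ toP w ∈ Cons T r (c + K * h)) := by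
  have hmul : ∀ τ ∈ allSubs T, Multilinear τ := by
    intro τ hτ
    obtain ⟨t, ht, hs⟩ := mem_allSubs.1 hτ
    exact multilinear_of_mem_subs (hT t ht) hs
  obtain ⟨A, _, _, _, _, a, hpres, hA, ha⟩ := exists_isPres T hT r
  -- bound for the heights of the relators
  obtain ⟨h₀, hh₀⟩ : ∃ h₀, ∀ p ∈ r, ∀ q ∈ p, height q.2 ≤ h₀ := by
    refine ⟨((r.flatMap id).map fun q => height q.2).sum, fun p hp q hq => ?_⟩
    refine List.single_le_sum (by simp) _ (List.mem_map.2 ⟨q, ?_, rfl⟩)
    exact List.mem_flatMap.2 ⟨p, hp, hq⟩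
  let K := 1 + (allSubs T).sup height
  have hK : ∀ τ ∈ allSubs T, height τ + 1 ≤ K := by
    intro τ hτ
    have := Finset.le_sup (f := height) hτ
    omega
  obtain ⟨N₁, hN₁⟩ := exists_base hpres (allSubs T) hmul h₀
  let N₀ := max N₁ h₀
  have hbase : ∀ S ⊆ allSubs T, Bd F T r a S h₀ N₀ := fun S hS w hw hwS =>
    DD_mono (le_max_left _ _) (hN₁ S hS w hw hwS)
  have hstep : ∀ j : ℕ, h₀ + j ≤ N₀ + K * j ∧
      ∀ S ⊆ allSubs T, Bd F T r a S (h₀ + j) (N₀ + K * j) := by
    intro j
    induction j with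
    | zero => exact ⟨le_max_right _ _, hbase⟩
    | succ j ih =>
      have hK1 : 1 ≤ K := by omega
      refine ⟨?_, ?_⟩
      · have := ih.1
        rw [Nat.mul_succ]
        omega
      · have := step hpres hmul hfork hK hK1 ih.1
          (fun p hp q hq => (hh₀ p hp q hq).trans (by omega)) ih.2
        rw [Nat.mul_succ, ← add_assoc, ← add_assoc]
        exact this
  refine ⟨N₀, K, fun h w hw => ?_⟩
  rw [vanishes_iff hpres hA ha]
  constructor
  · intro h0
    have hw' : toP w ∈ Tr F X (h₀ + h) := toP_mem_Tr w fun q hq => (hw q hq).trans (by omega)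
    have := (hstep h).2 ∅ (Finset.empty_subset _) (toP w) hw' (by rw [h0]; exact zero_mem _)
    rwa [DD_empty] at this
  · intro h0
    exact (hpres.ker _).2 ⟨_, h0⟩

end Pool.Agent.W_59b51d_h18
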