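import Pool.Agent.W_59b51d_h18.SChain
import Pool.Agent.W_59b51d_h18.SStep
import Pool.Agent.W_59b51d_h18.SComp

/-!
# The linear bound for derivations, general form
-/

namespace Pool.Agent.W_59b51d_h18

/-- Every finite set of monomials contains an antichain such that every member of the set is above
a member of the antichain. -/
theorem exists_antichain (G : Finset (FreeMagma ℕ)) : ∃ M ⊆ G,
    (∀ f ∈ M, ∀ g ∈ M, Inst f g → f = g) ∧ ∀ τ ∈ G, ∃ σ ∈ M, Inst σ τ := by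
  classical
  induction G using Finset.induction_on with
  | empty => exact ⟨∅, Finset.Subset.refl _, by simp, by simp⟩
  | insert τ G _ ih =>
    obtain ⟨M, hMG, hanti, hcov⟩ := ih
    by_cases hτ : ∃ σ ∈ M, Inst σ τ
    · refine ⟨M, hMG.trans (Finset.subset_insert _ _), hanti, fun ρ hρ => ?_⟩
      rcases Finset.mem_insert.1 hρ with rfl | hρ
      · exact hτ
      · exact hcov ρ hρ
    · push Not at hτ
      refine ⟨insert τ (M.filter fun σ => ¬ Inst τ σ), ?_, ?_, ?_⟩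
      · intro ρ hρ
        rcases Finset.mem_insert.1 hρ with rfl | hρ
        · exact Finset.mem_insert_self _ _
        · exact Finset.mem_insert_of_mem (hMG (Finset.mem_filter.1 hρ).1)
      · intro f hf g hg hfg
        rcases Finset.mem_insert.1 hf with rfl | hf
        · rcases Finset.mem_insert.1 hg with rfl | hg
          · rfl
          · exact absurd hfg (Finset.mem_filter.1 hg).2
        · rcases Finset.mem_insert.1 hg with rfl | hg
          · exact absurd hfg (hτ f (Finset.mem_filter.1 hf).1)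
          · exact hanti f (Finset.mem_filter.1 hf).1 g (Finset.mem_filter.1 hg).1 hfg
      · intro ρ hρ
        rcases Finset.mem_insert.1 hρ with rfl | hρ
        · exact ⟨ρ, Finset.mem_insert_self _ _, Inst.refl _⟩
        · obtain ⟨σ, hσ, hσρ⟩ := hcov ρ hρ
          by_cases h : Inst τ σ
          · exact ⟨τ, Finset.mem_insert_self _ _, h.trans hσρ⟩
          · exact ⟨σ, Finset.mem_insert_of_mem (Finset.mem_filter.2 ⟨hσ, h⟩), hσρ⟩

/-- The pair of the factors. -/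
def factors : FreeMagma ℕ → FreeMagma ℕ × FreeMagma ℕ
  | .of i => (.of i, .of i)
  | .mul α β => (α, β)

/-- Existence of the data of the induction step, with an antichain of forks. -/
theorem exists_forkData {T : List (FreeMagma ℕ)} {S : Finset (FreeMagma ℕ)} (hS : S ⊆ allSubs T)
    (hx : ∀ τ, τ ∈ S ∨ τ ∈ T → ∃ α β : FreeMagma ℕ, τ = α * β) :
    ∃ (T1 T2 M : Finset (FreeMagma ℕ)), ForkData T S T1 T2 (M.image factors) ∧
      (∀ f ∈ M, IsFork T f) ∧ ∀ f ∈ M, ∀ g ∈ M, Inst f g → f = g := by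
  classical
  have hM : ∀ τ, τ ∈ S ∨ τ ∈ T → τ ∈ allSubs T := by
    rintro τ (h | h)
    · exact hS h
    · exact mem_allSubs_self h
  let T1 := (allSubs T).filter fun α => ∃ i : ℕ, α * .of i ∈ S ∨ α * .of i ∈ T
  let T2 := (allSubs T).filter fun β => ∃ i : ℕ, .of i * β ∈ S ∨ .of i * β ∈ T
  let G := (allSubs T).filter fun τ => (τ ∈ S ∨ τ ∈ T) ∧ IsFork T τ
  obtain ⟨M, hMG, hanti, hcov⟩ := exists_antichain G
  have hMG' : ∀ f ∈ M, (f ∈ S ∨ f ∈ T) ∧ IsFork T f := fun f hf =>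
    (Finset.mem_filter.1 (hMG hf)).2
  refine ⟨T1, T2, M, ⟨⟨Finset.filter_subset _ _, Finset.filter_subset _ _⟩, hM, ?_, ?_, ?_, ?_⟩,
    fun f hf => (hMG' f hf).2, hanti⟩
  · exact fun α hα => (Finset.mem_filter.1 hα).2
  · exact fun β hβ => (Finset.mem_filter.1 hβ).2
  · intro p hp
    obtain ⟨f, hf, rfl⟩ := Finset.mem_image.1 hp
    obtain ⟨hf1, -, a, b, c, d, rfl⟩ := hMG' f hf
    exact hf1
  · intro τ hτ
    obtain ⟨α, β, rfl⟩ := hx τ hτ
    refine ⟨α, β, rfl, ?_⟩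
    have hmem := factors_mem_allSubs (hM _ hτ)
    cases β with
    | of i => exact Or.inl (Finset.mem_filter.2 ⟨hmem.1, i, hτ⟩)
    | mul c d =>
      cases α with
      | of i => exact Or.inr (Or.inl (Finset.mem_filter.2 ⟨hmem.2, i, hτ⟩))
      | mul a b =>
        right; right
        have hfork : IsFork T ((a * b) * (c * d)) := ⟨mem_allSubs.1 (hM _ hτ), a, b, c, d, rfl⟩
        obtain ⟨σ, hσ, hi⟩ := hcov _ (Finset.mem_filter.2 ⟨hM _ hτ, hτ, hfork⟩)
        obtain ⟨-, -, a', b', c', d', rfl⟩ := hMG' σ hσ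
        exact ⟨factors ((a' * b') * (c' * d')), Finset.mem_image.2 ⟨_, hσ, rfl⟩, hi.factors.1,
          hi.factors.2⟩

/-- If there are at most two pairs the data are data in the sense of `StepData`. -/
theorem ForkData.stepData {T : List (FreeMagma ℕ)} {S T1 T2 : Finset (FreeMagma ℕ)}
    {M : Finset (FreeMagma ℕ × FreeMagma ℕ)} (data : ForkData T S T1 T2 M) (hM : M.card ≤ 2) :
    ∃ L1 L2 L3 L4 : Finset (FreeMagma ℕ), StepData T S T1 T2 L1 L2 L3 L4 := by
  classical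
  have hmem : ∀ p ∈ M, p.1 ∈ allSubs T ∧ p.2 ∈ allSubs T := fun p hp =>
    factors_mem_allSubs (data.sub' _ (data.mem p hp))
  obtain ⟨M1, M2, hM12, hc1, hc2⟩ : ∃ M1 M2 : Finset (FreeMagma ℕ × FreeMagma ℕ),
      M = M1 ∪ M2 ∧ M1.card ≤ 1 ∧ M2.card ≤ 1 := by
    rcases M.eq_empty_or_nonempty with rfl | ⟨p, hp⟩
    · exact ⟨∅, ∅, by simp, by simp, by simp⟩
    · refine ⟨{p}, M.erase p, ?_, by simp, ?_⟩
      · rw [← Finset.insert_eq, Finset.insert_erase hp]
      · rw [Finset.card_erase_of_mem hp]; omega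
  have h1 : ∀ p ∈ M1, ∀ q ∈ M1, p = q := fun p hp q hq => Finset.card_le_one.1 hc1 p hp q hq
  have h2 : ∀ p ∈ M2, ∀ q ∈ M2, p = q := fun p hp q hq => Finset.card_le_one.1 hc2 p hp q hq
  have s1 : ∀ p ∈ M1, p ∈ M := fun p hp => by rw [hM12]; exact Finset.mem_union_left _ hp
  have s2 : ∀ p ∈ M2, p ∈ M := fun p hp => by rw [hM12]; exact Finset.mem_union_right _ hp
  refine ⟨M1.image Prod.fst, M1.image Prod.snd, M2.image Prod.fst, M2.image Prod.snd,
    ⟨⟨data.sub.1, data.sub.2, ?_, ?_, ?_, ?_⟩, data.sub', data.t1, data.t2, ?_, ?_, ?_⟩⟩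
  · intro α hα
    obtain ⟨p, hp, rfl⟩ := Finset.mem_image.1 hα
    exact (hmem p (s1 p hp)).1
  · intro α hα
    obtain ⟨p, hp, rfl⟩ := Finset.mem_image.1 hα
    exact (hmem p (s1 p hp)).2
  · intro α hα
    obtain ⟨p, hp, rfl⟩ := Finset.mem_image.1 hα
    exact (hmem p (s2 p hp)).1
  · intro α hα
    obtain ⟨p, hp, rfl⟩ := Finset.mem_image.1 hα
    exact (hmem p (s2 p hp)).2
  · intro α hα β hβ
    obtain ⟨p, hp, rfl⟩ := Finset.mem_image.1 hα
    obtain ⟨q, hq, rfl⟩ := Finset.mem_image.1 hβ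
    rw [h1 q hq p hp]
    exact data.mem p (s1 p hp)
  · intro α hα β hβ
    obtain ⟨p, hp, rfl⟩ := Finset.mem_image.1 hα
    obtain ⟨q, hq, rfl⟩ := Finset.mem_image.1 hβ
    rw [h2 q hq p hp]
    exact data.mem p (s2 p hp)
  · intro τ hτ
    obtain ⟨α, β, e, h | h | ⟨p, hp, hi, hi'⟩⟩ := data.cov τ hτ
    · exact ⟨α, β, e, Or.inl h⟩
    · exact ⟨α, β, e, Or.inr (Or.inl h)⟩
    · refine ⟨α, β, e, Or.inr (Or.inr ?_)⟩
      rw [hM12] at hp
      rcases Finset.mem_union.1 hp with hp | hp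
      · exact Or.inl ⟨p.1, Finset.mem_image.2 ⟨p, hp, rfl⟩, p.2, Finset.mem_image.2 ⟨p, hp, rfl⟩,
          hi, hi'⟩
      · exact Or.inr ⟨p.1, Finset.mem_image.2 ⟨p, hp, rfl⟩, p.2, Finset.mem_image.2 ⟨p, hp, rfl⟩,
          hi, hi'⟩

/-- A variable is below everything. -/
theorem Inst.of_var (i : ℕ) (t : FreeMagma ℕ) : Inst (.of i) t := ⟨fun _ => t, rfl⟩

/-- The sets of right factors which go with the left factors are nested. -/
theorem nested_of_forkCondition {T : List (FreeMagma ℕ)} (hfork : ForkCondition T)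
    {S T1 T2 M : Finset (FreeMagma ℕ)} (hx : ∀ τ, τ ∈ S ∨ τ ∈ T → ∃ α β : FreeMagma ℕ, τ = α * β)
    (data : ForkData T S T1 T2 (M.image factors))
    (hM : ∀ f ∈ M, IsFork T f) (hanti : ∀ f ∈ M, ∀ g ∈ M, Inst f g → f = g) (h3 : ¬ M.card ≤ 2) :
    ∃ J : FreeMagma ℕ × FreeMagma ℕ → Finset (FreeMagma ℕ),
      (∀ p ∈ M.image factors, ∀ β ∈ J p, β ∈ allSubs T ∧ ∃ α' β' : FreeMagma ℕ,
        (α' * β' ∈ S ∨ α' * β' ∈ T) ∧ Inst α' p.1 ∧ Inst β' β) ∧
      (∀ p ∈ M.image factors, p.2 ∈ J p) ∧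
      ∀ p ∈ M.image factors, ∀ q ∈ M.image factors, J p ⊆ J q ∨ J q ⊆ J p := by
  classical
  let R : FreeMagma ℕ → FreeMagma ℕ → Prop := fun α β => ∃ α' β' : FreeMagma ℕ,
    (α' * β' ∈ S ∨ α' * β' ∈ T) ∧ Inst α' α ∧ Inst β' β
  let J : FreeMagma ℕ × FreeMagma ℕ → Finset (FreeMagma ℕ) := fun p =>
    ((M.image factors).image Prod.snd).filter fun β => R p.1 β
  have hmem : ∀ p ∈ M.image factors, p.1 ∈ allSubs T ∧ p.2 ∈ allSubs T := fun p hp =>
    factors_mem_allSubs (data.sub' _ (data.mem p hp))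
  have hprod : ∀ p ∈ M.image factors, p.1 * p.2 ∈ M := by
    intro p hp
    obtain ⟨f, hf, rfl⟩ := Finset.mem_image.1 hp
    obtain ⟨-, a, b, c, d, rfl⟩ := hM f hf
    exact hf
  refine ⟨J, ?_, ?_, ?_⟩
  · intro p _ β hβ
    obtain ⟨hβ1, hβ2⟩ := Finset.mem_filter.1 hβ
    obtain ⟨q, hq, rfl⟩ := Finset.mem_image.1 hβ1
    exact ⟨(hmem q hq).2, hβ2⟩
  · intro p hp
    exact Finset.mem_filter.2 ⟨Finset.mem_image.2 ⟨p, hp, rfl⟩, p.1, p.2, data.mem p hp,
      Inst.refl _, Inst.refl _⟩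
  · intro p _ q _
    by_contra hcon
    push Not at hcon
    obtain ⟨h1, h2⟩ := hcon
    obtain ⟨β, hβ, hβq⟩ := Finset.not_subset.1 h1
    obtain ⟨δ, hδ, hδp⟩ := Finset.not_subset.1 h2
    obtain ⟨hβM, α', β', hτ, hi1, hi2⟩ := Finset.mem_filter.1 hβ
    obtain ⟨hδM, γ', δ', hτ', hi3, hi4⟩ := Finset.mem_filter.1 hδ
    have nβ : ¬ R q.1 β := fun h => hβq (Finset.mem_filter.2 ⟨hβM, h⟩)
    have nδ : ¬ R p.1 δ := fun h => hδp (Finset.mem_filter.2 ⟨hδM, h⟩)
    -- replace the two members of `S ∪ T` by members of `M`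
    have key : ∀ α' β' : FreeMagma ℕ, (α' * β' ∈ S ∨ α' * β' ∈ T) →
        (∃ i : ℕ, α' * .of i ∈ S ∨ α' * .of i ∈ T) ∨ (∃ i : ℕ, .of i * β' ∈ S ∨ .of i * β' ∈ T) ∨
        ∃ p ∈ M.image factors, Inst p.1 α' ∧ Inst p.2 β' := by
      intro α' β' h
      obtain ⟨α₁, β₁, heq, hc⟩ := data.cov _ h
      have h12 : α' = α₁ ∧ β' = β₁ := by
        injection heq with h1 h2
        exact ⟨h1, h2⟩
      obtain ⟨rfl, rfl⟩ := h12
      rcases hc with hc | hc | hc
      · exact Or.inl (data.t1 _ hc)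
      · exact Or.inr (Or.inl (data.t2 _ hc))
      · exact Or.inr (Or.inr hc)
    rcases key α' β' hτ with ⟨i, hi⟩ | ⟨i, hi⟩ | ⟨p', hp', hj1, hj2⟩
    · exact nδ ⟨α', .of i, hi, hi1, Inst.of_var i δ⟩
    · exact nβ ⟨.of i, β', hi, Inst.of_var i q.1, hi2⟩
    rcases key γ' δ' hτ' with ⟨i, hi⟩ | ⟨i, hi⟩ | ⟨q', hq', hj3, hj4⟩
    · exact nβ ⟨γ', .of i, hi, hi3, Inst.of_var i β⟩
    · exact nδ ⟨.of i, δ', hi, Inst.of_var i p.1, hi4⟩
    have k1 : Inst p'.1 p.1 := hj1.trans hi1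
    have k2 : Inst p'.2 β := hj2.trans hi2
    have k3 : Inst q'.1 q.1 := hj3.trans hi3
    have k4 : Inst q'.2 δ := hj4.trans hi4
    have hp'M := hprod p' hp'
    have hq'M := hprod q' hq'
    have hpS := data.mem p' hp'
    have hqS := data.mem q' hq'
    -- the two members of `M` are different, and there is a third one
    have hne : p'.1 * p'.2 ≠ q'.1 * q'.2 := by
      intro h
      injection h with h1 h2
      exact nβ ⟨p'.1, p'.2, hpS, h1 ▸ k3, k2⟩
    obtain ⟨k, hk, hkp, hkq⟩ : ∃ k ∈ M, k ≠ p'.1 * p'.2 ∧ k ≠ q'.1 * q'.2 := by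
      by_contra hno
      push Not at hno
      refine h3 ((Finset.card_le_card (t := {p'.1 * p'.2, q'.1 * q'.2}) ?_).trans
        Finset.card_le_two)
      intro k hk
      rw [Finset.mem_insert, Finset.mem_singleton]
      by_cases h : k = p'.1 * p'.2
      · exact Or.inl h
      · exact Or.inr (hno k hk h)
    rcases hfork p'.1 p'.2 q'.1 q'.2 k (hM _ hp'M) (hM _ hq'M) (hM _ hk)
      (fun h => hne (hanti _ hp'M _ hq'M h)) (fun h => hne (hanti _ hq'M _ hp'M h).symm)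
      (fun h => hkp (hanti _ hp'M _ hk h).symm) (fun h => hkp (hanti _ hk _ hp'M h))
      (fun h => hkq (hanti _ hq'M _ hk h).symm) (fun h => hkq (hanti _ hk _ hq'M h))
      with (h | h) | (h | h) | ⟨t, ht, h | h⟩
    · exact nβ ⟨p'.1, p'.2, hpS, h.trans k3, k2⟩
    · exact nδ ⟨q'.1, q'.2, hqS, h.trans k1, k4⟩
    · exact nδ ⟨p'.1, p'.2, hpS, k1, h.trans k4⟩
    · exact nβ ⟨q'.1, q'.2, hqS, k3, h.trans k2⟩
    · obtain ⟨tl, tr', rfl⟩ := hx t (Or.inr ht)
      exact nδ ⟨tl, tr', Or.inr ht, h.factors.1.trans k1, h.factors.2.trans k4⟩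
    · obtain ⟨tl, tr', rfl⟩ := hx t (Or.inr ht)
      exact nβ ⟨tl, tr', Or.inr ht, h.factors.1.trans k3, h.factors.2.trans k2⟩

section Algebra

variable {F : Type} [Field F] {X A : Type} [NonUnitalNonAssocRing A] [Module F A]
  [IsScalarTower F A A] [SMulCommClass F A A] {T : List (FreeMagma ℕ)} {r : List (Poly F X)}

/-- The induction step from the bilinear map. -/
theorem step_of_beta {a : X → A} (hpres : IsPres F T r a) {K : ℕ} (hK1 : 1 ≤ K) {h N : ℕ}
    (hN : h ≤ N) (hr : ∀ p ∈ r, ∀ q ∈ p, height q.2 ≤ h + 1)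
    (IH : ∀ S' ⊆ allSubs T, Bd F T r a S' h N) {S : Finset (FreeMagma ℕ)}
    (hx : ∀ τ, τ ∈ S ∨ τ ∈ T → ∃ α β : FreeMagma ℕ, τ = α * β)
    (hbeta : ∀ s : A →ₗ[F] NA F X, (∀ v ∈ Submodule.map (ev F a) (Tr F X h),
        s v ∈ Tr F X h ∧ ev F a (s v) = v) →
      ∃ β : A →ₗ[F] A →ₗ[F] (NA F X ⧸ DD T r S (N + K)),
      (∀ v ∈ Submodule.map (ev F a) (Tr F X h), ∀ v' ∈ Submodule.map (ev F a) (Tr F X h),
        β v v' = Submodule.Quotient.mk (mulP F X (s v) (s v'))) ∧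
      ∀ α β' : FreeMagma ℕ, α * β' ∈ S ∨ α * β' ∈ T →
        ∀ u ∈ AS F A α, ∀ v ∈ AS F A β', β u v = 0) :
    Bd F T r a S (h + 1) (N + K) := by
  intro w hw hwS
  obtain ⟨s, hs⟩ := exists_section F a h
  obtain ⟨β, hβ, hβ'⟩ := hbeta s hs
  have IH0 : Bd F T r a ∅ h N := IH ∅ (Finset.empty_subset _)
  have hDM := fun (w : NA F X) (hw : w ∈ Tr F X (h + 1)) =>
    DM_eq_mk (S := S) hN hK1 IH0 hs hβ hw
  obtain ⟨δ, hδ, hδ'⟩ := exists_delta hpres
    (fun x => (Submodule.Quotient.mk (tr F (FreeMagma.of x)) : NA F X ⧸ DD T r S (N + K))) β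
    (fun t ht => by
      obtain ⟨α, β', rfl⟩ := hx t (Or.inr ht)
      exact ⟨α, β', rfl, hβ' α β' (Or.inr ht)⟩)
    (fun p hp => by
      rw [hDM _ (toP_mem_Tr p (hr p hp)), Submodule.Quotient.mk_eq_zero]
      exact Cons_le_DD (Gen.mem (Gen.rel hp)))
  have hker : SS F A S ≤ LinearMap.ker δ := by
    refine iSup₂_le fun τ hτ => ?_
    obtain ⟨α, β', rfl⟩ := hx τ (Or.inl hτ)
    rw [AS_mul]
    refine Submodule.map₂_le.2 fun u hu v hv => ?_
    rw [LinearMap.mem_ker, LinearMap.mul_apply', hδ']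
    exact hβ' α β' (Or.inl hτ) u hu v hv
  have h0 : δ (ev F a w) = 0 := hker hwS
  rw [hδ, hDM w hw, Submodule.Quotient.mk_eq_zero] at h0
  exact h0

/-- **The induction step**, general form. -/
theorem step' {a : X → A} (hpres : IsPres F T r a) (hmul : ∀ τ ∈ allSubs T, Multilinear τ)
    (hfork : ForkCondition T)
    {K : ℕ} (hK : ∀ τ ∈ allSubs T, height τ + 1 ≤ K) (hK1 : 1 ≤ K) {h N : ℕ} (hN : h ≤ N)
    (hr : ∀ p ∈ r, ∀ q ∈ p, height q.2 ≤ h + 1)
    (IH : ∀ S' ⊆ allSubs T, Bd F T r a S' h N) :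
    ∀ S ⊆ allSubs T, Bd F T r a S (h + 1) (N + K) := by
  classical
  intro S hS
  by_cases hx : ∀ τ, τ ∈ S ∨ τ ∈ T → ∃ α β : FreeMagma ℕ, τ = α * β
  · obtain ⟨T1, T2, M, data, hM, hanti⟩ := exists_forkData hS hx
    by_cases h2 : M.card ≤ 2
    · obtain ⟨L1, L2, L3, L4, data'⟩ := data.stepData (Finset.card_image_le.trans h2)
      exact step_core hpres hmul hK hK1 hN hr IH data'
    · obtain ⟨J, hJ, hself, hch⟩ := nested_of_forkCondition hfork hx data hM hanti h2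
      exact step_of_beta hpres hK1 hN hr IH hx fun s hs =>
        exists_beta_nested hmul hK hK1 hN IH data J hJ hself hch hs
  · push Not at hx
    obtain ⟨τ, hτ, hne⟩ := hx
    cases τ with
    | mul α β => exact absurd rfl (hne α β)
    | of i =>
      intro w hw _
      have : Tr F X (h + 1) ≤ DD T r S (N + K) := by
        refine Tr_le fun m hm => ?_
        exact tr_mem_DD' (c := fun _ => m) hτ fun _ => hm.trans (by omega)
      exact this hw

end Algebra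

/-- **The linear bound for derivations**, general form. -/
theorem exists_bound' {F X : Type} [Field F] [Finite X] {T : List (FreeMagma ℕ)}
    (hT : ∀ t ∈ T, Multilinear t) (hfork : ForkCondition T) (r : List (Poly F X)) :
    ∃ c K : ℕ, ∀ (h : ℕ) (w : Poly F X), (∀ q ∈ w, height q.2 ≤ h) →
      (Vanishes F T r w ↔ toP w ∈ Cons T r (c + K * h)) := by
  have hmul : ∀ τ ∈ allSubs T, Multilinear τ := by
    intro τ hτ
    obtain ⟨t, ht, hs⟩ := mem_allSubs.1 hτ
    exact multilinear_of_mem_subs (hT t ht) hs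
  obtain ⟨A, _, _, _, _, a, hpres, hA, ha⟩ := exists_isPres T hT r
  -- bound for the heights of the relators
  obtain ⟨h₀, hh₀⟩ : ∃ h₀, ∀ p ∈ r, ∀ q ∈ p, height q.2 ≤ h₀ := by
    refine ⟨((r.flatMap id).map fun q => height q.2).sum, fun p hp q hq => ?_⟩
    refine List.single_le_sum (by simp) _ (List.mem_map.2 ⟨q, ?_, rfl⟩)
    exact List.mem_flatMap.2 ⟨p, hp, hq⟩
  let K := 1 + (allSubs T).sup height
  have hK : ∀ τ ∈ allSubs T, height τ + 1 ≤ K := by
    intro τ hτ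
    have := Finset.le_sup (f := height) hτ
    omega
  obtain ⟨N₁, hN₁⟩ := exists_base hpres (allSubs T) hmul h₀
  let N₀ := max N₁ h₀
  have hbase : ∀ S ⊆ allSubs T, Bd F T r a S h₀ N₀ := fun S hS w hw hwS =>
    DD_mono (le_max_left _ _) (hN₁ S hS w hw hwS)
  have hstep : ∀ j : ℕ, h₀ + j ≤ N₀ + K * j ∧
      ∀ S ⊆ allSubs T, Bd F T r a S (h₀ + j) (N₀ + K * j) := by
    intro j
    induction j with
    | zero => exact ⟨le_max_right _ _, hbase⟩
    | succ j ih =>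
      have hK1 : 1 ≤ K := by omega
      refine ⟨?_, ?_⟩
      · have := ih.1
        rw [Nat.mul_succ]
        omega
      · have := step' hpres hmul hfork hK hK1 ih.1
          (fun p hp q hq => (hh₀ p hp q hq).trans (by omega)) ih.2
        rw [Nat.mul_succ, ← add_assoc, ← add_assoc]
        exact this
  refine ⟨N₀, K, fun h w hw => ?_⟩
  rw [vanishes_iff hpres hA ha]
  constructor
  · intro h0
    have hw' : toP w ∈ Tr F X (h₀ + h) := toP_mem_Tr w fun q hq => (hw q hq).trans (by omega)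
    have := (hstep h).2 ∅ (Finset.empty_subset _) (toP w) hw' (by rw [h0]; exact zero_mem _)
    rwa [DD_empty] at this
  · intro h0
    exact (hpres.ker _).2 ⟨_, h0⟩

/-- Solvability of the word problem under the fork condition. -/
theorem solvable_of_forkCondition (T : List (FreeMagma ℕ)) (hT : ∀ t ∈ T, Multilinear t)
    (hfork : ForkCondition T) (F : Type) [Field F] [Primcodable F]
    (hadd : Computable₂ fun a b : F => a + b) (hmul : Computable₂ fun a b : F => a * b) (n : ℕ)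
    (r : List (Poly F (Fin n))) : Solvable F T r := by
  obtain ⟨c, K, h⟩ := exists_bound' (F := F) hT hfork r
  exact solvable_of_bound hadd hmul T hT r c K h

end Pool.Agent.W_59b51d_h18
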