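import Pool.Agent.W_59b51d_h18.SBasic

/-!
# Deciding membership in the span of finitely many vectors over a computable field
-/

namespace Pool.Agent.W_59b51d_h18

section General

variable {α β σ : Type} [Primcodable α] [Primcodable β] [Primcodable σ]

theorem SComp1_foldl_aux {β σ : Type} (l : List β) (s : σ) (h : σ → β → σ) (n : ℕ) :
    Nat.rec (motive := fun _ => σ) s (fun i s => Option.casesOn (motive := fun _ => σ) (l[i]?) s
      (fun b => h s b)) n = (l.take n).foldl h s := by
  induction n with
  | zero => simp
  | succ n ih =>
    rw [List.take_add_one, List.foldl_append, ← ih]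
    cases hb : l[n]? with
    | none => simp [hb]
    | some b => simp [hb]

/-- Folding a list with a computable function. -/
theorem SComp1_foldl {f : α → List β} {g : α → σ} {h : α → σ × β → σ}
    (hf : Computable f) (hg : Computable g) (hh : Computable₂ h) :
    Computable fun a => (f a).foldl (fun s b => h a (s, b)) (g a) := by
  have h1 : Computable₂ fun (a : α) (p : ℕ × σ) =>
      Option.casesOn (motive := fun _ => σ) ((f a)[p.1]?) p.2 (fun b => h a (p.2, b)) := by
    refine Computable.option_casesOn (o := fun q : α × (ℕ × σ) => (f q.1)[q.2.1]?)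
      (f := fun q : α × (ℕ × σ) => q.2.2)
      (g := fun (q : α × (ℕ × σ)) (b : β) => h q.1 (q.2.2, b)) ?_ ?_ ?_
    · exact Computable.list_getElem?.comp (hf.comp Computable.fst)
        (Computable.fst.comp Computable.snd)
    · exact Computable.snd.comp Computable.snd
    · exact (hh.comp (Computable.fst.comp Computable.fst)
        ((Computable.snd.comp (Computable.snd.comp Computable.fst)).pair Computable.snd)).to₂
  refine (Computable.nat_rec (Computable.list_length.comp hf) hg h1).of_eq fun a => ?_
  have h2 := SComp1_foldl_aux (f a) (g a) (fun s b => h a (s, b)) (f a).length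
  rw [List.take_length] at h2
  exact h2

/-- The projection of a computable relation is recursively enumerable. -/
theorem SComp1_re {c : α → β → Bool} (hc : Computable₂ c) :
    REPred fun a => ∃ b, c a b = true := by
  have h1 : Computable₂ fun (a : α) (n : ℕ) =>
      Option.casesOn (motive := fun _ => Bool) (Encodable.decode (α := β) n) false
        (fun b => c a b) := by
    refine Computable.option_casesOn (o := fun q : α × ℕ => (Encodable.decode (α := β) q.2))
      (f := fun _ : α × ℕ => false) (g := fun (q : α × ℕ) (b : β) => c q.1 b) ?_ ?_ ?_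
    · exact Computable.decode.comp Computable.snd
    · exact Computable.const _
    · exact (hc.comp (Computable.fst.comp Computable.fst) Computable.snd).to₂
  have h2 := Partrec.rfind h1.partrec₂
  refine (h2.dom_re).of_eq fun a => ?_
  rw [Nat.rfind_dom]
  constructor
  · rintro ⟨n, hn, _⟩
    have hn' : true = Option.casesOn (motive := fun _ => Bool) (Encodable.decode (α := β) n) false
        (fun b => c a b) := Part.mem_some_iff.1 hn
    cases hb : (Encodable.decode (α := β) n) with
    | none => simp [hb] at hn'
    | some b => exact ⟨b, by simpa [hb] using hn'.symm⟩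
  · rintro ⟨b, hb⟩
    refine ⟨Encodable.encode b, ?_, ?_⟩
    · simp [hb]
    · intro m _
      trivial

end General

section Span

variable {F : Type} [Field F]

/-- The vector given by a list of pairs (coefficient, index). -/
noncomputable def vec (L : List (F × ℕ)) : ℕ →₀ F := (L.map fun q => Finsupp.single q.2 q.1).sum

theorem vec_nil : vec ([] : List (F × ℕ)) = 0 := rfl

theorem vec_cons (q : F × ℕ) (L : List (F × ℕ)) :
    vec (q :: L) = Finsupp.single q.2 q.1 + vec L := by simp [vec]

theorem vec_append (L L' : List (F × ℕ)) : vec (L ++ L') = vec L + vec L' := by simp [vec]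

theorem vec_smul (c : F) (L : List (F × ℕ)) :
    vec (L.map fun q => (c * q.1, q.2)) = c • vec L := by
  induction L with
  | nil => simp [vec]
  | cons q L ih => simp [vec_cons, ih, smul_add]

open Classical in
/-- A coefficient of the vector of `L`. -/
noncomputable def cf (k : ℕ) (L : List (F × ℕ)) : F :=
  L.foldl (fun s q => s + (if q.2 = k then q.1 else 0)) 0

/-- The value of the functional `φ` at the vector of `L`. -/
noncomputable def dot (φ : List F) (L : List (F × ℕ)) : F :=
  L.foldl (fun s q => s + q.1 * φ.getD q.2 0) 0

theorem SComp1_foldl_add {β M : Type} [AddCommMonoid M] (g : β → M) (L : List β) (s : M) :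
    L.foldl (fun s q => s + g q) s = s + (L.map g).sum := by
  induction L generalizing s with
  | nil => simp
  | cons q L ih => rw [List.foldl_cons, ih, List.map_cons, List.sum_cons, add_assoc]

theorem cf_eq (k : ℕ) (L : List (F × ℕ)) : cf k L = vec L k := by
  unfold cf
  rw [SComp1_foldl_add (fun q : F × ℕ => if q.2 = k then q.1 else 0), zero_add]
  induction L with
  | nil => simp [vec_nil]
  | cons q L ih => rw [List.map_cons, List.sum_cons, ih, vec_cons, Finsupp.add_apply,
      Finsupp.single_apply]

theorem dot_eq (φ : List F) (L : List (F × ℕ)) :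
    dot φ L = Finsupp.linearCombination F (fun k => φ.getD k 0) (vec L) := by
  unfold dot
  rw [SComp1_foldl_add (fun q : F × ℕ => q.1 * φ.getD q.2 0), zero_add]
  induction L with
  | nil => simp [vec_nil]
  | cons q L ih => rw [List.map_cons, List.sum_cons, ih, vec_cons, map_add,
      Finsupp.linearCombination_single, smul_eq_mul]

theorem SComp1_all {β : Type} (p : β → Bool) (L : List β) (s : Bool) :
    L.foldl (fun s q => s && p q) s = (s && L.all p) := by
  induction L generalizing s with
  | nil => simp
  | cons q L ih => rw [List.foldl_cons, ih, List.all_cons, Bool.and_assoc]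

open Classical in
/-- Equality of the vectors of two lists. -/
noncomputable def eqv (L L' : List (F × ℕ)) : Bool :=
  (L ++ L').all fun q => decide (cf q.2 L = cf q.2 L')

theorem vec_eq_zero_of (k : ℕ) (L : List (F × ℕ)) (h : ∀ q ∈ L, q.2 ≠ k) : vec L k = 0 := by
  induction L with
  | nil => simp [vec_nil]
  | cons q L ih =>
    rw [vec_cons, Finsupp.add_apply, ih fun q' hq' => h q' (List.mem_cons_of_mem _ hq'),
      add_zero, Finsupp.single_apply, if_neg (h q List.mem_cons_self)]

theorem eqv_iff (L L' : List (F × ℕ)) : eqv L L' = true ↔ vec L = vec L' := by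
  classical
  unfold eqv
  rw [List.all_eq_true]
  constructor
  · intro h
    ext k
    by_cases hk : ∃ q ∈ L ++ L', q.2 = k
    · obtain ⟨q, hq, rfl⟩ := hk
      have h1 := h q hq
      rw [decide_eq_true_eq, cf_eq, cf_eq] at h1
      exact h1
    · push Not at hk
      rw [vec_eq_zero_of k L fun q hq => hk q (List.mem_append_left _ hq),
        vec_eq_zero_of k L' fun q hq => hk q (List.mem_append_right _ hq)]
  · intro h q _
    rw [decide_eq_true_eq, cf_eq, cf_eq, h]

/-- The linear combination of the members of `G` with coefficients and indices given by `D`. -/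
noncomputable def comb (D : List (F × ℕ)) (G : List (List (F × ℕ))) : List (F × ℕ) :=
  D.foldl (fun s d => s ++ (G.getD d.2 []).foldl (fun s' q => s' ++ [(d.1 * q.1, q.2)]) []) []

theorem SComp1_map {β γ : Type} (g : β → γ) (L : List β) (s : List γ) :
    L.foldl (fun s q => s ++ [g q]) s = s ++ L.map g := by
  induction L generalizing s with
  | nil => simp
  | cons q L ih => rw [List.foldl_cons, ih, List.map_cons, List.append_assoc, List.singleton_append]

theorem vec_comb_aux (D : List (F × ℕ)) (G : List (List (F × ℕ))) (s : List (F × ℕ)) :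
    vec (D.foldl (fun s d =>
      s ++ (G.getD d.2 []).foldl (fun s' q => s' ++ [(d.1 * q.1, q.2)]) []) s) =
      vec s + (D.map fun d => d.1 • vec (G.getD d.2 [])).sum := by
  induction D generalizing s with
  | nil => simp
  | cons d D ih =>
    rw [List.foldl_cons, ih, vec_append, List.map_cons, List.sum_cons,
      SComp1_map (fun q : F × ℕ => (d.1 * q.1, q.2)), List.nil_append, vec_smul, add_assoc]

theorem vec_comb (D : List (F × ℕ)) (G : List (List (F × ℕ))) :
    vec (comb D G) = (D.map fun d => d.1 • vec (G.getD d.2 [])).sum := by
  rw [comb, vec_comb_aux, vec_nil, zero_add]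

/-- The span of the vectors of the members of `G`. -/
noncomputable def spn (G : List (List (F × ℕ))) : Submodule F (ℕ →₀ F) :=
  Submodule.span F {v | ∃ g ∈ G, v = vec g}

theorem mem_spn_iff (G : List (List (F × ℕ))) (v : ℕ →₀ F) :
    v ∈ spn G ↔ ∃ D : List (F × ℕ), vec (comb D G) = v := by
  constructor
  · intro h
    induction h using Submodule.span_induction with
    | mem x hx =>
      obtain ⟨g, hg, rfl⟩ := hx
      obtain ⟨i, hi, hgi⟩ := List.getElem_of_mem hg
      refine ⟨[(1, i)], ?_⟩
      rw [vec_comb]
      simp [List.getD_eq_getElem?_getD, hi, hgi]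
    | zero => exact ⟨[], by rw [vec_comb]; simp⟩
    | add x y _ _ hx hy =>
      obtain ⟨D, rfl⟩ := hx
      obtain ⟨D', rfl⟩ := hy
      refine ⟨D ++ D', ?_⟩
      rw [vec_comb, vec_comb, vec_comb]
      simp
    | smul c x _ hx =>
      obtain ⟨D, rfl⟩ := hx
      refine ⟨D.map fun d => (c * d.1, d.2), ?_⟩
      rw [vec_comb, vec_comb, List.smul_sum, List.map_map, List.map_map]
      congr 1
      refine List.map_congr_left fun d _ => ?_
      simp [mul_smul]
  · rintro ⟨D, rfl⟩
    rw [vec_comb]
    refine list_sum_mem ?_
    intro x hx
    obtain ⟨d, _, rfl⟩ := List.mem_map.1 hx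
    refine Submodule.smul_mem _ _ ?_
    by_cases hi : d.2 < G.length
    · refine Submodule.subset_span ⟨G.getD d.2 [], ?_, rfl⟩
      rw [List.getD_eq_getElem?_getD]
      simp [hi]
    · rw [List.getD_eq_getElem?_getD]
      simp only [not_lt] at hi
      simp [hi, vec_nil]

theorem not_mem_spn_iff (G : List (List (F × ℕ))) (L : List (F × ℕ)) :
    vec L ∉ spn G ↔ ∃ φ : List F, (∀ g ∈ G, dot φ g = 0) ∧ dot φ L ≠ 0 := by
  constructor
  · intro h
    obtain ⟨ψ, hψ, hker⟩ := Submodule.exists_le_ker_of_notMem h
    have hz : ∀ g ∈ G, ψ (vec g) = 0 := fun g hg =>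
      hker (Submodule.subset_span ⟨g, hg, rfl⟩)
    obtain ⟨N, hN⟩ : ∃ N : ℕ, ∀ g ∈ L :: G, ∀ q ∈ g, q.2 < N := by
      refine ⟨((L :: G).flatten.map fun q => q.2 + 1).sum, fun g hg q hq => ?_⟩
      have h1 : q.2 + 1 ∈ ((L :: G).flatten.map fun q => q.2 + 1) :=
        List.mem_map.2 ⟨q, List.mem_flatten.2 ⟨g, hg, hq⟩, rfl⟩
      have h2 := List.le_sum_of_mem h1
      omega
    have hdot : ∀ g ∈ L :: G, dot ((List.range N).map fun k => ψ (Finsupp.single k 1)) g
        = ψ (vec g) := by
      intro g hg
      have hgN := hN g hg
      clear hN hg h hz hker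
      unfold dot
      rw [SComp1_foldl_add (fun q : F × ℕ => q.1 *
        ((List.range N).map fun k => ψ (Finsupp.single k 1)).getD q.2 0), zero_add]
      induction g with
      | nil => simp [vec_nil]
      | cons q g ih =>
        rw [List.map_cons, List.sum_cons, ih fun q' hq' => hgN q' (List.mem_cons_of_mem _ hq'),
          vec_cons, map_add]
        congr 1
        have h1 : ((List.range N).map fun k => ψ (Finsupp.single k 1)).getD q.2 0
            = ψ (Finsupp.single q.2 1) := by
          rw [List.getD_eq_getElem?_getD]
          simp [hgN q List.mem_cons_self]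
        rw [h1, ← smul_eq_mul, ← map_smul, Finsupp.smul_single, smul_eq_mul, mul_one]
    refine ⟨(List.range N).map fun k => ψ (Finsupp.single k 1), fun g hg => ?_, ?_⟩
    · rw [hdot g (List.mem_cons_of_mem _ hg), hz g hg]
    · rw [hdot L List.mem_cons_self]
      exact hψ
  · rintro ⟨φ, h1, h2⟩ h
    apply h2
    rw [dot_eq]
    have h3 : spn G ≤ LinearMap.ker (Finsupp.linearCombination F (fun k => φ.getD k 0)) := by
      refine Submodule.span_le.2 ?_
      rintro v ⟨g, hg, rfl⟩
      rw [SetLike.mem_coe, LinearMap.mem_ker, ← dot_eq]
      exact h1 g hg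
    exact h3 h

end Span

section Comp

variable {F : Type} [Field F] [Primcodable F]

theorem computable_cf (hadd : Computable₂ fun a b : F => a + b) :
    Computable₂ fun (k : ℕ) (L : List (F × ℕ)) => cf k L := by
  classical
  unfold cf
  refine SComp1_foldl (α := ℕ × List (F × ℕ)) (f := fun p => p.2) (g := fun _ => (0 : F))
    (h := fun p s => s.1 + (if s.2.2 = p.1 then s.2.1 else 0)) Computable.snd
    (Computable.const 0) ?_
  refine hadd.comp (Computable.fst.comp Computable.snd) ?_
  refine Primrec.to_comp (Primrec.ite (Primrec.eq.comp ?_ ?_) ?_ (Primrec.const 0))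
  · exact Primrec.snd.comp (Primrec.snd.comp Primrec.snd)
  · exact Primrec.fst.comp Primrec.fst
  · exact Primrec.fst.comp (Primrec.snd.comp Primrec.snd)

theorem computable_dot (hadd : Computable₂ fun a b : F => a + b)
    (hmul : Computable₂ fun a b : F => a * b) :
    Computable₂ fun (φ : List F) (L : List (F × ℕ)) => dot φ L := by
  unfold dot
  refine SComp1_foldl (α := List F × List (F × ℕ)) (f := fun p => p.2) (g := fun _ => (0 : F))
    (h := fun p s => s.1 + s.2.1 * p.1.getD s.2.2 0) Computable.snd (Computable.const 0) ?_
  refine hadd.comp (Computable.fst.comp Computable.snd) (hmul.comp ?_ ?_)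
  · exact Computable.fst.comp (Computable.snd.comp Computable.snd)
  · exact (Primrec.list_getD (0 : F)).to_comp.comp (Computable.fst.comp Computable.fst)
      (Computable.snd.comp (Computable.snd.comp Computable.snd))

theorem computable_eqv (hadd : Computable₂ fun a b : F => a + b) :
    Computable₂ fun (L L' : List (F × ℕ)) => eqv L L' := by
  classical
  have h1 : Computable fun p : List (F × ℕ) × List (F × ℕ) =>
      (p.1 ++ p.2).foldl (fun s q => s && decide (cf q.2 p.1 = cf q.2 p.2)) true := by
    refine SComp1_foldl (α := List (F × ℕ) × List (F × ℕ)) (f := fun p => p.1 ++ p.2)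
      (g := fun _ => true) (h := fun p s => s.1 && decide (cf s.2.2 p.1 = cf s.2.2 p.2))
      (Computable.list_append.comp Computable.fst Computable.snd) (Computable.const true) ?_
    refine Primrec.and.to_comp.comp (Computable.fst.comp Computable.snd) ?_
    refine (Primrec.eq (α := F)).decide.to_comp.comp ?_ ?_
    · exact (computable_cf hadd).comp (Computable.snd.comp (Computable.snd.comp Computable.snd))
        (Computable.fst.comp Computable.fst)
    · exact (computable_cf hadd).comp (Computable.snd.comp (Computable.snd.comp Computable.snd))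
        (Computable.snd.comp Computable.fst)
  refine h1.of_eq fun p => ?_
  rw [SComp1_all (fun q : F × ℕ => decide (cf q.2 p.1 = cf q.2 p.2)), Bool.true_and]
  rfl

theorem computable_comb (hmul : Computable₂ fun a b : F => a * b) :
    Computable₂ fun (D : List (F × ℕ)) (G : List (List (F × ℕ))) => comb D G := by
  unfold comb
  refine SComp1_foldl (α := List (F × ℕ) × List (List (F × ℕ))) (f := fun p => p.1)
    (g := fun _ => ([] : List (F × ℕ)))
    (h := fun p s => s.1 ++ (p.2.getD s.2.2 []).foldl
      (fun s' q => s' ++ [(s.2.1 * q.1, q.2)]) []) Computable.fst (Computable.const _) ?_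
  refine Computable.list_append.comp (Computable.fst.comp Computable.snd) ?_
  refine SComp1_foldl
    (α := (List (F × ℕ) × List (List (F × ℕ))) × (List (F × ℕ) × (F × ℕ)))
    (f := fun p => p.1.2.getD p.2.2.2 [])
    (g := fun _ => ([] : List (F × ℕ)))
    (h := fun p s => s.1 ++ [(p.2.2.1 * s.2.1, s.2.2)]) ?_ (Computable.const _) ?_
  · exact (Primrec.list_getD ([] : List (F × ℕ))).to_comp.comp
      (Computable.snd.comp Computable.fst)
      (Computable.snd.comp (Computable.snd.comp Computable.snd))
  · refine Computable.list_concat.comp (Computable.fst.comp Computable.snd) (Computable.pair ?_ ?_)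
    · refine hmul.comp ?_ ?_
      · exact Computable.fst.comp (Computable.snd.comp (Computable.snd.comp Computable.fst))
      · exact Computable.fst.comp (Computable.snd.comp Computable.snd)
    · exact Computable.snd.comp (Computable.snd.comp Computable.snd)

open Classical in
/-- The functional `φ` vanishes at all members of `G`. -/
noncomputable def allz (φ : List F) (G : List (List (F × ℕ))) : Bool :=
  G.foldl (fun s g => s && decide (dot φ g = 0)) true

omit [Primcodable F] in
theorem allz_iff (φ : List F) (G : List (List (F × ℕ))) :
    allz φ G = true ↔ ∀ g ∈ G, dot φ g = 0 := by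
  classical
  unfold allz
  rw [SComp1_all (fun g => decide (dot φ g = 0)), Bool.true_and, List.all_eq_true]
  simp

theorem computable_allz (hadd : Computable₂ fun a b : F => a + b)
    (hmul : Computable₂ fun a b : F => a * b) :
    Computable₂ fun (φ : List F) (G : List (List (F × ℕ))) => allz φ G := by
  classical
  unfold allz
  refine SComp1_foldl (α := List F × List (List (F × ℕ))) (f := fun p => p.2)
    (g := fun _ => true) (h := fun p s => s.1 && decide (dot p.1 s.2 = 0)) Computable.snd
    (Computable.const true) ?_
  refine Primrec.and.to_comp.comp (Computable.fst.comp Computable.snd) ?_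
  refine (Primrec.eq (α := F)).decide.to_comp.comp ?_ (Computable.const 0)
  exact (computable_dot hadd hmul).comp (Computable.fst.comp Computable.fst)
    (Computable.snd.comp Computable.snd)

open Classical in
/-- The functional `φ` vanishes at all members of `G` and not at `L`. -/
noncomputable def sepz (φ : List F) (L : List (F × ℕ)) (G : List (List (F × ℕ))) : Bool :=
  allz φ G && !(decide (dot φ L = 0))

omit [Primcodable F] in
theorem sepz_iff (φ : List F) (L : List (F × ℕ)) (G : List (List (F × ℕ))) :
    sepz φ L G = true ↔ (∀ g ∈ G, dot φ g = 0) ∧ dot φ L ≠ 0 := by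
  classical
  unfold sepz
  rw [Bool.and_eq_true, allz_iff]
  simp

theorem computable_sepz (hadd : Computable₂ fun a b : F => a + b)
    (hmul : Computable₂ fun a b : F => a * b) :
    Computable fun p : List F × List (F × ℕ) × List (List (F × ℕ)) =>
      sepz p.1 p.2.1 p.2.2 := by
  classical
  unfold sepz
  have h1 : Computable fun p : List F × List (F × ℕ) × List (List (F × ℕ)) => allz p.1 p.2.2 :=
    (computable_allz hadd hmul).comp Computable.fst (Computable.snd.comp Computable.snd)
  have h2 : Computable fun p : List F × List (F × ℕ) × List (List (F × ℕ)) =>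
      dot p.1 p.2.1 :=
    (computable_dot hadd hmul).comp Computable.fst (Computable.fst.comp Computable.snd)
  have h3 : Computable fun p : List F × List (F × ℕ) × List (List (F × ℕ)) =>
      decide (dot p.1 p.2.1 = 0) :=
    (Primrec.eq (α := F)).decide.to_comp.comp h2 (Computable.const 0)
  exact Primrec.and.to_comp.comp h1 (Primrec.not.to_comp.comp h3)

/-- Membership in the span of finitely many vectors is decidable over a computable field. -/
theorem computable_spn (hadd : Computable₂ fun a b : F => a + b)
    (hmul : Computable₂ fun a b : F => a * b) :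
    ∃ f : List (F × ℕ) × List (List (F × ℕ)) → Bool, Computable f ∧
      ∀ p, f p = true ↔ vec p.1 ∈ spn p.2 := by
  classical
  have h1 : REPred fun p : List (F × ℕ) × List (List (F × ℕ)) => vec p.1 ∈ spn p.2 := by
    have hc : Computable₂ fun (p : List (F × ℕ) × List (List (F × ℕ))) (D : List (F × ℕ)) =>
        eqv (comb D p.2) p.1 := by
      refine (computable_eqv hadd).comp ?_ (Computable.fst.comp Computable.fst)
      exact (computable_comb hmul).comp Computable.snd (Computable.snd.comp Computable.fst)
    refine (SComp1_re hc).of_eq fun p => ?_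
    rw [mem_spn_iff]
    exact exists_congr fun D => eqv_iff _ _
  have h2 : REPred fun p : List (F × ℕ) × List (List (F × ℕ)) => ¬ vec p.1 ∈ spn p.2 := by
    have hg : Computable fun q : (List (F × ℕ) × List (List (F × ℕ))) × List F => (q.2, q.1) :=
      Computable.pair Computable.snd Computable.fst
    have hc : Computable₂ fun (p : List (F × ℕ) × List (List (F × ℕ))) (φ : List F) =>
        sepz φ p.1 p.2 := by
      have hc' := (computable_sepz hadd hmul).comp hg
      exact hc'.to₂
    refine (SComp1_re hc).of_eq fun p => ?_
    rw [not_mem_spn_iff]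
    exact exists_congr fun φ => sepz_iff _ _ _
  obtain ⟨f, hf, hp⟩ := ComputablePred.computable_iff.1
    (ComputablePred.computable_iff_re_compl_re.2 ⟨h1, h2⟩)
  refine ⟨f, hf, fun p => ?_⟩
  have h3 := congrFun hp p
  simp only [eq_iff_iff] at h3
  exact h3.symm

end Comp

end Pool.Agent.W_59b51d_h18
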