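import Mathlib

/-!
# Varieties of nonassociative algebras given by multilinear monomial identities

Monomials are elements of the free magma; a nonassociative polynomial is a finite list of terms
(coefficient, monomial). `Vanishes F T r w` says that the polynomial `w` is `0` in the algebra
which is presented, in the variety given by the monomial identities `T`, by the relators `r`.
`Solvable F T r` says that this algebra has solvable word problem.
-/

namespace Pool.Agent.W_59b51d_h18

/-- A nonassociative polynomial over `F` in the variables `X`, given by the list of its terms. -/
abbrev Poly (F X : Type) : Type := List (F × FreeMagma X)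

/-- The value of a polynomial at a family of elements of an algebra. -/
def Poly.eval {F X A : Type} [Field F] [NonUnitalNonAssocRing A] [Module F A] (a : X → A)
    (p : Poly F X) : A :=
  (p.map fun q => q.1 • FreeMagma.lift a q.2).sum

/-- The algebra `A` satisfies the identities `t = 0`, for the monomials `t` in `T`. -/
def Sat (A : Type) [NonUnitalNonAssocRing A] (T : List (FreeMagma ℕ)) : Prop :=
  ∀ t ∈ T, ∀ v : ℕ → A, FreeMagma.lift v t = 0

/-- The polynomial `w` vanishes in the algebra which is presented by the generators `X` and the
relators `r` in the variety defined by `T`: it vanishes at every family of elements, satisfying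
the relators, of every algebra of the variety. -/
def Vanishes (F : Type) [Field F] (T : List (FreeMagma ℕ)) {X : Type} (r : List (Poly F X))
    (w : Poly F X) : Prop :=
  ∀ (A : Type) [NonUnitalNonAssocRing A] [Module F A] [IsScalarTower F A A]
    [SMulCommClass F A A], Sat A T → ∀ a : X → A, (∀ p ∈ r, p.eval a = 0) → w.eval a = 0

/-- The code of a monomial in the variables `0, …, n - 1`. -/
def code {n : ℕ} : FreeMagma (Fin n) → ℕ
  | .of i => 2 * i
  | .mul s t => 2 * Nat.pair (code s) (code t) + 1

/-- The algebra presented by the generators `0, …, n - 1` and the relators `r` in the variety
defined by `T` has solvable word problem. -/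
def Solvable (F : Type) [Field F] [Primcodable F] (T : List (FreeMagma ℕ)) {n : ℕ}
    (r : List (Poly F (Fin n))) : Prop :=
  ∃ f : List (F × ℕ) → Bool, Computable f ∧
    ∀ w : Poly F (Fin n), f (w.map fun q => (q.1, code q.2)) = true ↔ Vanishes F T r w

/-- The list of the variables of a monomial, from left to right. -/
def vars : FreeMagma ℕ → List ℕ
  | .of i => [i]
  | .mul s t => vars s ++ vars t

/-- No variable occurs twice. -/
def Multilinear (t : FreeMagma ℕ) : Prop := (vars t).Nodup

end Pool.Agent.W_59b51d_h18
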