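import Pool.Agent.W_59b51d_h18.Pairs

/-! Consequences of the relations in an arbitrary algebra. -/

namespace Pool.Agent.W_59b51d_h18

open Pool.Agent.W_MP_b13100_lc

section

variable {A : Type} [NonUnitalNonAssocRing A]

/-- iterated left multiplication by `c` -/
def Cp (c : A) : ℕ → A → A
  | 0, y => y
  | k + 1, y => c * Cp c k y

theorem Cp_add' (c : A) (j k : ℕ) (y : A) : Cp c (j + k) y = Cp c j (Cp c k y) := by
  induction j with
  | zero => rw [Nat.zero_add]; rfl
  | succ j ih => rw [Nat.succ_add]; simp only [Cp, ih]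

theorem Cp_add (c : A) (k : ℕ) (y z : A) : Cp c k (y + z) = Cp c k y + Cp c k z := by
  induction k with
  | zero => rfl
  | succ k ih => simp only [Cp, ih, mul_add]

theorem Cp_zero (c : A) (k : ℕ) : Cp c k 0 = 0 := by
  induction k with
  | zero => rfl
  | succ k ih => simp only [Cp, ih, mul_zero]

theorem Cp_neg (c : A) (k : ℕ) (y : A) : Cp c k (-y) = -Cp c k y := by
  induction k with
  | zero => rfl
  | succ k ih => simp only [Cp, ih, mul_neg]

/-- iterated multiplication by the members of a sequence -/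
def itA (X : ℕ → A) (y : A) : ℕ → A
  | 0 => y
  | j + 1 => X j * itA X y j

theorem itA_const (c : A) (X : ℕ → A) (y : A) (p k : ℕ) (h : ∀ j, p ≤ j → j < p + k → X j = c) :
    itA X y (p + k) = Cp c k (itA X y p) := by
  induction k with
  | zero => rfl
  | succ k ih =>
    change X (p + k) * itA X y (p + k) = _
    rw [h (p + k) (by omega) (by omega), ih fun j h1 h2 => h j h1 (by omega)]
    rfl

/-- the operator of a letter -/
def Sp (c : A) (d : ℕ) (u y : A) : A := Cp c (d - 1) (u * y)

theorem Sp_pair (c : A) (d : ℕ) (w w' : A) (o : ℕ) (ho : o < d)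
    (h : ∀ X : ℕ → A, (∀ j < 2 * d, j ≠ o → j ≠ o + d → X j = c) → X o = w → X (o + d) = w' →
      ∀ y, itA X y (2 * d) = 0) (y : A) : Sp c d w' (Sp c d w (Cp c (d - 1) y)) = 0 := by
  set X : ℕ → A := fun j => if j = o then w else if j = o + d then w' else c with hX
  have hXc : ∀ j, j ≠ o → j ≠ o + d → X j = c := fun j h1 h2 => by
    simp only [hX, if_neg h1, if_neg h2]
  have hXo : X o = w := by simp [hX]
  have hXd : X (o + d) = w' := by
    have : o + d ≠ o := by omega
    simp only [hX, if_neg this, if_true]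
  have h0 := h X (fun j _ => hXc j) hXo hXd (Cp c (d - 1 - o) y)
  have h1 : itA X (Cp c (d - 1 - o) y) o = Cp c (d - 1) y := by
    have := itA_const c X (Cp c (d - 1 - o) y) 0 o (fun j _ h2 => hXc j (by omega) (by omega))
    rw [Nat.zero_add] at this
    rw [this]
    change Cp c o (Cp c (d - 1 - o) y) = _
    rw [← Cp_add', show o + (d - 1 - o) = d - 1 by omega]
  have h2 : itA X (Cp c (d - 1 - o) y) (o + d) = Sp c d w (Cp c (d - 1) y) := by
    have := itA_const c X (Cp c (d - 1 - o) y) (o + 1) (d - 1)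
      (fun j h1 h2 => hXc j (by omega) (by omega))
    rw [show o + 1 + (d - 1) = o + d by omega] at this
    rw [this]
    change Cp c (d - 1) (X o * itA X _ o) = _
    rw [hXo, h1]
    rfl
  have h3 : itA X (Cp c (d - 1 - o) y) (2 * d) =
      Cp c (d - 1 - o) (w' * Sp c d w (Cp c (d - 1) y)) := by
    have := itA_const c X (Cp c (d - 1 - o) y) (o + d + 1) (d - 1 - o)
      (fun j h1 h2 => hXc j (by omega) (by omega))
    rw [show o + d + 1 + (d - 1 - o) = 2 * d by omega] at this
    rw [this]
    change Cp c (d - 1 - o) (X (o + d) * itA X _ (o + d)) = _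
    rw [hXd, h2]
  rw [h3] at h0
  rw [Sp, show d - 1 = o + (d - 1 - o) by omega, Cp_add', ← show d - 1 = o + (d - 1 - o) by omega,
    h0, Cp_zero]

theorem Sp_add (c : A) (d : ℕ) (u u' y : A) : Sp c d (u + u') y = Sp c d u y + Sp c d u' y := by
  simp only [Sp, add_mul, Cp_add]

theorem Sp_add_right (c : A) (d : ℕ) (u y z : A) : Sp c d u (y + z) = Sp c d u y + Sp c d u z := by
  simp only [Sp, mul_add, Cp_add]

theorem Sp_neg (c : A) (d : ℕ) (u y : A) : Sp c d (-u) y = -Sp c d u y := by
  simp only [Sp, neg_mul, Cp_neg]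

theorem Sp_neg_right (c : A) (d : ℕ) (u y : A) : Sp c d u (-y) = -Sp c d u y := by
  simp only [Sp, mul_neg, Cp_neg]

end

section

variable {F : Type} [Field F] {A : Type} [NonUnitalNonAssocRing A] [Module F A]

theorem Sp_quad (c : A) (d : ℕ) (l : LT → A) (m : ℕ) (R : List Wd)
    (h : ∀ p ∈ RK F m R, ∀ y, Sp c d (LF.val l p.1) (Sp c d (LF.val l p.2) (Cp c (d - 1) y)) = 0)
    (q : Wd × Wd × Wd × Wd) (hq : q ∈ Ql m R) (y : A) :
    Sp c d (l (.inl q.1)) (Sp c d (l (.inl q.2.1)) (Cp c (d - 1) y)) =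
      Sp c d (l (.inl q.2.2.1)) (Sp c d (l (.inl q.2.2.2)) (Cp c (d - 1) y)) := by
  obtain ⟨i, hi⟩ := mem_RK (F := F) hq
  have h1 := h _ (hi _ (List.getElem_mem (l := six F q i) (n := 0) (by simp [six]))) y
  have h2 := h _ (hi _ (List.getElem_mem (l := six F q i) (n := 1) (by simp [six]))) y
  have h3 := h _ (hi _ (List.getElem_mem (l := six F q i) (n := 2) (by simp [six]))) y
  have h4 := h _ (hi _ (List.getElem_mem (l := six F q i) (n := 3) (by simp [six]))) y
  have h5 := h _ (hi _ (List.getElem_mem (l := six F q i) (n := 4) (by simp [six]))) y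
  have h6 := h _ (hi _ (List.getElem_mem (l := six F q i) (n := 5) (by simp [six]))) y
  simp only [six, List.getElem_cons_zero, List.getElem_cons_succ, LF.val, List.map_cons,
    List.map_nil, List.sum_cons, List.sum_nil, add_zero, one_smul, neg_smul, Sp_add,
    Sp_add_right, Sp_neg, Sp_neg_right] at h1 h2 h3 h4 h5 h6
  have e1 : Sp c d (l (.inl q.1)) (Sp c d (l (.inl q.2.1)) (Cp c (d - 1) y)) =
      Sp c d (l (.inr (i, true))) (Sp c d (l (.inr (i, false))) (Cp c (d - 1) y)) := by
    rw [h2, h3] at h1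
    rw [← sub_eq_zero, ← h1]
    abel
  have e2 : Sp c d (l (.inl q.2.2.1)) (Sp c d (l (.inl q.2.2.2)) (Cp c (d - 1) y)) =
      Sp c d (l (.inr (i, true))) (Sp c d (l (.inr (i, false))) (Cp c (d - 1) y)) := by
    rw [h5, h6] at h4
    rw [← sub_eq_zero, ← h4]
    abel
  rw [e1, e2]

/-- the operator of a main letter -/
def So (c : A) (d : ℕ) (l : LT → A) (w : Wd) (y : A) : A := Sp c d (l (.inl w)) y

/-- the set of the values of words -/
def DD (c : A) (d : ℕ) (l : LT → A) (m : ℕ) (R : List Wd) (b : A) : Set A :=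
  {y | ∃ L : List Wd, (∀ w ∈ L, w ∈ wl m R) ∧ y = L.foldr (So c d l) b}

variable (F)

/-- The group generated by the operators: the words of the halting problem. -/
theorem derive (c b : A) (d : ℕ) (l : LT → A) (m : ℕ) (R : List Wd)
    (h : ∀ p ∈ RK F m R, ∀ y, Sp c d (LF.val l p.1) (Sp c d (LF.val l p.2) (Cp c (d - 1) y)) = 0)
    (hb : So c d l [] b = b) (hR : ∀ r ∈ R, ∀ x ∈ r, x.1 < m) (κ x t n : ℕ) (hκ : κ < m)
    (hx : x < m) (ht : t < m)
    (hG : ∀ (G : Type) (_ : Group G) (v : ℕ → G), (∀ r ∈ R, ev v r = 1) →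
      Commute (v κ) (v x ^ n * v t * (v x ^ n)⁻¹)) :
    So c d l [(κ, true)] ((So c d l [(x, true)])^[n] (So c d l [(t, true)]
      ((So c d l [(x, false)])^[n] b))) =
    (So c d l [(x, true)])^[n] (So c d l [(t, true)]
      ((So c d l [(x, false)])^[n] (So c d l [(κ, true)] b))) := by
  classical
  set D := DD c d l m R b with hD
  have hbD : b ∈ D := ⟨[], by simp, rfl⟩
  have hstep : ∀ w ∈ wl m R, ∀ y ∈ D, So c d l w y ∈ D := by
    rintro w hw _ ⟨L, hL, rfl⟩
    exact ⟨w :: L, by simpa [hw] using hL, rfl⟩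
  have hCp : ∀ y ∈ D, ∃ z, y = Cp c (d - 1) z := by
    rintro _ ⟨L, hL, rfl⟩
    cases L with
    | nil => exact ⟨_, hb.symm⟩
    | cons w L => exact ⟨_, rfl⟩
  have hquad : ∀ q ∈ Ql m R, ∀ y ∈ D, So c d l q.1 (So c d l q.2.1 y) =
      So c d l q.2.2.1 (So c d l q.2.2.2 y) := by
    intro q hq y hy
    obtain ⟨z, rfl⟩ := hCp y hy
    exact Sp_quad c d l m R h q hq z
  have hz : ∀ y ∈ D, So c d l [] y = y := by
    rintro _ ⟨L, hL, rfl⟩
    induction L with
    | nil => exact hb
    | cons w L ih =>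
      have hL' : ∀ w ∈ L, w ∈ wl m R := fun w' hw' => hL w' (List.mem_cons_of_mem _ hw')
      have h1 := hquad ([], w, w, []) (q_comm (hL w (List.mem_cons_self ..))) _ ⟨L, hL', rfl⟩
      simp only at h1
      rw [List.foldr_cons, h1, ih hL']
  have hinv : ∀ i < m, ∀ e : Bool, ∀ y ∈ D, So c d l [(i, e)] (So c d l [(i, !e)] y) = y := by
    intro i hi e y hy
    have h1 := hquad _ (q_inv R hi e) y hy
    simp only at h1
    rw [h1, hz y hy, hz y hy]
  let P : ∀ i < m, Equiv.Perm D := fun i hi =>
    { toFun := fun y => ⟨So c d l [(i, true)] y, hstep _ (gen_mem_wl R (l := (i, true)) hi) _ y.2⟩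
      invFun := fun y =>
        ⟨So c d l [(i, false)] y, hstep _ (gen_mem_wl R (l := (i, false)) hi) _ y.2⟩
      left_inv := fun y => Subtype.ext (hinv i hi false y y.2)
      right_inv := fun y => Subtype.ext (hinv i hi true y y.2) }
  let v : ℕ → Equiv.Perm D := fun i => if hi : i < m then P i hi else 1
  have hv : ∀ i < m, ∀ y : D, ((v i y : D) : A) = So c d l [(i, true)] y := by
    intro i hi y
    simp only [v, dif_pos hi]
    rfl
  have hv' : ∀ i < m, ∀ y : D, (((v i)⁻¹ y : D) : A) = So c d l [(i, false)] y := by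
    intro i hi y
    simp only [v, dif_pos hi]
    rfl
  have hev : ∀ e : ℕ × Bool, e.1 < m → ∀ y : D, ((ev v [e] y : D) : A) = So c d l [e] y := by
    rintro ⟨i, e⟩ hi y
    rw [ev_cons, ev_nil, mul_one]
    cases e with
    | true => exact hv i hi y
    | false => exact hv' i hi y
  have hrel : ∀ r ∈ R, ev v r = 1 := by
    intro r hr
    have key : ∀ k ≤ r.length, ∀ y : D, ((ev v (r.take k) y : D) : A) = So c d l (r.take k) y := by
      intro k
      induction k with
      | zero =>
        intro _ y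
        rw [List.take_zero, ev_nil]
        exact (hz y y.2).symm
      | succ k ih =>
        intro hk y
        have hk' : k < r.length := by omega
        have h1 := hquad _ (q_take hr hk') y y.2
        simp only at h1
        rw [hz y y.2] at h1
        have h2 : r.take (k + 1) = r.take k ++ [r[k]] := by
          rw [List.take_add, List.drop_eq_getElem_cons hk']
          rfl
        have h3 : ev v (r.take (k + 1)) y = ev v (r.take k) (ev v [r[k]] y) := by
          rw [h2, ev_append]
          rfl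
        rw [h3, ih (by omega), hev _ (hR r hr _ (List.getElem_mem hk')), h1]
    ext y
    have h1 := key r.length le_rfl y
    rw [List.take_length] at h1
    rw [h1]
    have h2 := hquad _ (q_rel hr) y y.2
    simp only at h2
    rw [hz y y.2, hz y y.2] at h2
    exact h2
  have hcomm := hG (Equiv.Perm D) inferInstance v hrel
  have hpow : ∀ i < m, ∀ k, ∀ y : D, (((v i ^ k) y : D) : A) = (So c d l [(i, true)])^[k] y := by
    intro i hi k
    induction k with
    | zero => intro y; rfl
    | succ k ih =>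
      intro y
      rw [pow_succ', Function.iterate_succ_apply', ← ih y]
      exact hv i hi _
  have hpow' : ∀ i < m, ∀ k, ∀ y : D,
      ((((v i ^ k)⁻¹) y : D) : A) = (So c d l [(i, false)])^[k] y := by
    intro i hi k
    induction k with
    | zero => intro y; simp
    | succ k ih =>
      intro y
      rw [pow_succ, mul_inv_rev, Function.iterate_succ_apply', ← ih y]
      exact hv' i hi _
  have h1 := congrArg (fun g : Equiv.Perm D => ((g ⟨b, hbD⟩ : D) : A)) hcomm.eq
  simp only [Equiv.Perm.coe_mul, Function.comp_apply] at h1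
  rw [hv κ hκ, hpow x hx, hv t ht, hpow' x hx, hpow x hx, hv t ht, hpow' x hx, hv κ hκ] at h1
  exact h1

end

end Pool.Agent.W_59b51d_h18
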