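import Mathlib

/-! Phases: products of shifts and operators. -/

namespace Pool.Agent.W_59b51d_h18

variable {F N : Type} [Field F] [AddCommGroup N] [Module F N]

/-- the shift of phases -/
def opC (d : ℕ) : (ℕ → N) →ₗ[F] (ℕ → N) where
  toFun f p := if p + 1 < d then f (p + 1) else 0
  map_add' f g := by
    funext p
    simp only [Pi.add_apply]
    split_ifs <;> simp
  map_smul' c f := by
    funext p
    simp only [Pi.smul_apply, RingHom.id_apply]
    split_ifs <;> simp

/-- an operator, applied in phase `0`, leading to phase `d - 1` -/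
def opL (d : ℕ) : (N →ₗ[F] N) →ₗ[F] (ℕ → N) →ₗ[F] (ℕ → N) :=
  LinearMap.mk₂ F (fun w f p => if p + 1 = d then w (f 0) else 0)
    (fun w w' f => by
      funext p
      simp only [LinearMap.add_apply, Pi.add_apply]
      split_ifs <;> simp)
    (fun c w f => by
      funext p
      simp only [LinearMap.smul_apply, Pi.smul_apply]
      split_ifs <;> simp)
    (fun w f f' => by
      funext p
      simp only [Pi.add_apply]
      split_ifs <;> simp)
    (fun c w f => by
      funext p
      simp only [Pi.smul_apply]
      split_ifs <;> simp)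

theorem opC_apply (d : ℕ) (f : ℕ → N) (p : ℕ) :
    opC (F := F) d f p = if p + 1 < d then f (p + 1) else 0 := rfl

theorem opL_apply (d : ℕ) (w : N →ₗ[F] N) (f : ℕ → N) (p : ℕ) :
    opL d w f p = if p + 1 = d then w (f 0) else 0 := rfl

/-- iterated application -/
def itr (e : ℕ → (ℕ → N) →ₗ[F] (ℕ → N)) (f : ℕ → N) : ℕ → (ℕ → N)
  | 0 => f
  | j + 1 => e j (itr e f j)

theorem phase_zero (d : ℕ) (hd : 0 < d) (W : ℕ → N →ₗ[F] N)
    (hW : ∀ p < d, ∀ n, W (p + d) (W p n) = 0)
    (e : ℕ → (ℕ → N) →ₗ[F] (ℕ → N))
    (he : ∀ j < 2 * d, ∃ a b : F, e j = a • opC d + b • opL d (W j)) (f : ℕ → N) :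
    itr e f (2 * d) = 0 := by
  have key : ∀ j ≤ 2 * d, (∀ p < d,
      (p + j < d → ∃ a : F, itr e f j p = a • f (p + j)) ∧
      (∀ i < d, p + j = i + d → ∃ a : F, itr e f j p = a • W i (f i)) ∧
      (2 * d ≤ p + j → itr e f j p = 0)) ∧ (0 < j → ∀ p, d ≤ p → itr e f j p = 0) := by
    intro j
    induction j with
    | zero =>
      intro _
      refine ⟨fun p hp => ⟨fun _ => ⟨1, by simp [itr]⟩, fun i hi h => by omega,
        fun h => by omega⟩, fun h => absurd h (lt_irrefl 0)⟩
    | succ j ih =>
      intro hj
      obtain ⟨ih1, ih2⟩ := ih (by omega)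
      obtain ⟨a, b, hab⟩ := he j (by omega)
      have hval : ∀ p, itr e f (j + 1) p = a • (if p + 1 < d then itr e f j (p + 1) else 0) +
          b • (if p + 1 = d then W j (itr e f j 0) else 0) := by
        intro p
        simp only [itr, hab, LinearMap.add_apply, LinearMap.smul_apply, Pi.add_apply,
          Pi.smul_apply, opC_apply, opL_apply]
      constructor
      · intro p hp
        rcases Nat.lt_or_ge (p + 1) d with h1 | h1
        · have h2 : p + 1 ≠ d := by omega
          simp only [hval, if_pos h1, if_neg h2, smul_zero, add_zero]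
          obtain ⟨i1, i2, i3⟩ := ih1 (p + 1) h1
          refine ⟨fun h => ?_, fun i hi h => ?_, fun h => ?_⟩
          · obtain ⟨a', ha'⟩ := i1 (by omega)
            refine ⟨a * a', ?_⟩
            rw [ha', smul_smul, show p + 1 + j = p + (j + 1) by omega]
          · obtain ⟨a', ha'⟩ := i2 i hi (by omega)
            exact ⟨a * a', by rw [ha', smul_smul]⟩
          · rw [i3 (by omega), smul_zero]
        · have h2 : p + 1 = d := by omega
          have h1' : ¬ p + 1 < d := by omega
          simp only [hval, if_neg h1', if_pos h2, smul_zero, zero_add]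
          obtain ⟨i1, i2, i3⟩ := ih1 0 hd
          refine ⟨fun h => by omega, fun i hi h => ?_, fun h => ?_⟩
          · have hij : i = j := by omega
            subst hij
            obtain ⟨a', ha'⟩ := i1 (by omega)
            refine ⟨b * a', ?_⟩
            rw [ha', map_smul, smul_smul]
            simp
          · rcases Nat.lt_or_ge j (2 * d) with h3 | h3
            · obtain ⟨a', ha'⟩ := i2 (j - d) (by omega) (by omega)
              rw [ha', map_smul]
              have h4 := hW (j - d) (by omega) (f (j - d))
              rw [show j - d + d = j by omega] at h4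
              rw [h4, smul_zero, smul_zero]
            · rw [i3 (by omega), map_zero, smul_zero]
      · intro _ p hp
        have h1 : ¬ p + 1 < d := by omega
        have h2 : ¬ p + 1 = d := by omega
        rw [hval, if_neg h1, if_neg h2, smul_zero, smul_zero, add_zero]
  obtain ⟨k1, k2⟩ := key (2 * d) le_rfl
  funext p
  rcases Nat.lt_or_ge p d with h | h
  · exact (k1 p h).2.2 (by omega)
  · exact k2 (by omega) p h

end Pool.Agent.W_59b51d_h18
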