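import Pool.Agent.W_59b51d_h18.Tau
import Pool.Agent.W_59b51d_h18.Phase

/-! The model: truncated free algebra, letters, phases. -/

namespace Pool.Agent.W_59b51d_h18

open Finsupp

/-- `s` matches the root of `t` -/
def Fit {X : Type} : Sh → FreeMagma X → Prop
  | .x, _ => True
  | .m _ _, .of _ => False
  | .m a b, .mul s t => Fit a s ∧ Fit b t

theorem Fit.len {X : Type} {s : Sh} {t : FreeMagma X} (h : Fit s t) :
    s.len ≤ (sh t).len ∧ ((sh t).len = s.len → sh t = s) := by
  induction s generalizing t with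
  | x =>
    refine ⟨(sh t).len_pos, fun h => ?_⟩
    cases t with
    | of i => rfl
    | mul a b =>
      simp only [sh, Sh.len] at h
      have := (sh a).len_pos
      have := (sh b).len_pos
      omega
  | m a b ih1 ih2 =>
    cases t with
    | of i => exact h.elim
    | mul s t =>
      obtain ⟨h1, h2⟩ := ih1 h.1
      obtain ⟨h3, h4⟩ := ih2 h.2
      simp only [sh, Sh.len]
      refine ⟨by omega, fun h => ?_⟩
      rw [h2 (by omega), h4 (by omega)]

/-- the tree of shape `s` with all leaves equal to `g` -/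
def lab {X : Type} (g : X) : Sh → FreeMagma X
  | .x => .of g
  | .m s t => .mul (lab g s) (lab g t)

theorem sh_lab {X : Type} (g : X) (s : Sh) : sh (lab g s) = s := by
  induction s with
  | x => rfl
  | m s t ih1 ih2 => simp only [lab, sh, ih1, ih2]

theorem lab_inj {X : Type} {g g' : X} {s s' : Sh} (h : lab g s = lab g' s') : g = g' := by
  induction s generalizing s' with
  | x =>
    cases s' with
    | x =>
      simp only [lab] at h
      injection h
    | m a b =>
      simp only [lab] at h
      injection h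
  | m a b ih1 ih2 =>
    cases s' with
    | x =>
      simp only [lab] at h
      injection h
    | m a' b' =>
      simp only [lab] at h
      injection h with h1 h2
      exact ih1 h1

theorem map₂_span_mem {F P Q R : Type} [Field F] [AddCommGroup P] [Module F P] [AddCommGroup Q]
    [Module F Q] [AddCommGroup R] [Module F R] (f : P →ₗ[F] Q →ₗ[F] R) (S : Set P) (T : Set Q)
    (U : Submodule F R) (h : ∀ x ∈ S, ∀ y ∈ T, f x y ∈ U) {x : P} {y : Q}
    (hx : x ∈ Submodule.span F S) (hy : y ∈ Submodule.span F T) : f x y ∈ U := by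
  have h1 : Submodule.map₂ f (Submodule.span F S) (Submodule.span F T) ≤ U := by
    rw [Submodule.map₂_span_span, Submodule.span_le]
    rintro _ ⟨x, hx, y, hy, rfl⟩
    exact h x hx y hy
  exact h1 (Submodule.apply_mem_map₂ f hx hy)

variable {F N E : Type} [Field F] [AddCommGroup N] [Module F N] [AddCommGroup E] [Module F E]

/-- data of a model -/
structure MD (F N E : Type) [Field F] [AddCommGroup N] [Module F N] [AddCommGroup E]
    [Module F E] where
  /-- number of relations -/
  d : ℕ
  /-- positivity -/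
  hd : 0 < d
  /-- action of the letters -/
  act : E →ₗ[F] (ℕ → N) →ₗ[F] (ℕ → N)
  /-- operators -/
  w : ℕ → N →ₗ[F] N
  /-- letters -/
  W : ℕ → Bool → E
  /-- first kind -/
  hC : ∀ j < 2 * d, act (W j false) = opC d
  /-- second kind -/
  hL : ∀ j < 2 * d, act (W j true) = opL d (w j)
  /-- the relations -/
  hw : ∀ p < d, ∀ n, w (p + d) (w p n) = 0

/-- the model -/
@[ext] structure Mdl (_D : MD F N E) : Type where
  /-- combination of trees -/
  a : FreeMagma (ℕ × Bool) →₀ F
  /-- combination of letters -/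
  e : E
  /-- the module part -/
  m : ℕ → N

namespace Mdl

variable (D : MD F N E)

/-- the model as a product -/
def eqv : Mdl D ≃ (FreeMagma (ℕ × Bool) →₀ F) × E × (ℕ → N) where
  toFun p := (p.a, p.e, p.m)
  invFun p := ⟨p.1, p.2.1, p.2.2⟩
  left_inv _ := rfl
  right_inv _ := rfl

noncomputable instance : AddCommGroup (Mdl D) := (eqv D).addCommGroup

noncomputable instance : Module F (Mdl D) := (eqv D).module F

@[simp] theorem add_a (p q : Mdl D) : (p + q).a = p.a + q.a := rfl
@[simp] theorem add_e (p q : Mdl D) : (p + q).e = p.e + q.e := rfl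
@[simp] theorem add_m (p q : Mdl D) : (p + q).m = p.m + q.m := rfl
@[simp] theorem zero_a : (0 : Mdl D).a = 0 := rfl
@[simp] theorem zero_e : (0 : Mdl D).e = 0 := rfl
@[simp] theorem zero_m : (0 : Mdl D).m = 0 := rfl
@[simp] theorem smul_a (c : F) (p : Mdl D) : (c • p).a = c • p.a := rfl
@[simp] theorem smul_e (c : F) (p : Mdl D) : (c • p).e = c • p.e := rfl
@[simp] theorem smul_m (c : F) (p : Mdl D) : (c • p).m = c • p.m := rfl

/-- the length `L` of the trees which are killed -/
def LL : ℕ := 2 * D.d + 2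

open Classical in
/-- values of trees -/
noncomputable def eps (t : FreeMagma (ℕ × Bool)) : E :=
  ∑ j ∈ Finset.range (2 * D.d), ∑ b : Bool,
    if t = lab (j, b) (tau (2 * D.d) j) then D.W j b else 0

/-- product of trees -/
noncomputable def trm (s t : FreeMagma (ℕ × Bool)) : FreeMagma (ℕ × Bool) →₀ F :=
  if (sh (s * t)).len < LL D then single (s * t) 1 else 0

/-- truncated product -/
noncomputable def bil1 : (FreeMagma (ℕ × Bool) →₀ F) →ₗ[F] (FreeMagma (ℕ × Bool) →₀ F) →ₗ[F]
    (FreeMagma (ℕ × Bool) →₀ F) :=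
  linearCombination F fun s => linearCombination F (trm D s)

/-- product with values in letters -/
noncomputable def bil2 : (FreeMagma (ℕ × Bool) →₀ F) →ₗ[F] (FreeMagma (ℕ × Bool) →₀ F) →ₗ[F] E :=
  linearCombination F fun s => linearCombination F fun t => eps D (s * t)

theorem bil1_single (s t : FreeMagma (ℕ × Bool)) :
    bil1 D (single s 1) (single t 1) = trm D s t := by
  simp [bil1]

theorem bil2_single (s t : FreeMagma (ℕ × Bool)) :
    bil2 D (single s 1) (single t 1) = eps D (s * t) := by
  simp [bil2]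

/-- the product of the model -/
noncomputable def prd (p q : Mdl D) : Mdl D :=
  ⟨bil1 D p.a q.a, bil2 D p.a q.a, D.act p.e q.m⟩

theorem prd_add (p q r : Mdl D) : prd D p (q + r) = prd D p q + prd D p r := by
  ext1 <;> simp only [prd, add_a, add_e, add_m, map_add]

theorem add_prd (p q r : Mdl D) : prd D (p + q) r = prd D p r + prd D q r := by
  ext1 <;> simp only [prd, add_a, add_e, add_m, map_add, LinearMap.add_apply]

noncomputable instance : NonUnitalNonAssocRing (Mdl D) :=
  { (inferInstance : AddCommGroup (Mdl D)) with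
    mul := prd D
    left_distrib := prd_add D
    right_distrib := add_prd D
    zero_mul := fun a => by
      have h : prd D 0 a + prd D 0 a = prd D 0 a := by rw [← add_prd, add_zero]
      exact left_eq_add.1 h.symm
    mul_zero := fun a => by
      have h : prd D a 0 + prd D a 0 = prd D a 0 := by rw [← prd_add, add_zero]
      exact left_eq_add.1 h.symm }

theorem mul_def (p q : Mdl D) :
    p * q = ⟨bil1 D p.a q.a, bil2 D p.a q.a, D.act p.e q.m⟩ := rfl

instance : IsScalarTower F (Mdl D) (Mdl D) where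
  smul_assoc c p q := by
    change prd D (c • p) q = c • prd D p q
    ext1 <;> simp only [prd, smul_a, smul_e, smul_m, map_smul, LinearMap.smul_apply]

instance : SMulCommClass F (Mdl D) (Mdl D) where
  smul_comm c p q := by
    change c • prd D p q = prd D p (c • q)
    ext1 <;> simp only [prd, smul_a, smul_e, smul_m, map_smul]

/-- the possible first components -/
noncomputable def Jf (F : Type) [Field F] (s : Sh) : Submodule F (FreeMagma (ℕ × Bool) →₀ F) :=
  Submodule.span F {p | ∃ t, Fit s t ∧ p = single t 1}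

/-- the possible first components of products -/
noncomputable def J (s : Sh) : Submodule F (FreeMagma (ℕ × Bool) →₀ F) :=
  Submodule.span F {p | ∃ t, Fit s t ∧ (sh t).len < LL D ∧ p = single t 1}

theorem J_eq_bot {s : Sh} (h : LL D ≤ s.len) : J (F := F) D s = ⊥ := by
  rw [J, Submodule.span_eq_bot]
  rintro _ ⟨t, h1, h2, -⟩
  have := h1.len.1
  omega

theorem J_le (s : Sh) : J D s ≤ Jf F s :=
  Submodule.span_mono fun _ ⟨t, h1, _, h2⟩ => ⟨t, h1, h2⟩

theorem bil1_mem {a b : Sh} {p q : FreeMagma (ℕ × Bool) →₀ F} (hp : p ∈ Jf F a)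
    (hq : q ∈ Jf F b) : bil1 D p q ∈ J D (.m a b) := by
  refine map₂_span_mem (bil1 D) _ _ _ ?_ hp hq
  rintro _ ⟨s, hs, rfl⟩ _ ⟨t, ht, rfl⟩
  rw [bil1_single, trm]
  split_ifs with h
  · exact Submodule.subset_span ⟨s * t, ⟨hs, ht⟩, h, rfl⟩
  · exact zero_mem _

theorem fst_mem (s : Sh) : ∀ p ∈ Vals (Mdl D) s, p.a ∈ Jf F s := by
  induction s with
  | x =>
    intro p _
    rw [← Finsupp.sum_single p.a]
    refine Submodule.sum_mem _ fun t _ => ?_
    rw [← mul_one (p.a t), ← smul_eq_mul, ← Finsupp.smul_single]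
    exact Submodule.smul_mem _ _ (Submodule.subset_span ⟨t, trivial, rfl⟩)
  | m a b ih1 ih2 =>
    rintro _ ⟨q, hq, r, hr, rfl⟩
    exact J_le D _ (bil1_mem D (ih1 q hq) (ih2 r hr))

theorem fst_mem_J {a b : Sh} {p : Mdl D} (hp : p ∈ Vals (Mdl D) (.m a b)) :
    p.a ∈ J D (.m a b) := by
  obtain ⟨q, hq, r, hr, rfl⟩ := hp
  exact bil1_mem D (fst_mem D a q hq) (fst_mem D b r hr)

theorem eps_of_ne {t : FreeMagma (ℕ × Bool)} (h : ∀ j < 2 * D.d, sh t ≠ tau (2 * D.d) j) :
    eps D t = 0 := by
  refine Finset.sum_eq_zero fun j hj => Finset.sum_eq_zero fun b _ => if_neg fun e => ?_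
  refine h j (Finset.mem_range.1 hj) ?_
  rw [e, sh_lab]

theorem eps_mem {t : FreeMagma (ℕ × Bool)} {j : ℕ} (hj : j < 2 * D.d)
    (h : sh t = tau (2 * D.d) j) :
    eps D t ∈ Submodule.span F {D.W j false, D.W j true} := by
  refine Submodule.sum_mem _ fun j' hj' => Submodule.sum_mem _ fun b _ => ?_
  split_ifs with e
  · have h1 : tau (2 * D.d) j' = tau (2 * D.d) j := by rw [← h, e, sh_lab]
    have h2 := tau_inj (Finset.mem_range.1 hj') hj h1
    subst h2
    cases b
    · exact Submodule.subset_span (by simp)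
    · exact Submodule.subset_span (by simp)
  · exact zero_mem _

theorem eps_lab {j : ℕ} (hj : j < 2 * D.d) (b : Bool) :
    eps D (lab (j, b) (tau (2 * D.d) j)) = D.W j b := by
  rw [eps, Finset.sum_eq_single j, Finset.sum_eq_single b]
  · simp
  · intro b' _ hb
    refine if_neg fun e => hb ?_
    have := lab_inj e
    simpa using this.symm
  · simp
  · intro j' _ hj'
    refine Finset.sum_eq_zero fun b' _ => if_neg fun e => hj' ?_
    have := lab_inj e
    simp only [Prod.mk.injEq] at this
    exact this.1.symm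
  · intro h
    exact absurd (Finset.mem_range.2 hj) h

theorem snd_mem {a b : Sh} {U : Submodule F E} (hU : ∀ t, Fit (.m a b) t → eps D t ∈ U)
    {p : Mdl D} (hp : p ∈ Vals (Mdl D) (.m a b)) : p.e ∈ U := by
  obtain ⟨q, hq, r, hr, rfl⟩ := hp
  change bil2 D q.a r.a ∈ U
  refine map₂_span_mem (bil2 D) _ _ _ ?_ (fst_mem D a q hq) (fst_mem D b r hr)
  rintro _ ⟨s, hs, rfl⟩ _ ⟨t, ht, rfl⟩
  rw [bil2_single]
  exact hU _ ⟨hs, ht⟩

theorem tau_val {j : ℕ} (hj : j < 2 * D.d) {p : Mdl D} (hp : p ∈ Vals (Mdl D) (tau (2 * D.d) j)) :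
    p.a = 0 ∧ p.e ∈ Submodule.span F {D.W j false, D.W j true} := by
  have hlen := len_tau (2 * D.d) j hj.le
  obtain ⟨a, b, hab⟩ := exists_tau_eq (2 * D.d) j
  rw [hab] at hp hlen
  constructor
  · have h1 := fst_mem_J D hp
    rw [J_eq_bot D (by rw [hlen, LL]), Submodule.mem_bot] at h1
    exact h1
  · refine snd_mem D (fun t ht => ?_) hp
    by_cases h : (sh t).len = (Sh.m a b).len
    · exact eps_mem D hj (by rw [hab]; exact ht.len.2 h)
    · rw [eps_of_ne]
      · exact zero_mem _
      · intro j' hj' e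
        apply h
        rw [e, len_tau _ _ hj'.le, hlen]

theorem big_val (j : ℕ) (hj : j ≤ 2 * D.d) : ∀ p ∈ Vals (Mdl D) (big (2 * D.d) j),
    ∃ (e : ℕ → E) (f : ℕ → N), (∀ i < j, e i ∈ Submodule.span F {D.W i false, D.W i true}) ∧
      p.m = itr (fun i => D.act (e i)) f j ∧ (0 < j → p.a = 0 ∧ p.e = 0) := by
  induction j with
  | zero =>
    intro p _
    exact ⟨0, p.m, fun i hi => by omega, rfl, fun h => absurd h (lt_irrefl 0)⟩
  | succ j ih =>
    rintro _ ⟨q, hq, r, hr, rfl⟩
    obtain ⟨e, f, h1, h2, h3⟩ := ih (by omega) r hr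
    obtain ⟨h4, h5⟩ := tau_val D (show j < 2 * D.d by omega) hq
    refine ⟨fun i => if i = j then q.e else e i, f, ?_, ?_, fun _ => ?_⟩
    · intro i hi
      beta_reduce
      by_cases hij : i = j
      · subst hij
        rw [if_pos rfl]
        exact h5
      · rw [if_neg hij]
        exact h1 i (by omega)
    · have h6 : ∀ k ≤ j, itr (fun i => D.act (if i = j then q.e else e i)) f k =
          itr (fun i => D.act (e i)) f k := by
        intro k hk
        induction k with
        | zero => rfl
        | succ k ihk =>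
          simp only [itr]
          rw [ihk (by omega), if_neg (by omega)]
      rw [mul_def]
      simp only [itr, if_true]
      rw [h6 j le_rfl, ← h2]
    · rw [mul_def]
      simp only [h4, map_zero, LinearMap.zero_apply, and_self]

/-- the model satisfies the identity -/
theorem sat : ∀ p ∈ Vals (Mdl D) (big (2 * D.d) (2 * D.d)), p = 0 := by
  intro p hp
  obtain ⟨e, f, h1, h2, h3⟩ := big_val D (2 * D.d) le_rfl p hp
  obtain ⟨h4, h5⟩ := h3 (by have := D.hd; omega)
  refine Mdl.ext h4 h5 ?_
  rw [h2]
  refine phase_zero D.d D.hd D.w D.hw _ (fun j hj => ?_) f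
  obtain ⟨a, b, hab⟩ := Submodule.mem_span_pair.1 (h1 j hj)
  exact ⟨a, b, by rw [← hab, map_add, map_smul, map_smul, D.hC j hj, D.hL j hj]⟩

/-- value of the labelled trees -/
theorem lift_lab_small (g : ℕ × Bool) (a : ℕ × Bool → Mdl D)
    (ha : a g = ⟨single (.of g) 1, 0, 0⟩) (s : Sh) (hs : s.len < LL D) :
    FreeMagma.lift a (lab g s) = ⟨single (lab g s) 1, 0, 0⟩ := by
  induction s with
  | x => exact ha
  | m s t ih1 ih2 =>
    simp only [Sh.len] at hs
    change FreeMagma.lift a (lab g s) * FreeMagma.lift a (lab g t) = _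
    rw [ih1 (by omega), ih2 (by omega), mul_def]
    refine Mdl.ext ?_ ?_ ?_
    · change bil1 D _ _ = _
      rw [bil1_single, trm, if_pos]
      · rfl
      · change (sh (lab g (.m s t))).len < _
        rw [sh_lab]
        exact hs
    · change bil2 D _ _ = _
      rw [bil2_single]
      refine eps_of_ne D fun j hj e => ?_
      change sh (lab g (.m s t)) = _ at e
      rw [sh_lab] at e
      have := len_tau (2 * D.d) j hj.le
      rw [← e] at this
      simp only [Sh.len, LL] at this hs
      omega
    · change D.act _ _ = _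
      simp

theorem lift_lab_tau {j : ℕ} (hj : j < 2 * D.d) (b : Bool) (a : ℕ × Bool → Mdl D)
    (ha : a (j, b) = ⟨single (.of (j, b)) 1, 0, 0⟩) :
    FreeMagma.lift a (lab (j, b) (tau (2 * D.d) j)) = (⟨0, D.W j b, 0⟩ : Mdl D) := by
  have hlen := len_tau (2 * D.d) j hj.le
  have he := eps_lab D hj b
  obtain ⟨s, t, hst⟩ := exists_tau_eq (2 * D.d) j
  rw [hst] at hlen he ⊢
  simp only [Sh.len] at hlen
  have := s.len_pos
  have := t.len_pos
  change FreeMagma.lift a (lab _ s) * FreeMagma.lift a (lab _ t) = _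
  rw [lift_lab_small D (j, b) a ha s (by rw [LL]; omega),
    lift_lab_small D (j, b) a ha t (by rw [LL]; omega), mul_def]
  refine Mdl.ext ?_ ?_ ?_
  · change bil1 D _ _ = _
    rw [bil1_single, trm, if_neg]
    change ¬ (sh (lab (j, b) (.m s t))).len < _
    rw [sh_lab, LL]
    simp only [Sh.len]
    omega
  · change bil2 D _ _ = _
    rw [bil2_single]
    exact he
  · change D.act _ _ = _
    simp

end Mdl

end Pool.Agent.W_59b51d_h18
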