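import Pool.Agent.W_59b51d_h18.Pairs
import Pool.Agent.W_59b51d_h18.Model

/-! The model belonging to a group. -/

namespace Pool.Agent.W_59b51d_h18

open Pool.Agent.W_MP_b13100_lc
open Finsupp (linearCombination single)

variable {F : Type} [Field F]

section

variable {G : Type} [Group G] (v : ℕ → G) (m : ℕ) (R : List Wd)

/-- the group element belonging to a relation -/
def gi (i : ℕ) : G :=
  match (Ql m R)[i]? with
  | some q => ev v q.1 * ev v q.2.1
  | none => 1

/-- the space on which the letters act -/
abbrev NN (F G : Type) [Field F] : Type := (Option ℕ × G) →₀ F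

/-- action of a main letter -/
noncomputable def opM (F : Type) [Field F] (g : G) : NN F G →ₗ[F] NN F G :=
  linearCombination F fun x => match x.1 with
    | none => single (none, g * x.2) 1
    | some _ => 0

/-- action of the second path letter -/
noncomputable def opB (F G : Type) [Field F] (i : ℕ) : NN F G →ₗ[F] NN F G :=
  linearCombination F fun x => match x.1 with
    | none => single (some i, x.2) 1
    | some _ => 0

/-- action of the first path letter -/
noncomputable def opA (F : Type) [Field F] (g : G) (i : ℕ) : NN F G →ₗ[F] NN F G :=
  linearCombination F fun x => match x.1 with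
    | none => 0
    | some k => if k = i then single (none, g * x.2) 1 else 0

theorem opM_none (g h : G) : opM F g (single (none, h) 1) = single (none, g * h) 1 := by
  simp [opM]

theorem opM_some (g h : G) (k : ℕ) : opM F g (single (some k, h) 1) = 0 := by
  simp [opM]

omit [Group G] in
theorem opB_none (h : G) (i : ℕ) : opB F G i (single (none, h) 1) = single (some i, h) 1 := by
  simp [opB]

omit [Group G] in
theorem opB_some (h : G) (i k : ℕ) : opB F G i (single (some k, h) 1) = 0 := by
  simp [opB]

theorem opA_none (g h : G) (i : ℕ) : opA F g i (single (none, h) 1) = 0 := by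
  simp [opA]

theorem opA_self (g h : G) (i : ℕ) :
    opA F g i (single (some i, h) 1) = single (none, g * h) 1 := by
  simp [opA]

/-- action of all letters -/
noncomputable def opp (F : Type) [Field F] : LT → NN F G →ₗ[F] NN F G
  | .inl w => opM F (ev v w)
  | .inr (i, false) => opB F G i
  | .inr (i, true) => opA F (gi v m R i) i

omit [Group G] in
theorem ext_single {f : NN F G →ₗ[F] NN F G} (h : ∀ x, f (single x 1) = 0) (n : NN F G) :
    f n = 0 := by
  have h1 : f = 0 := by
    refine Finsupp.lhom_ext' fun x => ?_
    ext
    simp [h x]
  rw [h1]
  rfl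

theorem pair_zero (hR : ∀ r ∈ R, ev v r = 1) {p : LF F × LF F} (hp : p ∈ RK F m R) (n : NN F G) :
    LF.val (opp v m R F) p.1 (LF.val (opp v m R F) p.2 n) = 0 := by
  obtain ⟨i, q, hq, hp⟩ := of_mem_RK hp
  have hg : gi v m R i = ev v q.1 * ev v q.2.1 := by rw [gi, hq]
  have hg' : gi v m R i = ev v q.2.2.1 * ev v q.2.2.2 := by
    rw [hg]
    exact Ql_val v hR q (List.mem_of_getElem? hq)
  suffices h : ∀ x, (LF.val (opp v m R F) p.1 ∘ₗ LF.val (opp v m R F) p.2) (single x 1) = 0 from
    ext_single h n
  rintro ⟨x, h⟩
  simp only [six, List.mem_cons, List.not_mem_nil, or_false] at hp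
  cases x with
  | none =>
    rcases hp with rfl | rfl | rfl | rfl | rfl | rfl <;>
      simp only [LF.val, List.map_cons, List.map_nil, List.sum_cons, List.sum_nil, add_zero,
        one_smul, opp, LinearMap.comp_apply, LinearMap.add_apply, LinearMap.smul_apply,
        opM_none, opB_none, opA_none, map_add, map_smul, opM_some, opA_self, smul_zero]
    · rw [hg]
      simp only [mul_assoc, zero_add, neg_smul, one_smul]
      abel
    · rw [hg']
      simp only [mul_assoc, zero_add, neg_smul, one_smul]
      abel
  | some k =>
    rcases hp with rfl | rfl | rfl | rfl | rfl | rfl <;>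
      simp only [LF.val, List.map_cons, List.map_nil, List.sum_cons, List.sum_nil, add_zero,
        one_smul, opp, LinearMap.comp_apply, LinearMap.add_apply, LinearMap.smul_apply,
        opM_some, opB_some, map_zero, smul_zero]

/-- the action of combinations of letters -/
noncomputable def actG : (Option LT →₀ F) →ₗ[F] (ℕ → NN F G) →ₗ[F] (ℕ → NN F G) :=
  linearCombination F fun o => match o with
    | none => opC (dd F m R)
    | some l => opL (dd F m R) (opp v m R F l)

theorem actG_none : actG v m R (single none 1) = opC (F := F) (dd F m R) := by
  simp [actG]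

theorem actG_some (l : LT) :
    actG v m R (single (some l) 1) = opL (dd F m R) (opp v m R F l) := by
  simp [actG]

theorem actG_val (p : LF F) : actG v m R (LF.val (fun l => single (some l) 1) p) =
    opL (dd F m R) (LF.val (opp v m R F) p) := by
  have h1 := LF.val_map (actG (F := F) v m R) (fun l => single (some l) (1 : F)) p
  have h2 := LF.val_map (opL (dd F m R)) (opp v m R F) p
  rw [h1, h2]
  simp only [actG_some]

/-- the model data -/
noncomputable def mdG (hR : ∀ r ∈ R, ev v r = 1) : MD F (NN F G) (Option LT →₀ F) where
  d := dd F m R
  hd := dd_pos F m R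
  act := actG v m R
  w j := LF.val (opp v m R F) (wf F m R j)
  W j e := if e then LF.val (fun l => single (some l) 1) (wf F m R j) else single none 1
  hC j _ := by
    simp only [Bool.false_eq_true, if_false]
    exact actG_none v m R
  hL j _ := by
    simp only [if_true]
    exact actG_val v m R _
  hw p hp n := pair_zero v m R hR (wf_pair F m R hp) n

end

end Pool.Agent.W_59b51d_h18
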