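import Pool.Agent.W_59b51d_h18.Defs
import Pool.Agent.W_MP_b13100_lc.Encode

/-! Letters, quadratic relations between them, pairs of linear forms. -/

namespace Pool.Agent.W_59b51d_h18

open Pool.Agent.W_MP_b13100_lc

/-- words -/
abbrev Wd : Type := List (ℕ × Bool)

/-- the words which are main letters -/
def wl (m : ℕ) (R : List Wd) : List Wd :=
  [] :: ((List.range m).flatMap fun i => [[(i, true)], [(i, false)]]) ++
    R.flatMap fun r => (List.range (r.length + 1)).map fun k => r.take k

/-- the quadratic relations `s t = u v` between main letters -/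
def Ql (m : ℕ) (R : List Wd) : List (Wd × Wd × Wd × Wd) :=
  ((List.range m).flatMap fun i =>
    [([(i, true)], [(i, false)], [], []), ([(i, false)], [(i, true)], [], [])]) ++
  ((wl m R).map fun w => ([], w, w, [])) ++
  (R.flatMap fun r => (List.range r.length).map fun k =>
    (r.take k, (r.drop k).take 1, r.take (k + 1), [])) ++
  R.map fun r => (r, [], [], [])

theorem nil_mem_wl (m : ℕ) (R : List Wd) : [] ∈ wl m R := by simp [wl]

theorem gen_mem_wl {m : ℕ} (R : List Wd) {l : ℕ × Bool} (h : l.1 < m) : [l] ∈ wl m R := by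
  obtain ⟨i, b⟩ := l
  simp only [wl, List.cons_append, List.mem_cons, List.mem_append, List.mem_flatMap,
    List.mem_range]
  right
  left
  refine ⟨i, h, ?_⟩
  cases b <;> simp

theorem take_mem_wl {m : ℕ} {R : List Wd} {r : Wd} (h : r ∈ R) (k : ℕ) : r.take k ∈ wl m R := by
  simp only [wl, List.cons_append, List.mem_cons, List.mem_append, List.mem_flatMap,
    List.mem_map, List.mem_range]
  right
  right
  refine ⟨r, h, min k r.length, by omega, ?_⟩
  rw [← List.take_eq_take_min]

theorem q_inv {m : ℕ} (R : List Wd) {i : ℕ} (h : i < m) (b : Bool) :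
    ([(i, b)], [(i, !b)], [], []) ∈ Ql m R := by
  simp only [Ql, List.mem_append, List.mem_flatMap, List.mem_range]
  left; left; left
  refine ⟨i, h, ?_⟩
  cases b <;> simp

theorem q_comm {m : ℕ} {R : List Wd} {w : Wd} (h : w ∈ wl m R) : ([], w, w, []) ∈ Ql m R := by
  simp only [Ql, List.mem_append, List.mem_map]
  left; left; right
  exact ⟨w, h, rfl⟩

theorem q_take {m : ℕ} {R : List Wd} {r : Wd} (h : r ∈ R) {k : ℕ} (hk : k < r.length) :
    (r.take k, [r[k]], r.take (k + 1), []) ∈ Ql m R := by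
  simp only [Ql, List.mem_append, List.mem_flatMap, List.mem_map, List.mem_range]
  left; right
  refine ⟨r, h, k, hk, ?_⟩
  rw [List.drop_eq_getElem_cons hk]
  rfl

theorem q_rel {m : ℕ} {R : List Wd} {r : Wd} (h : r ∈ R) : (r, [], [], []) ∈ Ql m R := by
  simp only [Ql, List.mem_append, List.mem_map]
  right
  exact ⟨r, h, rfl⟩

/-- the relations hold in the group -/
theorem Ql_val {m : ℕ} {R : List Wd} {G : Type} [Group G] (v : ℕ → G)
    (hR : ∀ r ∈ R, ev v r = 1) : ∀ q ∈ Ql m R,
      ev v q.1 * ev v q.2.1 = ev v q.2.2.1 * ev v q.2.2.2 := by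
  intro q hq
  simp only [Ql, List.mem_append, List.mem_flatMap, List.mem_map, List.mem_range] at hq
  rcases hq with ((⟨i, _, hq⟩ | ⟨w, _, rfl⟩) | ⟨r, hr, k, hk, rfl⟩) | ⟨r, hr, rfl⟩
  · simp only [List.mem_cons, List.not_mem_nil, or_false] at hq
    rcases hq with rfl | rfl <;> simp [ev_cons, ev_nil]
  · simp only [ev_nil]
    rw [one_mul, mul_one]
  · simp only [ev_nil, mul_one]
    rw [← ev_append, ← List.take_add]
  · simp only [ev_nil, mul_one]
    exact hR r hr

/-- letters: main letters and path letters -/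
abbrev LT : Type := Wd ⊕ (ℕ × Bool)

/-- linear forms in the letters -/
abbrev LF (F : Type) : Type := List (F × LT)

/-- the six pairs belonging to a relation with number `i` -/
def six (F : Type) [Field F] (q : Wd × Wd × Wd × Wd) (i : ℕ) : List (LF F × LF F) :=
  [([(1, .inl q.1), (1, .inr (i, true))], [(1, .inl q.2.1), (-1, .inr (i, false))]),
   ([(1, .inl q.1)], [(1, .inr (i, false))]),
   ([(1, .inr (i, true))], [(1, .inl q.2.1)]),
   ([(1, .inl q.2.2.1), (1, .inr (i, true))], [(1, .inl q.2.2.2), (-1, .inr (i, false))]),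
   ([(1, .inl q.2.2.1)], [(1, .inr (i, false))]),
   ([(1, .inr (i, true))], [(1, .inl q.2.2.2)])]

/-- all pairs -/
def RK (F : Type) [Field F] (m : ℕ) (R : List Wd) : List (LF F × LF F) :=
  (Ql m R).zipIdx.flatMap fun q => six F q.1 q.2

/-- the number of pairs -/
def dd (F : Type) [Field F] (m : ℕ) (R : List Wd) : ℕ := (RK F m R).length

theorem mem_RK {F : Type} [Field F] {m : ℕ} {R : List Wd} {q : Wd × Wd × Wd × Wd}
    (hq : q ∈ Ql m R) : ∃ i, ∀ p ∈ six F q i, p ∈ RK F m R := by
  obtain ⟨i, hi, h⟩ := List.getElem_of_mem hq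
  refine ⟨i, fun p hp => ?_⟩
  rw [RK, List.mem_flatMap]
  refine ⟨(q, i), ?_, hp⟩
  rw [List.mem_zipIdx_iff_getElem?]
  simp [List.getElem?_eq_getElem hi, h]

theorem of_mem_RK {F : Type} [Field F] {m : ℕ} {R : List Wd} {p : LF F × LF F}
    (hp : p ∈ RK F m R) : ∃ i, ∃ q, (Ql m R)[i]? = some q ∧ p ∈ six F q i := by
  rw [RK, List.mem_flatMap] at hp
  obtain ⟨⟨q, i⟩, h1, h2⟩ := hp
  rw [List.mem_zipIdx_iff_getElem?] at h1
  exact ⟨i, q, h1, h2⟩

theorem dd_pos (F : Type) [Field F] (m : ℕ) (R : List Wd) : 0 < dd F m R := by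
  obtain ⟨i, hi⟩ := mem_RK (F := F) (q_comm (nil_mem_wl m R))
  exact List.length_pos_of_mem (hi _ (List.mem_cons_self ..))

/-- the linear forms, first all right factors and then all left factors -/
def wf (F : Type) [Field F] (m : ℕ) (R : List Wd) (j : ℕ) : LF F :=
  if j < dd F m R then ((RK F m R).getD j ([], [])).2
  else ((RK F m R).getD (j - dd F m R) ([], [])).1

theorem exists_wf {F : Type} [Field F] {m : ℕ} {R : List Wd} {p : LF F × LF F}
    (hp : p ∈ RK F m R) : ∃ o < dd F m R, wf F m R o = p.2 ∧ wf F m R (o + dd F m R) = p.1 := by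
  obtain ⟨o, ho, h⟩ := List.getElem_of_mem hp
  have ho' : o < dd F m R := ho
  refine ⟨o, ho, ?_, ?_⟩
  · rw [wf, if_pos ho', List.getD_eq_getElem _ _ ho, h]
  · have h1 : ¬ o + dd F m R < dd F m R := by omega
    rw [wf, if_neg h1, Nat.add_sub_cancel, List.getD_eq_getElem _ _ ho, h]

theorem wf_pair (F : Type) [Field F] (m : ℕ) (R : List Wd) {o : ℕ} (ho : o < dd F m R) :
    (wf F m R (o + dd F m R), wf F m R o) ∈ RK F m R := by
  have h1 : ¬ o + dd F m R < dd F m R := by omega
  rw [wf, wf, if_pos ho, if_neg h1, Nat.add_sub_cancel, List.getD_eq_getElem _ _ ho]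
  exact List.getElem_mem ho

/-- value of a linear form -/
def LF.val {F Q : Type} [Field F] [AddCommMonoid Q] [Module F Q] (l : LT → Q) (p : LF F) : Q :=
  (p.map fun q => q.1 • l q.2).sum

theorem LF.val_map {F Q Q' : Type} [Field F] [AddCommMonoid Q] [Module F Q] [AddCommMonoid Q']
    [Module F Q'] (f : Q →ₗ[F] Q') (l : LT → Q) (p : LF F) :
    f (LF.val l p) = LF.val (fun x => f (l x)) p := by
  rw [LF.val, map_list_sum, List.map_map]
  simp [LF.val, Function.comp_def]

end Pool.Agent.W_59b51d_h18
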