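import Pool.Agent.W_59b51d_h18.Derive
import Pool.Agent.W_59b51d_h18.ModelG

/-! The presentation, its consequences and its model. -/

namespace Pool.Agent.W_59b51d_h18

open Pool.Agent.W_MP_b13100_lc
open Finsupp (linearCombination single)

/-- the generators -/
inductive Bg : Type
  | l : LT → Bg
  | c : Bg
  | b : Bg
  | g : ℕ × Bool → Bg
  deriving DecidableEq

/-- iterated multiplication by `c` -/
def tC : ℕ → FreeMagma Bg → FreeMagma Bg
  | 0, t => t
  | k + 1, t => .mul (.of .c) (tC k t)

/-- operator of a main letter -/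
def tS (d : ℕ) (w : Wd) (t : FreeMagma Bg) : FreeMagma Bg :=
  tC (d - 1) (.mul (.of (.l (.inl w))) t)

/-- first word -/
def tr1 (d κ x t n : ℕ) : FreeMagma Bg :=
  tS d [(κ, true)] ((tS d [(x, true)])^[n] (tS d [(t, true)] ((tS d [(x, false)])^[n] (.of .b))))

/-- second word -/
def tr2 (d κ x t n : ℕ) : FreeMagma Bg :=
  (tS d [(x, true)])^[n] (tS d [(t, true)] ((tS d [(x, false)])^[n]
    (tS d [(κ, true)] (.of .b))))

section

variable {A : Type} [NonUnitalNonAssocRing A] (a : Bg → A)

theorem lift_tC (k : ℕ) (t : FreeMagma Bg) :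
    FreeMagma.lift a (tC k t) = Cp (a .c) k (FreeMagma.lift a t) := by
  induction k with
  | zero => rfl
  | succ k ih =>
    change a .c * FreeMagma.lift a (tC k t) = _
    rw [ih]
    rfl

theorem lift_tS (d : ℕ) (w : Wd) (t : FreeMagma Bg) : FreeMagma.lift a (tS d w t) =
    So (a .c) d (fun x => a (.l x)) w (FreeMagma.lift a t) := by
  rw [tS, lift_tC]
  rfl

theorem lift_tS_iter (d : ℕ) (w : Wd) (n : ℕ) (t : FreeMagma Bg) :
    FreeMagma.lift a ((tS d w)^[n] t) =
      (So (a .c) d (fun x => a (.l x)) w)^[n] (FreeMagma.lift a t) := by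
  induction n generalizing t with
  | zero => rfl
  | succ n ih => rw [Function.iterate_succ_apply, Function.iterate_succ_apply, ih, lift_tS]

end

theorem lift_lab_eq {X Y A : Type} [Mul A] (a : X → A) (a' : Y → A) (g : X) (g' : Y)
    (h : a g = a' g') (s : Sh) :
    FreeMagma.lift a (lab g s) = FreeMagma.lift a' (lab g' s) := by
  induction s with
  | x => exact h
  | m s t ih1 ih2 =>
    change FreeMagma.lift a (lab g s) * FreeMagma.lift a (lab g t) =
      FreeMagma.lift a' (lab g' s) * FreeMagma.lift a' (lab g' t)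
    rw [ih1, ih2]

variable (F : Type) [Field F] (m : ℕ) (R : List Wd)

/-- relator of the first kind -/
def relC (j : ℕ) : Poly F Bg :=
  [(1, lab (.g (j, false)) (tau (2 * dd F m R) j)), (-1, .of .c)]

/-- relator of the second kind -/
def relW (j : ℕ) : Poly F Bg :=
  (1, lab (.g (j, true)) (tau (2 * dd F m R) j)) ::
    (wf F m R j).map fun q => (-q.1, .of (.l q.2))

/-- relator for the bottom -/
def relb : Poly F Bg := [(1, tS (dd F m R) [] (.of .b)), (-1, .of .b)]

/-- the relators -/
def rels : List (Poly F Bg) :=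
  relb F m R :: (List.range (2 * dd F m R)).flatMap fun j => [relC F m R j, relW F m R j]

variable {F}

section

variable {A : Type} [NonUnitalNonAssocRing A] [Module F A]

theorem eval_relC (a : Bg → A) (j : ℕ) : (relC F m R j).eval a = 0 ↔
    FreeMagma.lift a (lab (.g (j, false)) (tau (2 * dd F m R) j)) = a .c := by
  have : FreeMagma.lift a (FreeMagma.of Bg.c) = a .c := rfl
  simp only [relC, Poly.eval, List.map_cons, List.map_nil, List.sum_cons, List.sum_nil, one_smul,
    neg_smul, add_zero, this]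
  rw [← sub_eq_add_neg, sub_eq_zero]

theorem eval_relb (a : Bg → A) : (relb F m R).eval a = 0 ↔
    So (a .c) (dd F m R) (fun x => a (.l x)) [] (a .b) = a .b := by
  have : FreeMagma.lift a (FreeMagma.of Bg.b) = a .b := rfl
  simp only [relb, Poly.eval, List.map_cons, List.map_nil, List.sum_cons, List.sum_nil, one_smul,
    neg_smul, add_zero, lift_tS, this]
  rw [← sub_eq_add_neg, sub_eq_zero]

theorem eval_relW (a : Bg → A) (j : ℕ) : (relW F m R j).eval a = 0 ↔
    FreeMagma.lift a (lab (.g (j, true)) (tau (2 * dd F m R) j)) =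
      LF.val (fun x => a (.l x)) (wf F m R j) := by
  have h : ∀ p : LF F, ((p.map fun q => ((-q.1, FreeMagma.of (Bg.l q.2)) : F × FreeMagma Bg)).map
      fun q => q.1 • FreeMagma.lift a q.2).sum = -LF.val (fun x => a (.l x)) p := by
    intro p
    induction p with
    | nil => simp [LF.val]
    | cons q p ih =>
      have h1 : FreeMagma.lift a (FreeMagma.of (Bg.l q.2)) = a (.l q.2) := rfl
      have h2 : LF.val (fun x => a (.l x)) (q :: p) =
        q.1 • a (.l q.2) + LF.val (fun x => a (.l x)) p := by simp [LF.val]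
      rw [List.map_cons, List.map_cons, List.sum_cons, ih, h2, neg_add]
      simp only [h1, neg_smul]
  simp only [relW, Poly.eval, List.map_cons, List.sum_cons, one_smul]
  rw [h, ← sub_eq_add_neg, sub_eq_zero]

theorem eval_rels (a : Bg → A) (h : ∀ p ∈ rels F m R, p.eval a = 0) :
    (So (a .c) (dd F m R) (fun x => a (.l x)) [] (a .b) = a .b) ∧
    (∀ j < 2 * dd F m R,
      FreeMagma.lift a (lab (.g (j, false)) (tau (2 * dd F m R) j)) = a .c ∧
      FreeMagma.lift a (lab (.g (j, true)) (tau (2 * dd F m R) j)) =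
        LF.val (fun x => a (.l x)) (wf F m R j)) := by
  refine ⟨(eval_relb m R a).1 (h _ (by simp [rels])), fun j hj => ?_⟩
  have h1 : relC F m R j ∈ rels F m R := by
    simp only [rels, List.mem_cons, List.mem_flatMap, List.mem_range]
    exact Or.inr ⟨j, hj, Or.inl rfl⟩
  have h2 : relW F m R j ∈ rels F m R := by
    simp only [rels, List.mem_cons, List.mem_flatMap, List.mem_range]
    exact Or.inr ⟨j, hj, Or.inr (Or.inl rfl)⟩
  exact ⟨(eval_relC m R a j).1 (h _ h1), (eval_relW m R a j).1 (h _ h2)⟩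

theorem rels_eval (a : Bg → A)
    (h1 : So (a .c) (dd F m R) (fun x => a (.l x)) [] (a .b) = a .b)
    (h2 : ∀ j < 2 * dd F m R,
      FreeMagma.lift a (lab (.g (j, false)) (tau (2 * dd F m R) j)) = a .c ∧
      FreeMagma.lift a (lab (.g (j, true)) (tau (2 * dd F m R) j)) =
        LF.val (fun x => a (.l x)) (wf F m R j)) : ∀ p ∈ rels F m R, p.eval a = 0 := by
  intro p hp
  simp only [rels, List.mem_cons, List.mem_flatMap, List.mem_range, List.not_mem_nil,
    or_false] at hp
  rcases hp with rfl | ⟨j, hj, rfl | rfl⟩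
  · exact (eval_relb m R a).2 h1
  · exact (eval_relC m R a j).2 (h2 j hj).1
  · exact (eval_relW m R a j).2 (h2 j hj).2

/-- First half: the two words agree in every algebra of the variety. -/
theorem half1 (hsat : ∀ p ∈ Vals A (big (2 * dd F m R) (2 * dd F m R)), p = 0) (a : Bg → A)
    (h : ∀ p ∈ rels F m R, p.eval a = 0) (hR : ∀ r ∈ R, ∀ x ∈ r, x.1 < m) (κ x t n : ℕ)
    (hκ : κ < m) (hx : x < m) (ht : t < m)
    (hG : ∀ (G : Type) (_ : Group G) (v : ℕ → G), (∀ r ∈ R, ev v r = 1) →
      Commute (v κ) (v x ^ n * v t * (v x ^ n)⁻¹)) :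
    FreeMagma.lift a (tr1 (dd F m R) κ x t n) = FreeMagma.lift a (tr2 (dd F m R) κ x t n) := by
  obtain ⟨hb, hj⟩ := eval_rels m R a h
  have hX : ∀ X : ℕ → A, (∀ j < 2 * dd F m R, X j ∈ Vals A (tau (2 * dd F m R) j)) → ∀ y,
      itA X y (2 * dd F m R) = 0 := by
    intro X hX y
    have key : ∀ j ≤ 2 * dd F m R, itA X y j ∈ Vals A (big (2 * dd F m R) j) := by
      intro j
      induction j with
      | zero => intro _; exact Set.mem_univ _
      | succ j ih => intro hj; exact ⟨_, hX j (by omega), _, ih (by omega), rfl⟩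
    exact hsat _ (key _ le_rfl)
  have hc : ∀ j < 2 * dd F m R, a .c ∈ Vals A (tau (2 * dd F m R) j) := by
    intro j hj'
    rw [← (hj j hj').1]
    have := lift_mem_vals a (lab (.g (j, false)) (tau (2 * dd F m R) j))
    rwa [sh_lab] at this
  have hw : ∀ j < 2 * dd F m R,
      LF.val (fun x => a (.l x)) (wf F m R j) ∈ Vals A (tau (2 * dd F m R) j) := by
    intro j hj'
    rw [← (hj j hj').2]
    have := lift_mem_vals a (lab (.g (j, true)) (tau (2 * dd F m R) j))
    rwa [sh_lab] at this
  have hpair : ∀ p ∈ RK F m R, ∀ y, Sp (a .c) (dd F m R) (LF.val (fun x => a (.l x)) p.1)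
      (Sp (a .c) (dd F m R) (LF.val (fun x => a (.l x)) p.2)
        (Cp (a .c) (dd F m R - 1) y)) = 0 := by
    intro p hp y
    obtain ⟨o, ho, h1, h2⟩ := exists_wf hp
    rw [← h1, ← h2]
    refine Sp_pair _ _ _ _ o ho ?_ y
    intro X hXc hXo hXd
    refine hX X fun j hj' => ?_
    by_cases h3 : j = o
    · subst h3
      rw [hXo]
      exact hw _ hj'
    · by_cases h4 : j = o + dd F m R
      · subst h4
        rw [hXd]
        exact hw _ hj'
      · rw [hXc j hj' h3 h4]
        exact hc j hj'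
  have h1 := derive F (a .c) (a .b) (dd F m R) (fun x => a (.l x)) m R hpair hb hR κ x t n hκ hx
    ht hG
  have hb' : FreeMagma.lift a (FreeMagma.of Bg.b) = a .b := rfl
  rw [tr1, tr2]
  simp only [lift_tS, lift_tS_iter, hb']
  exact h1

end

/-! ### The model -/

section

variable {G : Type} [Group G] (v : ℕ → G) (hv : ∀ r ∈ R, ev v r = 1)

/-- a vector in one phase -/
def dl {N : Type} [AddCommGroup N] (p : ℕ) (n : N) : ℕ → N := fun q => if q = p then n else 0

theorem opL_dl {N : Type} [AddCommGroup N] [Module F N] {d : ℕ} (hd : 0 < d) (w : N →ₗ[F] N)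
    (n : N) : opL d w (dl 0 n) = dl (d - 1) (w n) := by
  funext q
  rw [opL_apply, dl, dl, if_pos rfl]
  by_cases h : q + 1 = d
  · rw [if_pos h, if_pos (by omega)]
  · rw [if_neg h, if_neg (by omega)]

theorem opC_dl {N : Type} [AddCommGroup N] [Module F N] {d : ℕ} (p : ℕ) (hp : p + 1 < d) (n : N) :
    opC (F := F) d (dl (p + 1) n) = dl p n := by
  funext q
  rw [opC_apply, dl, dl]
  by_cases h : q = p
  · subst h
    rw [if_pos hp, if_pos rfl, if_pos rfl]
  · rw [if_neg h]
    split_ifs with h1 h2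
    · omega
    · rfl
    · rfl

/-- the assignment -/
noncomputable def asg : Bg → Mdl (mdG (F := F) v m R hv)
  | .l x => ⟨0, single (some x) 1, 0⟩
  | .c => ⟨0, single none 1, 0⟩
  | .b => ⟨0, 0, dl 0 (single (none, 1) 1)⟩
  | .g x => ⟨single (.of x) 1, 0, 0⟩

theorem Cp_dl (k p : ℕ) (hp : p + k < dd F m R) (n : NN F G) :
    Cp (asg m R v hv .c) k (⟨0, 0, dl (p + k) n⟩ : Mdl (mdG (F := F) v m R hv)) =
      ⟨0, 0, dl p n⟩ := by
  induction k generalizing p with
  | zero => rfl
  | succ k ih =>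
    have h1 := ih (p + 1) (by omega)
    rw [show p + 1 + k = p + (k + 1) by omega] at h1
    rw [Cp, h1, Mdl.mul_def]
    refine Mdl.ext ?_ ?_ ?_
    · simp [asg]
    · simp [asg]
    · change actG v m R (single none 1) (dl (p + 1) n) = dl p n
      rw [actG_none, opC_dl p (by omega)]

theorem So_dl (w : Wd) (n : NN F G) :
    So (asg m R v hv .c) (dd F m R) (fun x => asg m R v hv (.l x)) w
      (⟨0, 0, dl 0 n⟩ : Mdl (mdG (F := F) v m R hv)) = ⟨0, 0, dl 0 (opM F (ev v w) n)⟩ := by
  have hd := dd_pos F m R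
  have h1 : asg m R v hv (.l (.inl w)) * (⟨0, 0, dl 0 n⟩ : Mdl (mdG (F := F) v m R hv)) =
      ⟨0, 0, dl (0 + (dd F m R - 1)) (opM F (ev v w) n)⟩ := by
    rw [Mdl.mul_def]
    refine Mdl.ext ?_ ?_ ?_
    · simp [asg]
    · simp [asg]
    · change actG v m R (single (some (.inl w)) 1) (dl 0 n) = _
      rw [actG_some, opL_dl hd, Nat.zero_add]
      rfl
  rw [So, Sp, h1, Cp_dl m R v hv _ 0 (by omega)]

theorem So_dl_iter (w : Wd) (k : ℕ) (g : G) :
    (So (asg m R v hv .c) (dd F m R) (fun x => asg m R v hv (.l x)) w)^[k]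
      (⟨0, 0, dl 0 (single (none, g) 1)⟩ : Mdl (mdG (F := F) v m R hv)) =
        ⟨0, 0, dl 0 (single (none, ev v w ^ k * g) 1)⟩ := by
  induction k generalizing g with
  | zero => simp
  | succ k ih =>
    rw [Function.iterate_succ_apply, So_dl, opM_none, ih, pow_succ, mul_assoc]

/-- inclusion of the letters -/
noncomputable def inE : (Option LT →₀ F) →ₗ[F] Mdl (mdG (F := F) v m R hv) where
  toFun e := ⟨0, e, 0⟩
  map_add' e e' := by ext1 <;> simp
  map_smul' c e := by ext1 <;> simp

theorem asg_rels : ∀ p ∈ rels F m R, p.eval (asg (F := F) m R v hv) = 0 := by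
  have hlab : ∀ j < 2 * dd F m R, ∀ e : Bool,
      FreeMagma.lift (asg (F := F) m R v hv) (lab (.g (j, e)) (tau (2 * dd F m R) j)) =
        ⟨0, (mdG (F := F) v m R hv).W j e, 0⟩ := by
    intro j hj e
    rw [lift_lab_eq (asg (F := F) m R v hv) (fun x => asg (F := F) m R v hv (.g x))
      (.g (j, e)) (j, e) rfl]
    exact Mdl.lift_lab_tau (mdG (F := F) v m R hv) hj e _ rfl
  refine rels_eval m R _ ?_ fun j hj => ⟨?_, ?_⟩
  · have h1 := So_dl_iter (F := F) m R v hv [] 1 1
    simp only [Function.iterate_one, ev_nil, one_pow, mul_one] at h1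
    exact h1
  · rw [hlab j hj]
    rfl
  · rw [hlab j hj]
    have h1 := LF.val_map (inE (F := F) m R v hv) (fun l => single (some l) (1 : F)) (wf F m R j)
    exact h1

/-- Second half: the two words differ in the model. -/
theorem half2 (κ x t n : ℕ) (h : ¬ Commute (v κ) (v x ^ n * v t * (v x ^ n)⁻¹)) :
    FreeMagma.lift (asg (F := F) m R v hv) (tr1 (dd F m R) κ x t n) ≠
      FreeMagma.lift (asg (F := F) m R v hv) (tr2 (dd F m R) κ x t n) := by
  intro e
  apply h
  have hb' : FreeMagma.lift (asg (F := F) m R v hv) (FreeMagma.of Bg.b) =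
    ⟨0, 0, dl 0 (single (none, 1) 1)⟩ := rfl
  rw [tr1, tr2] at e
  simp only [lift_tS, lift_tS_iter, hb', So_dl_iter, So_dl, opM_none] at e
  have e1 := congrArg Mdl.m e
  have e2 := congrFun e1 0
  simp only [dl, if_true] at e2
  have e3 := Finsupp.single_left_injective (one_ne_zero (α := F)) e2
  simp only [Prod.mk.injEq, true_and, ev_cons, ev_nil, if_true, Bool.false_eq_true, if_false,
    mul_one, inv_pow] at e3
  rw [Commute, SemiconjBy]
  simp only [mul_assoc] at e3 ⊢
  exact e3

end

end Pool.Agent.W_59b51d_h18
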