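import Pool.Agent.W_59b51d_h18.SDefs

/-!
# Basic facts about the definitions of the solvable side
-/

set_option linter.unusedSectionVars false

namespace Pool.Agent.W_59b51d_h18

section Free

variable {F X : Type} [Field F]

lemma height_of (x : X) : height (FreeMagma.of x) = 0 := rfl

lemma height_mul (s t : FreeMagma X) : height (s * t) = max (height s) (height t) + 1 := rfl

lemma mulP_tr (m m' : FreeMagma X) : mulP F X (tr F m) (tr F m') = tr F (m * m') := by
  simp [mulP, tr]

/-- Induction for elements of the free nonassociative algebra. -/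
lemma NA_induction {motive : NA F X → Prop} (h0 : motive 0)
    (hadd : ∀ p q, motive p → motive q → motive (p + q))
    (hsm : ∀ (c : F) (m : FreeMagma X), motive (c • tr F m)) (p : NA F X) : motive p := by
  induction p using Finsupp.induction_linear with
  | zero => exact h0
  | add p q hp hq => exact hadd p q hp hq
  | single m c =>
    have := hsm c m
    rwa [tr, Finsupp.smul_single, smul_eq_mul, mul_one] at this

lemma tr_mem_Tr {h : ℕ} {m : FreeMagma X} (hm : height m ≤ h) : tr F m ∈ Tr F X h :=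
  Submodule.subset_span ⟨m, hm, rfl⟩

lemma Tr_mono {h h' : ℕ} (hh : h ≤ h') : Tr F X h ≤ Tr F X h' := by
  refine Submodule.span_mono ?_
  rintro p ⟨m, hm, rfl⟩
  exact ⟨m, hm.trans hh, rfl⟩

/-- Linear induction on `Tr`. -/
lemma Tr_le {h : ℕ} {M : Submodule F (NA F X)}
    (hM : ∀ m : FreeMagma X, height m ≤ h → tr F m ∈ M) : Tr F X h ≤ M := by
  refine Submodule.span_le.2 ?_
  rintro p ⟨m, hm, rfl⟩
  exact hM m hm

lemma toP_mem_Tr {h : ℕ} (w : Poly F X) (hw : ∀ q ∈ w, height q.2 ≤ h) : toP w ∈ Tr F X h := by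
  induction w with
  | nil => exact zero_mem _
  | cons q w ih =>
    have h1 : toP (q :: w) = Finsupp.single q.2 q.1 + toP w := by simp [toP]
    rw [h1]
    refine add_mem ?_ (ih fun q' hq' => hw q' (List.mem_cons_of_mem _ hq'))
    have h2 : Finsupp.single q.2 q.1 = q.1 • tr F q.2 := by
      rw [tr, Finsupp.smul_single, smul_eq_mul, mul_one]
    rw [h2]
    exact Submodule.smul_mem _ _ (tr_mem_Tr (hw q (List.mem_cons_self)))

variable {T : List (FreeMagma ℕ)} {r : List (Poly F X)}

lemma Gen.mono {H H' : ℕ} {p : NA F X} (h : Gen T r H p) (hH : H ≤ H') : Gen T r H' p := by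
  induction h generalizing H' with
  | rel hp => exact Gen.rel hp
  | inst ht hc => exact Gen.inst ht fun i => (hc i).trans hH
  | mulr _ hm ih =>
    obtain ⟨k, rfl⟩ : ∃ k, H' = k + 1 := ⟨H' - 1, by omega⟩
    exact Gen.mulr (ih (by omega)) (by omega)
  | mull _ hm ih =>
    obtain ⟨k, rfl⟩ : ∃ k, H' = k + 1 := ⟨H' - 1, by omega⟩
    exact Gen.mull (ih (by omega)) (by omega)

lemma Cons_mono {H H' : ℕ} (hH : H ≤ H') : Cons T r H ≤ Cons T r H' :=
  Submodule.span_mono fun _ hp => Gen.mono hp hH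

lemma Gen.mem {H : ℕ} {p : NA F X} (h : Gen T r H p) : p ∈ Cons T r H := Submodule.subset_span h

lemma EE_mono {S : Finset (FreeMagma ℕ)} {H H' : ℕ} (hH : H ≤ H') :
    EE F X S H ≤ EE F X S H' := by
  refine Submodule.span_mono ?_
  rintro p ⟨τ, hτ, c, hc, rfl⟩
  exact ⟨τ, hτ, c, fun i => (hc i).trans hH, rfl⟩

lemma EE_subset {S S' : Finset (FreeMagma ℕ)} {H : ℕ} (hS : S ⊆ S') :
    EE F X S H ≤ EE F X S' H := by
  refine Submodule.span_mono ?_
  rintro p ⟨τ, hτ, c, hc, rfl⟩
  exact ⟨τ, hS hτ, c, hc, rfl⟩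

lemma DD_mono {S : Finset (FreeMagma ℕ)} {H H' : ℕ} (hH : H ≤ H') :
    DD T r S H ≤ DD T r S H' :=
  sup_le_sup (EE_mono hH) (Cons_mono hH)

lemma DD_subset {S S' : Finset (FreeMagma ℕ)} {H : ℕ} (hS : S ⊆ S') :
    DD T r S H ≤ DD T r S' H :=
  sup_le_sup (EE_subset hS) le_rfl

lemma tr_mem_DD {S : Finset (FreeMagma ℕ)} {H : ℕ} {τ : FreeMagma ℕ} (hτ : τ ∈ S)
    {c : ℕ → FreeMagma X} (hc : ∀ i, height (c i) ≤ H) :
    tr F (FreeMagma.lift c τ) ∈ DD T r S H :=
  Submodule.mem_sup_left (Submodule.subset_span ⟨τ, hτ, c, hc, rfl⟩)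

lemma Cons_le_DD {S : Finset (FreeMagma ℕ)} {H : ℕ} : Cons T r H ≤ DD T r S H := le_sup_right

lemma DD_empty {H : ℕ} : DD T r ∅ H = Cons T r H := by
  refine le_antisymm (sup_le ?_ le_rfl) le_sup_right
  refine Submodule.span_le.2 ?_
  rintro p ⟨τ, hτ, _⟩
  simp at hτ

end Free

section Algebra

variable {F : Type} [Field F] {X A : Type} [NonUnitalNonAssocRing A] [Module F A]
  [IsScalarTower F A A] [SMulCommClass F A A]

lemma ev_tr (a : X → A) (m : FreeMagma X) : ev F a (tr F m) = FreeMagma.lift a m := by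
  simp [ev, tr]

lemma ev_mulP (a : X → A) (p q : NA F X) : ev F a (mulP F X p q) = ev F a p * ev F a q := by
  induction p using NA_induction with
  | h0 => simp
  | hadd p p' hp hp' => simp [add_mul, hp, hp']
  | hsm c m =>
    induction q using NA_induction with
    | h0 => simp
    | hadd q q' hq hq' => simp only [map_add, mul_add, hq, hq']
    | hsm c' m' =>
      simp only [map_smul, LinearMap.smul_apply, mulP_tr, ev_tr, map_mul, smul_mul_smul_comm]
      rw [smul_smul, mul_comm]

lemma ev_toP (a : X → A) (w : Poly F X) : ev F a (toP w) = w.eval a := by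
  induction w with
  | nil => simp [toP, Poly.eval]
  | cons q w ih =>
    have h1 : toP (q :: w) = Finsupp.single q.2 q.1 + toP w := by simp [toP]
    have h2 : Poly.eval a (q :: w) = q.1 • FreeMagma.lift a q.2 + Poly.eval a w := by
      simp [Poly.eval]
    rw [h1, h2, map_add, ih]
    simp [ev]

lemma lift_lift (a : X → A) (c : ℕ → FreeMagma X) (t : FreeMagma ℕ) :
    FreeMagma.lift a (FreeMagma.lift c t) = FreeMagma.lift (fun i => FreeMagma.lift a (c i)) t := by
  induction t using FreeMagma.rec with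
  | of i => rfl
  | mul s t hs ht =>
    change FreeMagma.lift a (FreeMagma.lift c s * FreeMagma.lift c t) =
      FreeMagma.lift _ s * FreeMagma.lift _ t
    rw [map_mul, hs, ht]

lemma AS_of (i : ℕ) : AS F A (FreeMagma.of i) = ⊤ := rfl

lemma AS_mul (s t : FreeMagma ℕ) :
    AS F A (s * t) = Submodule.map₂ (LinearMap.mul F A) (AS F A s) (AS F A t) := rfl

lemma lift_mem_AS (v : ℕ → A) (t : FreeMagma ℕ) : FreeMagma.lift v t ∈ AS F A t := by
  induction t using FreeMagma.rec with
  | of i => trivial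
  | mul s t hs ht => exact Submodule.apply_mem_map₂ (LinearMap.mul F A) hs ht

lemma AS_le_SS {S : Finset (FreeMagma ℕ)} {τ : FreeMagma ℕ} (hτ : τ ∈ S) :
    AS F A τ ≤ SS F A S :=
  le_iSup₂_of_le τ hτ le_rfl

lemma SS_mono {S S' : Finset (FreeMagma ℕ)} (h : S ⊆ S') : SS F A S ≤ SS F A S' :=
  biSup_mono h

lemma SS_union (S S' : Finset (FreeMagma ℕ)) : SS F A (S ∪ S') = SS F A S ⊔ SS F A S' := by
  rw [SS, Finset.iSup_union]; rfl

lemma SS_empty : SS F A ∅ = ⊥ := by simp [SS]

end Algebra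

end Pool.Agent.W_59b51d_h18
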