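import Pool.Agent.W_59b51d_h18.SLinX

/-!
# Extension of a bilinear map vanishing on products of subspaces
-/

namespace Pool.Agent.W_59b51d_h18

/-- Linear maps vanishing on `P ⊓ Q` are sums of linear maps vanishing on `P` and on `Q`.

Proof. `exists_factor` (with `H0 = ⊤`) for `P × Q → A`, `(p, q) ↦ p + q` and `ψ (p, q) = f q` (if
`p + q = 0`, then `q ∈ P ⊓ Q`) gives `g` which is `0` on `P` and `f` on `Q`; put `g' = f - g`. -/
theorem exists_split {F A Z : Type} [Field F] [AddCommGroup A] [Module F A] [AddCommGroup Z]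
    [Module F Z] (P Q : Submodule F A) (f : A →ₗ[F] Z) (hf : ∀ a ∈ P, a ∈ Q → f a = 0) :
    ∃ g g' : A →ₗ[F] Z, g + g' = f ∧ (∀ a ∈ P, g a = 0) ∧ ∀ a ∈ Q, g' a = 0 := by
  obtain ⟨g, hg, -⟩ := exists_factor (P.subtype.coprod Q.subtype)
    ((f.comp Q.subtype).comp (LinearMap.snd F P Q))
    (by
      rintro ⟨⟨p, hp⟩, ⟨q, hq⟩⟩ h
      have h' : p + q = 0 := h
      have hq' : q = - p := eq_neg_of_add_eq_zero_right h'
      exact hf q (by rw [hq']; exact P.neg_mem hp) hq) ⊤ (fun _ => trivial)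
  refine ⟨g, f - g, by abel, fun a ha => ?_, fun a ha => ?_⟩
  · have := hg (⟨a, ha⟩, 0)
    simpa using this
  · have := hg (0, ⟨a, ha⟩)
    have e : g a = f a := by simpa using this
    rw [LinearMap.sub_apply, e, sub_self]

/-- The linear maps which vanish on a subspace. -/
def vanishOn {F B : Type} (Z : Type) [Field F] [AddCommGroup B] [Module F B] [AddCommGroup Z]
    [Module F Z] (S : Submodule F B) : Submodule F (B →ₗ[F] Z) where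
  carrier := {f | ∀ b ∈ S, f b = 0}
  add_mem' := by
    intro f g hf hg b hb
    rw [LinearMap.add_apply, hf b hb, hg b hb, add_zero]
  zero_mem' := by
    intro b _
    rfl
  smul_mem' := by
    intro c f hf b hb
    rw [LinearMap.smul_apply, hf b hb, smul_zero]

theorem mem_vanishOn {F B Z : Type} [Field F] [AddCommGroup B] [Module F B] [AddCommGroup Z]
    [Module F Z] (S : Submodule F B) (f : B →ₗ[F] Z) :
    f ∈ vanishOn Z S ↔ ∀ b ∈ S, f b = 0 := Iff.rfl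

theorem vanishOn_anti {F B Z : Type} [Field F] [AddCommGroup B] [Module F B] [AddCommGroup Z]
    [Module F Z] {S T : Submodule F B} (h : S ≤ T) : vanishOn Z T ≤ vanishOn Z S :=
  fun _ hf b hb => hf b (h hb)

theorem mem_sup_vanishOn {F B Z : Type} [Field F] [AddCommGroup B] [Module F B] [AddCommGroup Z]
    [Module F Z] (P Q : Submodule F B) (f : B →ₗ[F] Z) (hf : ∀ a ∈ P, a ∈ Q → f a = 0) :
    f ∈ vanishOn Z P ⊔ vanishOn Z Q := by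
  obtain ⟨g, g', h, h1, h2⟩ := exists_split P Q f hf
  rw [← h]
  exact Submodule.add_mem_sup h1 h2

/-- **Lemma E.** Let `V`, `W ≤ U1 ⊓ U3`, `W' ≤ U2 ⊓ U4` be subspaces of `A` and let `β₀` be a
bilinear map, of which only the values on `V × V` matter. If on `V × V` it vanishes on
`W × V`, `V × W'`, `U1 × U2`, `U3 × U4`, `(U1 ⊔ U3) × (U2 ⊓ U4)` and `(U1 ⊓ U3) × (U2 ⊔ U4)`, then
it can be changed outside of `V × V` so that it vanishes on `W × A`, `A × W'`, `U1 × U2`, `U3 × U4`.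

Proof. Step 1. Apply `lemmaX` to `H = (V →ₗ Z)` (`V` as a type), to `φ : A → H`,
`φ a = β₀ a` restricted to `V`, to `H0 = {f | f = 0 on V ⊓ W'}`, `H1 = {f | f = 0 on V ⊓ U2}`,
`H3 = {f | f = 0 on V ⊓ U4}`, `H13 = {f | f = 0 on V ⊓ (U2 ⊔ U4)}`, with the subspaces `V`, `U1`,
`U3`, `W` of `A`. By `exists_split` (in `V`, for the subspaces `V ⊓ U2`, `V ⊓ U4`) `H1 ⊔ H3`
contains all `f` which vanish on `V ⊓ U2 ⊓ U4`. The result is a bilinear `β1 : A → V → Z` which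
extends `β₀` and vanishes on `W × V`, `A × (V ⊓ W')`, `U1 × (V ⊓ U2)`, `U3 × (V ⊓ U4)`,
`(U1 ⊓ U3) × (V ⊓ (U2 ⊔ U4))`, and, being bilinear, on `(U1 ⊔ U3) × (V ⊓ U2 ⊓ U4)`.
Step 2. Let `φ : A → (A →ₗ Z)` be a linear map with `φ b = β1 (·, b)` for `b ∈ V`
(`LinearMap.exists_extend` for the flipped map `V → (A →ₗ Z)`). Apply `lemmaX` to
`H = (A →ₗ Z)`, `H0 = {f | f = 0 on W}`, `H1 = {f | f = 0 on U1}`, `H3 = {f | f = 0 on U3}`,
`H13 = {f | f = 0 on U1 ⊔ U3}`, and to the subspaces `V`, `U2`, `U4`, `W'` of `A`.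
For `b ∈ V ⊓ (U2 ⊔ U4)`, `φ b` vanishes on `U1 ⊓ U3`, hence is in `H1 ⊔ H3` by `exists_split`. The
result, flipped, is `β`. -/
theorem lemmaE {F A Z : Type} [Field F] [AddCommGroup A] [Module F A] [AddCommGroup Z] [Module F Z]
    (V U1 U3 W U2 U4 W' : Submodule F A) (hW1 : W ≤ U1) (hW3 : W ≤ U3) (hW2 : W' ≤ U2)
    (hW4 : W' ≤ U4) (β₀ : A →ₗ[F] A →ₗ[F] Z)
    (hw : ∀ v ∈ V, v ∈ W → ∀ v' ∈ V, β₀ v v' = 0)
    (hw' : ∀ v ∈ V, ∀ v' ∈ V, v' ∈ W' → β₀ v v' = 0)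
    (h12 : ∀ v ∈ V, v ∈ U1 → ∀ v' ∈ V, v' ∈ U2 → β₀ v v' = 0)
    (h34 : ∀ v ∈ V, v ∈ U3 → ∀ v' ∈ V, v' ∈ U4 → β₀ v v' = 0)
    (hsum : ∀ v ∈ V, v ∈ U1 ⊔ U3 → ∀ v' ∈ V, v' ∈ U2 → v' ∈ U4 → β₀ v v' = 0)
    (hsum' : ∀ v ∈ V, v ∈ U1 → v ∈ U3 → ∀ v' ∈ V, v' ∈ U2 ⊔ U4 → β₀ v v' = 0) :
    ∃ β : A →ₗ[F] A →ₗ[F] Z, (∀ v ∈ V, ∀ v' ∈ V, β v v' = β₀ v v') ∧
      (∀ a ∈ W, ∀ b, β a b = 0) ∧ (∀ a, ∀ b ∈ W', β a b = 0) ∧
      (∀ a ∈ U1, ∀ b ∈ U2, β a b = 0) ∧ ∀ a ∈ U3, ∀ b ∈ U4, β a b = 0 := by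
  obtain ⟨Φ, p0, p1, p3, p13, pw, pm⟩ := lemmaX (H := V →ₗ[F] Z) V U1 U3 W hW1 hW3
    (vanishOn Z (U2.comap V.subtype)) (vanishOn Z (U4.comap V.subtype))
    (vanishOn Z ((U2 ⊔ U4).comap V.subtype)) (vanishOn Z (W'.comap V.subtype))
    (vanishOn_anti (Submodule.comap_mono le_sup_left))
    (vanishOn_anti (Submodule.comap_mono le_sup_right))
    (vanishOn_anti (Submodule.comap_mono hW2))
    (vanishOn_anti (Submodule.comap_mono hW4))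
    (β₀.compl₂ V.subtype)
    (fun v hv hv1 b hb => h12 v hv hv1 b b.2 hb)
    (fun v hv hv1 b hb => h34 v hv hv1 b b.2 hb)
    (fun v hv hv1 hv3 b hb => hsum' v hv hv1 hv3 b b.2 hb)
    (fun v hv b hb => hw' v hv b b.2 hb)
    (fun v hv hv' => mem_sup_vanishOn _ _ _ (fun b hb hb' => hsum v hv hv' b b.2 hb hb'))
    (fun v hv hv' => LinearMap.ext fun b => hw v hv hv' b b.2)
  obtain ⟨g, hg⟩ := LinearMap.exists_extend Φ.flip
  have hg' : ∀ (b : V) (a : A), g (b : A) a = Φ a b := by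
    intro b a
    have := LinearMap.congr_fun (LinearMap.congr_fun hg b) a
    exact this
  obtain ⟨Ψ, q0, q1, q3, q13, qw, qm⟩ := lemmaX (H := A →ₗ[F] Z) V U2 U4 W' hW2 hW4
    (vanishOn Z U1) (vanishOn Z U3) (vanishOn Z (U1 ⊔ U3)) (vanishOn Z W)
    (vanishOn_anti le_sup_left) (vanishOn_anti le_sup_right)
    (vanishOn_anti hW1) (vanishOn_anti hW3) g
    (fun b hb hb2 a ha => by
      rw [hg' ⟨b, hb⟩ a]
      exact p1 a ha ⟨b, hb⟩ hb2)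
    (fun b hb hb4 a ha => by
      rw [hg' ⟨b, hb⟩ a]
      exact p3 a ha ⟨b, hb⟩ hb4)
    (fun b hb hb2 hb4 a ha => by
      obtain ⟨a1, ha1, a3, ha3, rfl⟩ := Submodule.mem_sup.mp ha
      rw [map_add, hg' ⟨b, hb⟩ a1, hg' ⟨b, hb⟩ a3, p1 a1 ha1 ⟨b, hb⟩ hb2,
        p3 a3 ha3 ⟨b, hb⟩ hb4, add_zero])
    (fun b hb a ha => by
      rw [hg' ⟨b, hb⟩ a, pw a ha]
      rfl)
    (fun b hb hb' => mem_sup_vanishOn _ _ _ (fun a ha ha' => by
      rw [hg' ⟨b, hb⟩ a]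
      exact p13 a ha ha' ⟨b, hb⟩ hb'))
    (fun b hb hb' => LinearMap.ext fun a => by
      rw [hg' ⟨b, hb⟩ a]
      exact pm a ⟨b, hb⟩ hb')
  refine ⟨Ψ.flip, fun v hv v' hv' => ?_, fun a ha b => ?_, fun a b hb => ?_,
    fun a ha b hb => ?_, fun a ha b hb => ?_⟩
  · rw [LinearMap.flip_apply, q0 v' hv', hg' ⟨v', hv'⟩ v, p0 v hv]
    rfl
  · exact qm b a ha
  · rw [LinearMap.flip_apply, qw b hb]
    rfl
  · exact q1 b hb a ha
  · exact q3 b hb a ha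

end Pool.Agent.W_59b51d_h18
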