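import Pool.Agent.W_59b51d_h18.SProd
import Pool.Agent.W_59b51d_h18.SLinE

/-!
# The bilinear map of the induction step
-/

namespace Pool.Agent.W_59b51d_h18

variable {F : Type} [Field F] {X A : Type} [NonUnitalNonAssocRing A] [Module F A]
  [IsScalarTower F A A] [SMulCommClass F A A] {T : List (FreeMagma ℕ)} {r : List (Poly F X)}

/-- A linear section of the evaluation on the monomials of height at most `h`.

Proof. The surjection `Tr F X h → map (ev F a) (Tr F X h)` has a linear section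
(`LinearMap.exists_rightInverse_of_surjective`), which extends to `A`
(`LinearMap.exists_extend`). -/
theorem exists_section (F : Type) [Field F] {X A : Type} [NonUnitalNonAssocRing A] [Module F A]
    (a : X → A) (h : ℕ) :
    ∃ s : A →ₗ[F] NA F X, ∀ v ∈ Submodule.map (ev F a) (Tr F X h),
      s v ∈ Tr F X h ∧ ev F a (s v) = v := by
  let f : Tr F X h →ₗ[F] Submodule.map (ev F a) (Tr F X h) :=
    (ev F a).restrict fun x hx => Submodule.mem_map_of_mem hx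
  have hf : LinearMap.range f = ⊤ := by
    rw [LinearMap.range_eq_top]
    rintro ⟨_, x, hx, rfl⟩
    exact ⟨⟨x, hx⟩, rfl⟩
  obtain ⟨g, hg⟩ := LinearMap.exists_rightInverse_of_surjective f hf
  obtain ⟨s, hs⟩ := LinearMap.exists_extend ((Tr F X h).subtype.comp g)
  refine ⟨s, fun v hv => ?_⟩
  have h1 : s v = (g ⟨v, hv⟩ : NA F X) := by
    have := LinearMap.congr_fun hs ⟨v, hv⟩
    simpa using this
  have h2 : f (g ⟨v, hv⟩) = ⟨v, hv⟩ := by
    have := LinearMap.congr_fun hg ⟨v, hv⟩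
    simpa using this
  refine ⟨by rw [h1]; exact (g ⟨v, hv⟩).2, ?_⟩
  rw [h1]
  exact congrArg Subtype.val h2

/-- The bilinear map of the induction step.

Proof. Let `V = map (ev F a) (Tr F X h)`, `Z = NA F X ⧸ DD T r S (N + K)` and
`β₀ u v = [s u * s v]`. Apply `lemmaE` with `W = SS T1`, `W' = SS T2`, `U1 = SS (T1 ∪ L1)`,
`U3 = SS (T1 ∪ L3)`, `U2 = SS (T2 ∪ L2)`, `U4 = SS (T2 ∪ L4)` (`SS_mono`, `SS_union`). The hypotheses
of `lemmaE`: for `v ∈ V` with `v ∈ SS F A S'`, `S' ⊆ allSubs T`, the induction hypothesis `IH` gives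
`s v ∈ DD T r S' N` (as `s v ∈ Tr F X h` and `ev F a (s v) = v`); moreover `s v ∈ Tr F X N`. So
* `hw`, `hw'`: `mul_DD_left` with `L = ∅`, `mul_DD_right` with `L = ∅`;
* `h12`: `mul_DD_left` with `L = L1` and `mul_L1` with `L = L2`; `h34`: `L3`, `L4`;
* `hsum`: `v ∈ SS (T1 ∪ (L1 ∪ L3))`; `mul_DD_left` with `L = L1 ∪ L3`, and `mul_L1` with `L = L2`
  for the `α ∈ L1` and with `L = L4` for the `α ∈ L3`;
* `hsum'`: `v' ∈ SS (T2 ∪ (L2 ∪ L4))`; `mul_DD_right` with `L = L2 ∪ L4`, and `mul_L2` with `L = L1`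
  or `L = L3`.
The last property: by `StepData.cov`, `AS F A α ≤ W`, or `AS F A β' ≤ W'`, or
`AS F A α ≤ U1` and `AS F A β' ≤ U2`, or `AS F A α ≤ U3` and `AS F A β' ≤ U4` (`Inst.AS_le`,
`AS_le_SS`); the factors `α`, `β'` of `τ` are determined by `τ`. -/
theorem exists_beta {a : X → A} (hmul : ∀ τ ∈ allSubs T, Multilinear τ) {K : ℕ}
    (hK : ∀ τ ∈ allSubs T, height τ + 1 ≤ K) (hK1 : 1 ≤ K) {h N : ℕ} (hN : h ≤ N)
    (IH : ∀ S' ⊆ allSubs T, Bd F T r a S' h N)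
    {S T1 T2 L1 L2 L3 L4 : Finset (FreeMagma ℕ)} (data : StepData T S T1 T2 L1 L2 L3 L4)
    {s : A →ₗ[F] NA F X} (hs : ∀ v ∈ Submodule.map (ev F a) (Tr F X h),
      s v ∈ Tr F X h ∧ ev F a (s v) = v) :
    ∃ β : A →ₗ[F] A →ₗ[F] (NA F X ⧸ DD T r S (N + K)),
      (∀ v ∈ Submodule.map (ev F a) (Tr F X h), ∀ v' ∈ Submodule.map (ev F a) (Tr F X h),
        β v v' = Submodule.Quotient.mk (mulP F X (s v) (s v'))) ∧
      ∀ α β' : FreeMagma ℕ, α * β' ∈ S ∨ α * β' ∈ T → ∀ u ∈ AS F A α, ∀ v ∈ AS F A β', β u v = 0 := by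
  obtain ⟨sT1, sT2, sL1, sL2, sL3, sL4⟩ := data.sub
  set V := Submodule.map (ev F a) (Tr F X h) with hV
  let q : NA F X →ₗ[F] (NA F X ⧸ DD T r S (N + K)) := (DD T r S (N + K)).mkQ
  let β₀ : A →ₗ[F] A →ₗ[F] (NA F X ⧸ DD T r S (N + K)) :=
    ((mulP F X).compl₁₂ s s).compr₂ q
  have hβ₀ : ∀ u v, β₀ u v = Submodule.Quotient.mk (mulP F X (s u) (s v)) := fun u v => rfl
  have hzero : ∀ u v, mulP F X (s u) (s v) ∈ DD T r S (N + K) → β₀ u v = 0 := fun u v huv => by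
    rw [hβ₀, Submodule.Quotient.mk_eq_zero]; exact huv
  have hT1 : ∀ α ∈ T1, ∃ i : ℕ, (α * .of i ∈ S ∨ α * .of i ∈ T) ∧ Multilinear (α * .of i) := by
    intro α hα
    obtain ⟨i, hi⟩ := data.t1 α hα
    exact ⟨i, hi, hmul _ (data.sub' _ hi)⟩
  have hT2 : ∀ β ∈ T2, ∃ i : ℕ, (.of i * β ∈ S ∨ .of i * β ∈ T) ∧ Multilinear (.of i * β) := by
    intro β hβ
    obtain ⟨i, hi⟩ := data.t2 β hβ
    exact ⟨i, hi, hmul _ (data.sub' _ hi)⟩
  have h12 : ∀ α ∈ L1, ∀ β ∈ L2, (α * β ∈ S ∨ α * β ∈ T) ∧ Multilinear (α * β) :=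
    fun α hα β hβ => ⟨data.l12 α hα β hβ, hmul _ (data.sub' _ (data.l12 α hα β hβ))⟩
  have h34 : ∀ α ∈ L3, ∀ β ∈ L4, (α * β ∈ S ∨ α * β ∈ T) ∧ Multilinear (α * β) :=
    fun α hα β hβ => ⟨data.l34 α hα β hβ, hmul _ (data.sub' _ (data.l34 α hα β hβ))⟩
  -- the induction hypothesis for sections
  have ih : ∀ S' ⊆ allSubs T, ∀ v ∈ V, v ∈ SS F A S' → s v ∈ DD T r S' N := by
    intro S' hS' v hv hvS
    obtain ⟨h1, h2⟩ := hs v hv
    exact IH S' hS' (s v) h1 (by rwa [h2])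
  have hN' : ∀ v ∈ V, s v ∈ Tr F X N := fun v hv => Tr_mono hN (hs v hv).1
  -- products of values of members of `L` with good elements
  have hL1 : ∀ v ∈ V, v ∈ SS F A (T2 ∪ L2) → ∀ α ∈ L1, ∀ c : ℕ → FreeMagma X,
      (∀ i, height (c i) ≤ N) → mulP F X (tr F (FreeMagma.lift c α)) (s v) ∈ DD T r S (N + K) :=
    fun v hv hv2 α hα c hc => mul_L1 hT2 (h12 α hα) (hK α (sL1 hα)) hc
      (ih _ (Finset.union_subset sT2 sL2) v hv hv2)
  have hL3 : ∀ v ∈ V, v ∈ SS F A (T2 ∪ L4) → ∀ α ∈ L3, ∀ c : ℕ → FreeMagma X,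
      (∀ i, height (c i) ≤ N) → mulP F X (tr F (FreeMagma.lift c α)) (s v) ∈ DD T r S (N + K) :=
    fun v hv hv2 α hα c hc => mul_L1 hT2 (h34 α hα) (hK α (sL3 hα)) hc
      (ih _ (Finset.union_subset sT2 sL4) v hv hv2)
  have hL2 : ∀ v ∈ V, v ∈ SS F A (T1 ∪ L1) → ∀ β ∈ L2, ∀ c : ℕ → FreeMagma X,
      (∀ i, height (c i) ≤ N) → mulP F X (s v) (tr F (FreeMagma.lift c β)) ∈ DD T r S (N + K) :=
    fun v hv hv2 β hβ c hc => mul_L2 hT1 (fun α hα => h12 α hα β hβ) (hK β (sL2 hβ)) hc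
      (ih _ (Finset.union_subset sT1 sL1) v hv hv2)
  have hL4 : ∀ v ∈ V, v ∈ SS F A (T1 ∪ L3) → ∀ β ∈ L4, ∀ c : ℕ → FreeMagma X,
      (∀ i, height (c i) ≤ N) → mulP F X (s v) (tr F (FreeMagma.lift c β)) ∈ DD T r S (N + K) :=
    fun v hv hv2 β hβ c hc => mul_L2 hT1 (fun α hα => h34 α hα β hβ) (hK β (sL4 hβ)) hc
      (ih _ (Finset.union_subset sT1 sL3) v hv hv2)
  obtain ⟨β, e0, e1, e2, e3, e4⟩ := lemmaE V (SS F A (T1 ∪ L1)) (SS F A (T1 ∪ L3)) (SS F A T1)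
    (SS F A (T2 ∪ L2)) (SS F A (T2 ∪ L4)) (SS F A T2)
    (SS_mono Finset.subset_union_left) (SS_mono Finset.subset_union_left)
    (SS_mono Finset.subset_union_left) (SS_mono Finset.subset_union_left) β₀
    (fun v hv hvW v' hv' => hzero _ _ (mul_DD_left (L := ∅) hK1 hT1 (hN' v' hv')
      (fun α hα => absurd hα (Finset.notMem_empty α))
      (by rw [Finset.union_empty]; exact ih T1 sT1 v hv hvW)))
    (fun v hv v' hv' hvW => hzero _ _ (mul_DD_right (L := ∅) hK1 hT2 (hN' v hv)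
      (fun α hα => absurd hα (Finset.notMem_empty α))
      (by rw [Finset.union_empty]; exact ih T2 sT2 v' hv' hvW)))
    (fun v hv hv1 v' hv' hv2 => hzero _ _ (mul_DD_left hK1 hT1 (hN' v' hv')
      (hL1 v' hv' hv2) (ih _ (Finset.union_subset sT1 sL1) v hv hv1)))
    (fun v hv hv1 v' hv' hv2 => hzero _ _ (mul_DD_left hK1 hT1 (hN' v' hv')
      (hL3 v' hv' hv2) (ih _ (Finset.union_subset sT1 sL3) v hv hv1)))
    (fun v hv hv1 v' hv' hv2 hv4 => hzero _ _ (mul_DD_left (L := L1 ∪ L3) hK1 hT1 (hN' v' hv')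
      (fun α hα => (Finset.mem_union.1 hα).elim (hL1 v' hv' hv2 α) (hL3 v' hv' hv4 α))
      (ih _ (Finset.union_subset sT1 (Finset.union_subset sL1 sL3)) v hv (by
        rw [Finset.union_union_distrib_left, SS_union]; exact hv1))))
    (fun v hv hv1 hv3 v' hv' hv2 => hzero _ _ (mul_DD_right (L := L2 ∪ L4) hK1 hT2 (hN' v hv)
      (fun β hβ => (Finset.mem_union.1 hβ).elim (hL2 v hv hv1 β) (hL4 v hv hv3 β))
      (ih _ (Finset.union_subset sT2 (Finset.union_subset sL2 sL4)) v' hv' (by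
        rw [Finset.union_union_distrib_left, SS_union]; exact hv2))))
  refine ⟨β, fun v hv v' hv' => (e0 v hv v' hv').trans (hβ₀ v v'), ?_⟩
  intro α β' hαβ u hu v hv
  obtain ⟨α₁, β₁, heq, hc⟩ := data.cov _ hαβ
  have hα₁ : α = α₁ ∧ β' = β₁ := by
    injection heq with h1 h2
    exact ⟨h1, h2⟩
  obtain ⟨rfl, rfl⟩ := hα₁
  rcases hc with hc | hc | ⟨γ, hγ, δ, hδ, hi, hi'⟩ | ⟨γ, hγ, δ, hδ, hi, hi'⟩
  · exact e1 u (AS_le_SS hc hu) v
  · exact e2 u v (AS_le_SS hc hv)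
  · exact e3 u (AS_le_SS (Finset.mem_union_right _ hγ) (hi.AS_le hu)) v
      (AS_le_SS (Finset.mem_union_right _ hδ) (hi'.AS_le hv))
  · exact e4 u (AS_le_SS (Finset.mem_union_right _ hγ) (hi.AS_le hu)) v
      (AS_le_SS (Finset.mem_union_right _ hδ) (hi'.AS_le hv))

end Pool.Agent.W_59b51d_h18
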