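import Pool.Agent.W_59b51d_h18.SProd
import Pool.Agent.W_59b51d_h18.SLinE
import Pool.Agent.W_59b51d_h18.SBeta

/-!
# The bilinear map of the induction step, when the left factors of the forks form a chain
-/

namespace Pool.Agent.W_59b51d_h18

/-- A projection onto `V` preserving all members of a finite chain of subspaces. -/
theorem exists_retraction {F A : Type} [Field F] [AddCommGroup A] [Module F A]
    (n : ℕ) : ∀ (C : Finset (Submodule F A)), C.card = n →
      (∀ U ∈ C, ∀ U' ∈ C, U ≤ U' ∨ U' ≤ U) → ∀ V : Submodule F A,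
      ∃ p : A →ₗ[F] A, (∀ a, p a ∈ V) ∧ (∀ v ∈ V, p v = v) ∧ ∀ U ∈ C, ∀ u ∈ U, p u ∈ U := by
  classical
  induction n with
  | zero =>
    intro C hC _ V
    rw [Finset.card_eq_zero] at hC
    subst hC
    obtain ⟨p, hp, hp'⟩ := exists_factor V.subtype V.subtype (fun x h => h) V fun x => x.2
    exact ⟨p, hp', fun v hv => hp ⟨v, hv⟩, fun U hU => absurd hU (Finset.notMem_empty U)⟩
  | succ n ih =>
    intro C hC hch V
    have hne : C.Nonempty := by
      rw [← Finset.card_pos, hC]; exact Nat.succ_pos n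
    obtain ⟨U, hU⟩ := Finset.exists_maximal hne
    have hUC : U ∈ C := hU.1
    have hUmax : ∀ U' ∈ C, U' ≤ U := fun U' hU' =>
      (hch U' hU' U hUC).elim id fun h => hU.2 hU' h
    obtain ⟨p', h1, h2, h3⟩ := ih (C.erase U) (by rw [Finset.card_erase_of_mem hUC, hC]; rfl)
      (fun U₁ h₁ U₂ h₂ => hch U₁ (Finset.mem_of_mem_erase h₁) U₂ (Finset.mem_of_mem_erase h₂))
      (V ⊓ U)
    obtain ⟨p, hp, hp'⟩ := exists_factor (E := U × V) (A := A) (H := A)
      (U.subtype.coprod V.subtype) ((p'.comp U.subtype).coprod V.subtype)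
      (by
        rintro ⟨u, v⟩ huv
        simp only [LinearMap.coprod_apply, Submodule.subtype_apply] at huv
        simp only [LinearMap.coprod_apply, Submodule.subtype_apply, LinearMap.comp_apply]
        have hvu : (u : A) = -(v : A) := eq_neg_of_add_eq_zero_left huv
        have huV : (u : A) ∈ V ⊓ U := ⟨by rw [hvu]; exact neg_mem v.2, u.2⟩
        rw [h2 _ huV, huv])
      V (by
        rintro ⟨u, v⟩
        simp only [LinearMap.coprod_apply, Submodule.subtype_apply, LinearMap.comp_apply]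
        exact add_mem (h1 _).1 v.2)
    have hpU : ∀ u ∈ U, p u = p' u := by
      intro u hu
      have := hp (⟨u, hu⟩, 0)
      simpa using this
    refine ⟨p, hp', fun v hv => ?_, fun U' hU' u hu => ?_⟩
    · have := hp (0, ⟨v, hv⟩)
      simpa using this
    · by_cases h : U' = U
      · subst h
        rw [hpU u hu]
        exact (h1 u).2
      · rw [hpU u (hUmax U' hU' hu)]
        exact h3 U' (Finset.mem_erase.2 ⟨h, hU'⟩) u hu

/-- An instance is obtained by a substitution of bounded height. -/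
theorem Inst.bounded {s t : FreeMagma ℕ} (h : Inst s t) :
    ∃ e : ℕ → FreeMagma ℕ, FreeMagma.lift e s = t ∧ ∀ i, height (e i) ≤ height t := by
  obtain ⟨c, rfl⟩ := h
  have key : ∀ s : FreeMagma ℕ, ∀ i ∈ vars s, height (c i) ≤ height (FreeMagma.lift c s) := by
    intro s
    induction s using FreeMagma.rec with
    | of j =>
      intro i hi
      have : i = j := by simpa [vars] using hi
      subst this
      exact le_rfl
    | mul s t hs ht =>
      intro i hi
      have hi' : i ∈ vars s ++ vars t := hi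
      change _ ≤ max (height (FreeMagma.lift c s)) (height (FreeMagma.lift c t)) + 1
      rcases List.mem_append.1 hi' with hi' | hi'
      · have := hs i hi'
        omega
      · have := ht i hi'
        omega
  refine ⟨fun i => if i ∈ vars s then c i else .of 0, ?_, fun i => ?_⟩
  · exact lift_congr fun i hi => by simp only [if_pos hi]
  · by_cases hi : i ∈ vars s
    · simp only [if_pos hi]
      exact key s i hi
    · simp only [if_neg hi]
      exact Nat.zero_le _

/-- The value of a composite substitution. -/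
theorem lift_comp {M : Type} [Mul M] (c : ℕ → M) (e : ℕ → FreeMagma ℕ) (t : FreeMagma ℕ) :
    FreeMagma.lift c (FreeMagma.lift e t) =
      FreeMagma.lift (fun i => FreeMagma.lift c (e i)) t := by
  induction t using FreeMagma.rec with
  | of i => rfl
  | mul s t hs ht =>
    change FreeMagma.lift c (FreeMagma.lift e s * FreeMagma.lift e t) =
      FreeMagma.lift _ s * FreeMagma.lift _ t
    rw [map_mul, hs, ht]

/-- A value of `t` is a value of `s` if `t` is an instance of `s`. -/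
theorem Inst.value {X : Type} {s t : FreeMagma ℕ} (h : Inst s t) {N : ℕ} {c : ℕ → FreeMagma X}
    (hc : ∀ i, height (c i) ≤ N) : ∃ c' : ℕ → FreeMagma X,
      FreeMagma.lift c' s = FreeMagma.lift c t ∧ ∀ i, height (c' i) ≤ height t + N := by
  obtain ⟨e, rfl, he⟩ := h.bounded
  refine ⟨fun i => FreeMagma.lift c (e i), (lift_comp c e s).symm, fun i => ?_⟩
  exact (height_lift_le hc (e i)).trans (Nat.add_le_add_right (he i) N)

section Prod

variable {F X : Type} [Field F] {T : List (FreeMagma ℕ)} {r : List (Poly F X)}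

/-- A value of `α` times an element of `DD T r (T2 ∪ L) N`, if for every `β ∈ L` the product
`α * β` is an instance of a product in `S ∪ T`. -/
theorem mul_L1' {S T2 L : Finset (FreeMagma ℕ)} {N K : ℕ} {α : FreeMagma ℕ}
    (hT2 : ∀ β ∈ T2, ∃ i : ℕ, (.of i * β ∈ S ∨ .of i * β ∈ T) ∧ Multilinear (.of i * β))
    (hL : ∀ β ∈ L, height β + 1 ≤ K ∧ ∃ α' β' : FreeMagma ℕ, (α' * β' ∈ S ∨ α' * β' ∈ T) ∧
      Multilinear (α' * β') ∧ Inst α' α ∧ Inst β' β) (hK : height α + 1 ≤ K)
    {c : ℕ → FreeMagma X} (hc : ∀ i, height (c i) ≤ N) {q : NA F X}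
    (hq : q ∈ DD T r (T2 ∪ L) N) :
    mulP F X (tr F (FreeMagma.lift c α)) q ∈ DD T r S (N + K) := by
  have hα : tr F (FreeMagma.lift c α) ∈ Tr F X (N + K - 1) :=
    tr_mem_Tr ((height_lift_le hc α).trans (by omega))
  have : DD T r (T2 ∪ L) N ≤ (DD T r S (N + K)).comap (mulP F X (tr F (FreeMagma.lift c α))) := by
    refine sup_le (Submodule.span_le.2 ?_) ?_
    · rintro _ ⟨β, hβ, c', hc', rfl⟩
      change mulP F X (tr F (FreeMagma.lift c α)) (tr F (FreeMagma.lift c' β)) ∈ DD T r S (N + K)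
      rcases Finset.mem_union.1 hβ with hβ | hβ
      · obtain ⟨i, hi, hi'⟩ := hT2 β hβ
        exact DD_mono (by omega)
          (mul_T2 hi hi' (fun j => (hc' j).trans (by omega : N ≤ N + K - 1)) hα)
      · obtain ⟨hKβ, α', β', h1, h2, h3, h4⟩ := hL β hβ
        obtain ⟨c₁, e₁, hc₁⟩ := h3.value hc
        obtain ⟨c₂, e₂, hc₂⟩ := h4.value hc'
        rw [← e₁, ← e₂]
        exact mul_mem_DD h1 h2 (fun j => (hc₁ j).trans (by omega))
          (fun j => (hc₂ j).trans (by omega))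
    · intro g hg
      have := mulP_Cons hα (Cons_mono (by omega : N ≤ N + K - 1) hg)
      exact Cons_le_DD (Cons_mono (by omega) this)
  exact this hq

end Prod

/-- The combinatorial data used in the induction step: `T1` (`T2`) consists of left (right) factors
of members of `S ∪ T` whose other factor is a variable, `M` consists of members `α * β` of `S ∪ T`
(as pairs), and every member of `S ∪ T` is a product of one of three kinds. -/
structure ForkData (T : List (FreeMagma ℕ)) (S T1 T2 : Finset (FreeMagma ℕ))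
    (M : Finset (FreeMagma ℕ × FreeMagma ℕ)) : Prop where
  sub : T1 ⊆ allSubs T ∧ T2 ⊆ allSubs T
  sub' : ∀ τ, τ ∈ S ∨ τ ∈ T → τ ∈ allSubs T
  t1 : ∀ α ∈ T1, ∃ i : ℕ, α * .of i ∈ S ∨ α * .of i ∈ T
  t2 : ∀ β ∈ T2, ∃ i : ℕ, .of i * β ∈ S ∨ .of i * β ∈ T
  mem : ∀ p ∈ M, p.1 * p.2 ∈ S ∨ p.1 * p.2 ∈ T
  cov : ∀ τ, τ ∈ S ∨ τ ∈ T → ∃ α β, τ = α * β ∧ (α ∈ T1 ∨ β ∈ T2 ∨
    ∃ p ∈ M, Inst p.1 α ∧ Inst p.2 β)

section Beta

variable {F : Type} [Field F] {X A : Type} [NonUnitalNonAssocRing A] [Module F A]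
  [IsScalarTower F A A] [SMulCommClass F A A] {T : List (FreeMagma ℕ)} {r : List (Poly F X)}

/-- The bilinear map of the induction step, when the sets `J p` of the right factors `β` of members
of `M` such that `p.1 * β` is an instance of a member of `S ∪ T` are nested. -/
theorem exists_beta_nested {a : X → A} (hmul : ∀ τ ∈ allSubs T, Multilinear τ) {K : ℕ}
    (hK : ∀ τ ∈ allSubs T, height τ + 1 ≤ K) (hK1 : 1 ≤ K) {h N : ℕ} (hN : h ≤ N)
    (IH : ∀ S' ⊆ allSubs T, Bd F T r a S' h N)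
    {S T1 T2 : Finset (FreeMagma ℕ)} {M : Finset (FreeMagma ℕ × FreeMagma ℕ)}
    (data : ForkData T S T1 T2 M) (J : FreeMagma ℕ × FreeMagma ℕ → Finset (FreeMagma ℕ))
    (hJ : ∀ p ∈ M, ∀ β ∈ J p, β ∈ allSubs T ∧ ∃ α' β' : FreeMagma ℕ,
      (α' * β' ∈ S ∨ α' * β' ∈ T) ∧ Inst α' p.1 ∧ Inst β' β)
    (hself : ∀ p ∈ M, p.2 ∈ J p) (hch : ∀ p ∈ M, ∀ q ∈ M, J p ⊆ J q ∨ J q ⊆ J p)
    {s : A →ₗ[F] NA F X} (hs : ∀ v ∈ Submodule.map (ev F a) (Tr F X h),
      s v ∈ Tr F X h ∧ ev F a (s v) = v) :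
    ∃ β : A →ₗ[F] A →ₗ[F] (NA F X ⧸ DD T r S (N + K)),
      (∀ v ∈ Submodule.map (ev F a) (Tr F X h), ∀ v' ∈ Submodule.map (ev F a) (Tr F X h),
        β v v' = Submodule.Quotient.mk (mulP F X (s v) (s v'))) ∧
      ∀ α β' : FreeMagma ℕ, α * β' ∈ S ∨ α * β' ∈ T → ∀ u ∈ AS F A α, ∀ v ∈ AS F A β', β u v = 0 := by
  classical
  obtain ⟨sT1, sT2⟩ := data.sub
  set V := Submodule.map (ev F a) (Tr F X h) with hV
  have hmem : ∀ p ∈ M, p.1 ∈ allSubs T ∧ p.2 ∈ allSubs T := fun p hp =>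
    factors_mem_allSubs (data.sub' _ (data.mem p hp))
  have hJsub : ∀ p ∈ M, J p ⊆ allSubs T := fun p hp β hβ => (hJ p hp β hβ).1
  -- the left factors whose set contains a given one
  let I : FreeMagma ℕ × FreeMagma ℕ → Finset (FreeMagma ℕ) := fun p =>
    (M.filter fun q => J p ⊆ J q).image Prod.fst
  have hI : ∀ p, ∀ α ∈ I p, ∃ q ∈ M, q.1 = α ∧ J p ⊆ J q := by
    intro p α hα
    obtain ⟨q, hq, hq'⟩ := Finset.mem_image.1 hα
    obtain ⟨hq1, hq2⟩ := Finset.mem_filter.1 hq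
    exact ⟨q, hq1, hq', hq2⟩
  have hIsub : ∀ p, I p ⊆ allSubs T := by
    intro p α hα
    obtain ⟨q, hq, rfl, -⟩ := hI p α hα
    exact (hmem q hq).1
  have hIanti : ∀ p q, J p ⊆ J q → I q ⊆ I p := by
    intro p q hpq α hα
    obtain ⟨q', hq', rfl, hi⟩ := hI q α hα
    exact Finset.mem_image.2 ⟨q', Finset.mem_filter.2 ⟨hq', hpq.trans hi⟩, rfl⟩
  -- the chains and the retractions
  let C : Finset (Submodule F A) := insert (SS F A T1) (M.image fun p => SS F A (T1 ∪ I p))
  let C' : Finset (Submodule F A) := insert (SS F A T2) (M.image fun p => SS F A (T2 ∪ J p))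
  have hC : ∀ U ∈ C, ∀ U' ∈ C, U ≤ U' ∨ U' ≤ U := by
    intro U hU U' hU'
    rcases Finset.mem_insert.1 hU with rfl | hU
    · left
      rcases Finset.mem_insert.1 hU' with rfl | hU'
      · exact le_rfl
      · obtain ⟨p, -, rfl⟩ := Finset.mem_image.1 hU'
        exact SS_mono Finset.subset_union_left
    · obtain ⟨p, hp, rfl⟩ := Finset.mem_image.1 hU
      rcases Finset.mem_insert.1 hU' with rfl | hU'
      · right
        exact SS_mono Finset.subset_union_left
      · obtain ⟨q, hq, rfl⟩ := Finset.mem_image.1 hU'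
        rcases hch p hp q hq with h | h
        · exact Or.inr (SS_mono (Finset.union_subset_union_right (hIanti p q h)))
        · exact Or.inl (SS_mono (Finset.union_subset_union_right (hIanti q p h)))
  have hC' : ∀ U ∈ C', ∀ U' ∈ C', U ≤ U' ∨ U' ≤ U := by
    intro U hU U' hU'
    rcases Finset.mem_insert.1 hU with rfl | hU
    · left
      rcases Finset.mem_insert.1 hU' with rfl | hU'
      · exact le_rfl
      · obtain ⟨p, -, rfl⟩ := Finset.mem_image.1 hU'
        exact SS_mono Finset.subset_union_left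
    · obtain ⟨p, hp, rfl⟩ := Finset.mem_image.1 hU
      rcases Finset.mem_insert.1 hU' with rfl | hU'
      · right
        exact SS_mono Finset.subset_union_left
      · obtain ⟨q, hq, rfl⟩ := Finset.mem_image.1 hU'
        rcases hch p hp q hq with h | h
        · exact Or.inl (SS_mono (Finset.union_subset_union_right h))
        · exact Or.inr (SS_mono (Finset.union_subset_union_right h))
  obtain ⟨p₁, p1V, p1id, p1C⟩ := exists_retraction _ C rfl hC V
  obtain ⟨p₂, p2V, p2id, p2C⟩ := exists_retraction _ C' rfl hC' V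
  let q : NA F X →ₗ[F] (NA F X ⧸ DD T r S (N + K)) := (DD T r S (N + K)).mkQ
  let β : A →ₗ[F] A →ₗ[F] (NA F X ⧸ DD T r S (N + K)) :=
    ((mulP F X).compl₁₂ (s.comp p₁) (s.comp p₂)).compr₂ q
  have hβ : ∀ u v, β u v = Submodule.Quotient.mk (mulP F X (s (p₁ u)) (s (p₂ v))) :=
    fun u v => rfl
  have hzero : ∀ u v, mulP F X (s (p₁ u)) (s (p₂ v)) ∈ DD T r S (N + K) → β u v = 0 :=
    fun u v huv => by rw [hβ, Submodule.Quotient.mk_eq_zero]; exact huv
  have hT1 : ∀ α ∈ T1, ∃ i : ℕ, (α * .of i ∈ S ∨ α * .of i ∈ T) ∧ Multilinear (α * .of i) := by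
    intro α hα
    obtain ⟨i, hi⟩ := data.t1 α hα
    exact ⟨i, hi, hmul _ (data.sub' _ hi)⟩
  have hT2 : ∀ β ∈ T2, ∃ i : ℕ, (.of i * β ∈ S ∨ .of i * β ∈ T) ∧ Multilinear (.of i * β) := by
    intro β hβ
    obtain ⟨i, hi⟩ := data.t2 β hβ
    exact ⟨i, hi, hmul _ (data.sub' _ hi)⟩
  -- the induction hypothesis for sections
  have ih : ∀ S' ⊆ allSubs T, ∀ v ∈ V, v ∈ SS F A S' → s v ∈ DD T r S' N := by
    intro S' hS' v hv hvS
    obtain ⟨h1, h2⟩ := hs v hv
    exact IH S' hS' (s v) h1 (by rwa [h2])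
  have hN' : ∀ v ∈ V, s v ∈ Tr F X N := fun v hv => Tr_mono hN (hs v hv).1
  refine ⟨β, fun v hv v' hv' => ?_, ?_⟩
  · rw [hβ, p1id v hv, p2id v' hv']
  intro α β' hαβ u hu v hv
  obtain ⟨α₁, β₁, heq, hc⟩ := data.cov _ hαβ
  have hα₁ : α = α₁ ∧ β' = β₁ := by
    injection heq with h1 h2
    exact ⟨h1, h2⟩
  obtain ⟨rfl, rfl⟩ := hα₁
  apply hzero
  rcases hc with hc | hc | ⟨p, hp, hi, hi'⟩
  · refine mul_DD_left (L := ∅) hK1 hT1 (hN' _ (p2V v))
      (fun α hα => absurd hα (Finset.notMem_empty α)) ?_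
    rw [Finset.union_empty]
    exact ih T1 sT1 _ (p1V u) (p1C _ (Finset.mem_insert_self _ _) u (AS_le_SS hc hu))
  · refine mul_DD_right (L := ∅) hK1 hT2 (hN' _ (p1V u))
      (fun α hα => absurd hα (Finset.notMem_empty α)) ?_
    rw [Finset.union_empty]
    exact ih T2 sT2 _ (p2V v) (p2C _ (Finset.mem_insert_self _ _) v (AS_le_SS hc hv))
  · have hpI : p.1 ∈ I p :=
      Finset.mem_image.2 ⟨p, Finset.mem_filter.2 ⟨hp, Finset.Subset.refl _⟩, rfl⟩
    have hu' : p₁ u ∈ SS F A (T1 ∪ I p) :=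
      p1C _ (Finset.mem_insert_of_mem (Finset.mem_image.2 ⟨p, hp, rfl⟩)) u
        (AS_le_SS (Finset.mem_union_right _ hpI) (hi.AS_le hu))
    have hv' : p₂ v ∈ SS F A (T2 ∪ J p) :=
      p2C _ (Finset.mem_insert_of_mem (Finset.mem_image.2 ⟨p, hp, rfl⟩)) v
        (AS_le_SS (Finset.mem_union_right _ (hself p hp)) (hi'.AS_le hv))
    have hsv : s (p₂ v) ∈ DD T r (T2 ∪ J p) N :=
      ih _ (Finset.union_subset sT2 (hJsub p hp)) _ (p2V v) hv'
    have hsu : s (p₁ u) ∈ DD T r (T1 ∪ I p) N :=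
      ih _ (Finset.union_subset sT1 (hIsub p)) _ (p1V u) hu'
    refine mul_DD_left hK1 hT1 (hN' _ (p2V v)) ?_ hsu
    intro α₀ hα₀ c hc
    obtain ⟨q', hq', rfl, hsub⟩ := hI p α₀ hα₀
    refine mul_L1' hT2 ?_ (hK _ (hmem q' hq').1) hc hsv
    intro β₀ hβ₀
    obtain ⟨hβ₁, α', β'', h1, h2, h3⟩ := hJ q' hq' β₀ (hsub hβ₀)
    exact ⟨hK _ hβ₁, α', β'', h1, hmul _ (data.sub' _ h1), h2, h3⟩

end Beta

end Pool.Agent.W_59b51d_h18
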