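import Pool.Agent.W_59b51d_h18.SBasic

/-!
# The lists of the consequences with bounded fuel
-/

namespace Pool.Agent.W_59b51d_h18

section Lists

/-- The list of the monomials of height at most `H`. -/
def PM (n : ℕ) : ℕ → List (FreeMagma (Fin n))
  | 0 => (List.finRange n).map FreeMagma.of
  | H + 1 => (List.finRange n).map FreeMagma.of ++
      (PM n H).flatMap fun a => (PM n H).map fun b => a * b

theorem mem_PM (n H : ℕ) (m : FreeMagma (Fin n)) : m ∈ PM n H ↔ height m ≤ H := by
  induction H generalizing m with
  | zero =>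
    cases m with
    | of i => simp [PM, height]
    | mul s t => simp [PM, height]
  | succ H ih =>
    cases m with
    | of i => simp [PM, height]
    | mul s t =>
      simp only [PM, List.mem_append, List.mem_map, List.mem_flatMap, height]
      constructor
      · rintro (⟨i, _, h⟩ | ⟨a, ha, b, hb, h⟩)
        · exact absurd h (by simp)
        · have h' : FreeMagma.mul a b = FreeMagma.mul s t := h
          injection h' with h1 h2
          subst h1
          subst h2
          rw [ih] at ha hb
          omega
      · intro h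
        exact Or.inr ⟨s, (ih s).2 (by omega), t, (ih t).2 (by omega), rfl⟩

/-- The list of the values of the multilinear monomial `t` at monomials of height at most `H`. -/
def PV (n : ℕ) : FreeMagma ℕ → ℕ → List (FreeMagma (Fin n))
  | .of _, H => PM n H
  | .mul s t, H => (PV n s H).flatMap fun a => (PV n t H).map fun b => a * b

theorem SComp2_congr {X : Type} (c c' : ℕ → FreeMagma X) (t : FreeMagma ℕ)
    (h : ∀ i ∈ vars t, c i = c' i) : FreeMagma.lift c t = FreeMagma.lift c' t := by
  induction t using FreeMagma.rec with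
  | of i => exact h i (by simp [vars])
  | mul s t hs ht =>
    change FreeMagma.lift c s * FreeMagma.lift c t = FreeMagma.lift c' s * FreeMagma.lift c' t
    rw [hs fun i hi => h i (by simp [vars, hi]), ht fun i hi => h i (by simp [vars, hi])]

theorem mem_PV (n : ℕ) (t : FreeMagma ℕ) (ht : Multilinear t) (H : ℕ) (m : FreeMagma (Fin n)) :
    m ∈ PV n t H ↔
      ∃ c : ℕ → FreeMagma (Fin n), (∀ i, height (c i) ≤ H) ∧ FreeMagma.lift c t = m := by
  induction t using FreeMagma.rec generalizing m with
  | of i =>
    change m ∈ PM n H ↔ _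
    rw [mem_PM]
    constructor
    · intro h
      exact ⟨fun _ => m, fun _ => h, rfl⟩
    · rintro ⟨c, hc, rfl⟩
      exact hc i
  | mul s t hs ht' =>
    have h1 : (vars s ++ vars t).Nodup := ht
    obtain ⟨h2, h3, h4⟩ := List.nodup_append.1 h1
    change m ∈ ((PV n s H).flatMap fun a => (PV n t H).map fun b => a * b) ↔ _
    rw [List.mem_flatMap]
    constructor
    · rintro ⟨a, ha, hb⟩
      obtain ⟨b, hb', rfl⟩ := List.mem_map.1 hb
      obtain ⟨c, hc, rfl⟩ := (hs h2 a).1 ha
      obtain ⟨c', hc', rfl⟩ := (ht' h3 b).1 hb'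
      refine ⟨fun i => if i ∈ vars s then c i else c' i, fun i => ?_, ?_⟩
      · by_cases hi : i ∈ vars s
        · simp only [hi, if_true]
          exact hc i
        · simp only [hi, if_false]
          exact hc' i
      · change FreeMagma.lift (fun i => if i ∈ vars s then c i else c' i) s *
          FreeMagma.lift (fun i => if i ∈ vars s then c i else c' i) t = _
        congr 1
        · exact SComp2_congr _ _ s fun i hi => by simp [hi]
        · refine SComp2_congr _ _ t fun i hi => ?_
          have : i ∉ vars s := fun hi' => h4 i hi' i hi rfl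
          simp [this]
    · rintro ⟨c, hc, rfl⟩
      exact ⟨FreeMagma.lift c s, (hs h2 _).2 ⟨c, hc, rfl⟩, List.mem_map.2
        ⟨FreeMagma.lift c t, (ht' h3 _).2 ⟨c, hc, rfl⟩, rfl⟩⟩

variable {F : Type} [Field F] {n : ℕ}

/-- The relators and the instances of the identities. -/
def PB (T : List (FreeMagma ℕ)) (r : List (Poly F (Fin n))) (H : ℕ) : List (Poly F (Fin n)) :=
  r ++ T.flatMap fun t => (PV n t H).map fun m => [(1, m)]

/-- The list of the consequences with fuel `H`. -/
def PG (T : List (FreeMagma ℕ)) (r : List (Poly F (Fin n))) : ℕ → List (Poly F (Fin n))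
  | 0 => PB T r 0
  | H + 1 => PB T r (H + 1) ++
      (((PG T r H).flatMap fun g => (PM n H).map fun m => g.map fun q => (q.1, q.2 * m)) ++
      ((PG T r H).flatMap fun g => (PM n H).map fun m => g.map fun q => (q.1, m * q.2)))

theorem SComp2_toP_cons {X : Type} (q : F × FreeMagma X) (w : Poly F X) :
    toP (q :: w) = Finsupp.single q.2 q.1 + toP w := by simp [toP]

theorem SComp2_single {X : Type} (m : FreeMagma X) (c : F) :
    Finsupp.single m c = c • tr F m := by
  rw [tr, Finsupp.smul_single, smul_eq_mul, mul_one]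

theorem toP_mulr {X : Type} (g : Poly F X) (m : FreeMagma X) :
    toP (g.map fun q => (q.1, q.2 * m)) = mulP F X (toP g) (tr F m) := by
  induction g with
  | nil => simp [toP]
  | cons q g ih =>
    rw [List.map_cons, SComp2_toP_cons, SComp2_toP_cons, ih, map_add, LinearMap.add_apply,
      SComp2_single, SComp2_single, map_smul, LinearMap.smul_apply, mulP_tr]

theorem toP_mull {X : Type} (g : Poly F X) (m : FreeMagma X) :
    toP (g.map fun q => (q.1, m * q.2)) = mulP F X (tr F m) (toP g) := by
  induction g with
  | nil => simp [toP]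
  | cons q g ih =>
    rw [List.map_cons, SComp2_toP_cons, SComp2_toP_cons, ih, map_add,
      SComp2_single, SComp2_single, map_smul, mulP_tr]

theorem SComp2_PB {T : List (FreeMagma ℕ)} {r : List (Poly F (Fin n))} {H : ℕ}
    {g : Poly F (Fin n)} (hg : g ∈ PB T r H) : g ∈ PG T r H := by
  cases H with
  | zero => exact hg
  | succ H => exact List.mem_append_left _ hg

theorem gen_iff (T : List (FreeMagma ℕ)) (hT : ∀ t ∈ T, Multilinear t)
    (r : List (Poly F (Fin n))) (H : ℕ) (p : NA F (Fin n)) :
    Gen T r H p ↔ ∃ g ∈ PG T r H, p = toP g := by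
  constructor
  · intro h
    induction h with
    | @rel H p hp => exact ⟨p, SComp2_PB (List.mem_append_left _ hp), rfl⟩
    | @inst H t c ht hc =>
      refine ⟨[(1, FreeMagma.lift c t)], SComp2_PB (List.mem_append_right _ ?_), ?_⟩
      · exact List.mem_flatMap.2 ⟨t, ht, List.mem_map.2
          ⟨_, (mem_PV n t (hT t ht) H _).2 ⟨c, hc, rfl⟩, rfl⟩⟩
      · simp [toP, tr]
    | @mulr H p m _ hm ih =>
      obtain ⟨g, hg, rfl⟩ := ih
      refine ⟨g.map fun q => (q.1, q.2 * m), ?_, (toP_mulr g m).symm⟩
      refine List.mem_append_right _ (List.mem_append_left _ ?_)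
      exact List.mem_flatMap.2 ⟨g, hg, List.mem_map.2 ⟨m, (mem_PM n H m).2 hm, rfl⟩⟩
    | @mull H p m _ hm ih =>
      obtain ⟨g, hg, rfl⟩ := ih
      refine ⟨g.map fun q => (q.1, m * q.2), ?_, (toP_mull g m).symm⟩
      refine List.mem_append_right _ (List.mem_append_right _ ?_)
      exact List.mem_flatMap.2 ⟨g, hg, List.mem_map.2 ⟨m, (mem_PM n H m).2 hm, rfl⟩⟩
  · rintro ⟨g, hg, rfl⟩
    have hB : ∀ (H : ℕ) (g : Poly F (Fin n)), g ∈ PB T r H → Gen T r H (toP g) := by
      intro H g hg
      rcases List.mem_append.1 hg with hg | hg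
      · exact Gen.rel hg
      · obtain ⟨t, ht, hg⟩ := List.mem_flatMap.1 hg
        obtain ⟨m, hm, rfl⟩ := List.mem_map.1 hg
        obtain ⟨c, hc, rfl⟩ := (mem_PV n t (hT t ht) H m).1 hm
        have h1 : toP [((1 : F), FreeMagma.lift c t)] = tr F (FreeMagma.lift c t) := by
          simp [toP, tr]
        rw [h1]
        exact Gen.inst ht hc
    induction H generalizing g with
    | zero => exact hB 0 g hg
    | succ H ih =>
      rcases List.mem_append.1 hg with hg | hg
      · exact hB _ g hg
      · rcases List.mem_append.1 hg with hg | hg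
        · obtain ⟨g', hg', hg⟩ := List.mem_flatMap.1 hg
          obtain ⟨m, hm, rfl⟩ := List.mem_map.1 hg
          rw [toP_mulr]
          exact Gen.mulr (ih g' hg') ((mem_PM n H m).1 hm)
        · obtain ⟨g', hg', hg⟩ := List.mem_flatMap.1 hg
          obtain ⟨m, hm, rfl⟩ := List.mem_map.1 hg
          rw [toP_mull]
          exact Gen.mull (ih g' hg') ((mem_PM n H m).1 hm)

end Lists

end Pool.Agent.W_59b51d_h18
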