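import Pool.Agent.W_59b51d_h18.Defs

/-!
# The fork condition
-/

namespace Pool.Agent.W_59b51d_h18

/-- The list of the subtrees of a monomial. -/
def subs : FreeMagma ℕ → List (FreeMagma ℕ)
  | .of i => [.of i]
  | .mul s t => .mul s t :: (subs s ++ subs t)

/-- `t` is obtained from `s` by substituting monomials for the variables. -/
def Inst (s t : FreeMagma ℕ) : Prop := ∃ c : ℕ → FreeMagma ℕ, FreeMagma.lift c s = t

/-- `f` is a fork of `T`: a subtree of a member of `T` which is a product of two products. -/
def IsFork (T : List (FreeMagma ℕ)) (f : FreeMagma ℕ) : Prop :=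
  (∃ t ∈ T, f ∈ subs t) ∧ ∃ a b c d : FreeMagma ℕ, f = (a * b) * (c * d)

/-- The condition on the forks: if three forks are pairwise incomparable, then any two of them,
`a * b` and `c * d`, have comparable left factors or comparable right factors, or one of the
products `a * d` and `c * b` is an instance of a member of `T`. -/
def ForkCondition (T : List (FreeMagma ℕ)) : Prop :=
  ∀ a b c d k : FreeMagma ℕ, IsFork T (a * b) → IsFork T (c * d) → IsFork T k →
    ¬ Inst (a * b) (c * d) → ¬ Inst (c * d) (a * b) → ¬ Inst (a * b) k → ¬ Inst k (a * b) →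
    ¬ Inst (c * d) k → ¬ Inst k (c * d) →
    (Inst a c ∨ Inst c a) ∨ (Inst b d ∨ Inst d b) ∨ ∃ t ∈ T, Inst t (a * d) ∨ Inst t (c * b)

end Pool.Agent.W_59b51d_h18
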