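import Pool.Agent.W_59b51d_h18.SCond

/-!
# Definitions for the solvable side

Polynomials are finitely supported functions on monomials (`NA F X`), `Gen T r H p` says that `p`
is an obvious consequence, with fuel `H`, of the identities `T` and of the relators `r`, and
`Cons T r H` is the span of these consequences.
-/

namespace Pool.Agent.W_59b51d_h18

/-- The height of a monomial; variables have height `0`. -/
def height {X : Type} : FreeMagma X → ℕ
  | .of _ => 0
  | .mul s t => max (height s) (height t) + 1

/-- The free nonassociative algebra, as a vector space. -/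
abbrev NA (F X : Type) [Field F] : Type := FreeMagma X →₀ F

/-- A monomial as an element of the free nonassociative algebra. -/
noncomputable def tr (F : Type) {X : Type} [Field F] (m : FreeMagma X) : NA F X :=
  Finsupp.single m 1

/-- The product of the free nonassociative algebra. -/
noncomputable def mulP (F X : Type) [Field F] : NA F X →ₗ[F] NA F X →ₗ[F] NA F X :=
  Finsupp.linearCombination F fun m : FreeMagma X => Finsupp.lmapDomain F F fun m' => m * m'

/-- The element of the free nonassociative algebra given by a list of terms. -/
noncomputable def toP {F X : Type} [Field F] (w : Poly F X) : NA F X :=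
  (w.map fun q => Finsupp.single q.2 q.1).sum

/-- The span of the monomials of height at most `h`. -/
noncomputable def Tr (F X : Type) [Field F] (h : ℕ) : Submodule F (NA F X) :=
  Submodule.span F {p | ∃ m : FreeMagma X, height m ≤ h ∧ p = tr F m}

/-- `p` is a consequence with fuel `H` of the identities `T` and of the relators `r`. -/
inductive Gen {F X : Type} [Field F] (T : List (FreeMagma ℕ)) (r : List (Poly F X)) :
    ℕ → NA F X → Prop
  | rel {H : ℕ} {p : Poly F X} : p ∈ r → Gen T r H (toP p)
  | inst {H : ℕ} {t : FreeMagma ℕ} {c : ℕ → FreeMagma X} : t ∈ T → (∀ i, height (c i) ≤ H) →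
      Gen T r H (tr F (FreeMagma.lift c t))
  | mulr {H : ℕ} {g : NA F X} {m : FreeMagma X} : Gen T r H g → height m ≤ H →
      Gen T r (H + 1) (mulP F X g (tr F m))
  | mull {H : ℕ} {g : NA F X} {m : FreeMagma X} : Gen T r H g → height m ≤ H →
      Gen T r (H + 1) (mulP F X (tr F m) g)

/-- The span of the consequences with fuel `H`. -/
noncomputable def Cons {F X : Type} [Field F] (T : List (FreeMagma ℕ)) (r : List (Poly F X))
    (H : ℕ) : Submodule F (NA F X) :=
  Submodule.span F {p | Gen T r H p}

/-- The span of the values of the monomials `τ ∈ S` at monomials of height at most `H`. -/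
noncomputable def EE (F X : Type) [Field F] (S : Finset (FreeMagma ℕ)) (H : ℕ) :
    Submodule F (NA F X) :=
  Submodule.span F {p | ∃ τ ∈ S, ∃ c : ℕ → FreeMagma X, (∀ i, height (c i) ≤ H) ∧
    p = tr F (FreeMagma.lift c τ)}

/-- `EE S H + Cons T r H`. -/
noncomputable def DD {F X : Type} [Field F] (T : List (FreeMagma ℕ)) (r : List (Poly F X))
    (S : Finset (FreeMagma ℕ)) (H : ℕ) : Submodule F (NA F X) :=
  EE F X S H ⊔ Cons T r H

section Algebra

variable (F : Type) [Field F] {X A : Type} [NonUnitalNonAssocRing A] [Module F A]
  [IsScalarTower F A A] [SMulCommClass F A A]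

/-- Evaluation of elements of the free nonassociative algebra, as a linear map. -/
noncomputable def ev (a : X → A) : NA F X →ₗ[F] A :=
  Finsupp.linearCombination F fun m => FreeMagma.lift a m

/-- The subspace `A_τ`: `A_x = A` for a variable `x` and `A_(st)` is the span of `A_s A_t`. -/
noncomputable def AS (A : Type) [NonUnitalNonAssocRing A] [Module F A]
    [IsScalarTower F A A] [SMulCommClass F A A] : FreeMagma ℕ → Submodule F A
  | .of _ => ⊤
  | .mul s t => Submodule.map₂ (LinearMap.mul F A) (AS A s) (AS A t)

/-- The sum of the subspaces `A_τ`, `τ ∈ S`. -/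
noncomputable def SS (A : Type) [NonUnitalNonAssocRing A] [Module F A]
    [IsScalarTower F A A] [SMulCommClass F A A] (S : Finset (FreeMagma ℕ)) : Submodule F A :=
  ⨆ τ ∈ S, AS F A τ

/-- The algebra `A`, with the family `a`, is the algebra presented by `T` and `r`: it is generated
by `a` and the polynomials vanishing at `a` are the consequences of `T` and `r`. -/
structure IsPres (T : List (FreeMagma ℕ)) (r : List (Poly F X)) (a : X → A) : Prop where
  surj : Function.Surjective (ev F a)
  ker : ∀ p : NA F X, ev F a p = 0 ↔ ∃ H, p ∈ Cons T r H

/-- Bounded derivations: a combination `w` of monomials of height at most `h` whose value lies in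
the sum of the `A_τ`, `τ ∈ S`, lies in `DD T r S N`. -/
def Bd (T : List (FreeMagma ℕ)) (r : List (Poly F X)) (a : X → A) (S : Finset (FreeMagma ℕ))
    (h N : ℕ) : Prop :=
  ∀ w ∈ Tr F X h, ev F a w ∈ SS F A S → w ∈ DD T r S N

end Algebra

end Pool.Agent.W_59b51d_h18
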