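import Pool.Agent.W_59b51d_h18.SBasic

/-!
# Forks
-/

namespace Pool.Agent.W_59b51d_h18

/-- `Inst` is reflexive. -/
theorem Inst.refl (s : FreeMagma ℕ) : Inst s s := by
  refine ⟨FreeMagma.of, ?_⟩
  induction s using FreeMagma.rec with
  | of i => rfl
  | mul s t hs ht =>
    change FreeMagma.lift FreeMagma.of s * FreeMagma.lift FreeMagma.of t = s * t
    rw [hs, ht]

/-- `Inst` is transitive. -/
theorem Inst.trans {s t u : FreeMagma ℕ} (h : Inst s t) (h' : Inst t u) : Inst s u := by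
  obtain ⟨c, rfl⟩ := h
  obtain ⟨d, rfl⟩ := h'
  refine ⟨fun i => FreeMagma.lift d (c i), ?_⟩
  induction s using FreeMagma.rec with
  | of i => rfl
  | mul s t hs ht =>
    change FreeMagma.lift (fun i => FreeMagma.lift d (c i)) s *
        FreeMagma.lift (fun i => FreeMagma.lift d (c i)) t =
      FreeMagma.lift d (FreeMagma.lift c s * FreeMagma.lift c t)
    rw [map_mul, hs, ht]

/-- In a finite nonempty set of monomials some member is minimal for `Inst`.

Proof. `Finset.exists_minimal` for the preorder `Inst` (`Inst.refl`, `Inst.trans`). -/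
theorem exists_minimal_inst {M : Finset (FreeMagma ℕ)} (hM : M.Nonempty) :
    ∃ σ ∈ M, ∀ τ ∈ M, Inst τ σ → Inst σ τ := by
  induction M using Finset.cons_induction with
  | empty => exact absurd hM Finset.not_nonempty_empty
  | cons a M ha ih =>
    rcases M.eq_empty_or_nonempty with rfl | hM'
    · refine ⟨a, Finset.mem_cons_self _ _, fun τ hτ h => ?_⟩
      have : τ = a := by simpa using hτ
      rw [this]
      exact Inst.refl a
    · obtain ⟨σ, hσ, hmin⟩ := ih hM'
      by_cases h : Inst a σ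
      · refine ⟨a, Finset.mem_cons_self _ _, fun τ hτ hτa => ?_⟩
        rcases Finset.mem_cons.1 hτ with rfl | hτM
        · exact Inst.refl _
        · exact h.trans (hmin τ hτM (hτa.trans h))
      · refine ⟨σ, Finset.mem_cons_of_mem hσ, fun τ hτ hτσ => ?_⟩
        rcases Finset.mem_cons.1 hτ with rfl | hτM
        · exact absurd hτσ h
        · exact hmin τ hτM hτσ

/-- If among any three members of `M` two are comparable, then all members of `M` are above one of
two members.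

Proof. Let `σ ∈ M` be minimal. If all members are above `σ`, take `σ' = σ`. Otherwise let `σ'` be
minimal among the members not above `σ`. If `τ ∈ M` is neither above `σ` nor above `σ'`, then `σ`,
`σ'`, `τ` are pairwise incomparable: `Inst σ' σ` would give `Inst σ σ'` by minimality of `σ`, in the
same way `Inst τ σ` would give `Inst σ τ`, and `Inst τ σ'` would give `Inst σ' τ`. -/
theorem exists_two {M : Finset (FreeMagma ℕ)} (hM : M.Nonempty)
    (h : ∀ f ∈ M, ∀ g ∈ M, ∀ k ∈ M, (Inst f g ∨ Inst g f) ∨ (Inst g k ∨ Inst k g) ∨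
      (Inst f k ∨ Inst k f)) :
    ∃ σ ∈ M, ∃ σ' ∈ M, ∀ τ ∈ M, Inst σ τ ∨ Inst σ' τ := by
  classical
  obtain ⟨σ, hσ, hmin⟩ := exists_minimal_inst hM
  by_cases hall : ∀ τ ∈ M, Inst σ τ
  · exact ⟨σ, hσ, σ, hσ, fun τ hτ => Or.inl (hall τ hτ)⟩
  · push Not at hall
    obtain ⟨ρ, hρ, hρσ⟩ := hall
    obtain ⟨σ', hσ', hmin'⟩ := exists_minimal_inst (M := M.filter fun τ => ¬ Inst σ τ)
      ⟨ρ, Finset.mem_filter.2 ⟨hρ, hρσ⟩⟩
    obtain ⟨hσ'M, hσσ'⟩ := Finset.mem_filter.1 hσ'
    refine ⟨σ, hσ, σ', hσ'M, fun τ hτ => ?_⟩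
    by_contra hcon
    push Not at hcon
    obtain ⟨h1, h2⟩ := hcon
    rcases h σ hσ σ' hσ'M τ hτ with (h3 | h3) | (h3 | h3) | (h3 | h3)
    · exact hσσ' h3
    · exact hσσ' (hmin σ' hσ'M h3)
    · exact h2 h3
    · exact h2 (hmin' τ (Finset.mem_filter.2 ⟨hτ, h1⟩) h3)
    · exact h1 h3
    · exact h1 (hmin τ hτ h3)

/-- `Inst` for products.

Proof. `lift c (α * β) = lift c α * lift c β`, and the factors of a product of the free magma are
determined (`injection` on `FreeMagma.mul`). -/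
theorem Inst.factors {α β γ δ : FreeMagma ℕ} (h : Inst (α * β) (γ * δ)) :
    Inst α γ ∧ Inst β δ := by
  obtain ⟨c, hc⟩ := h
  have h1 : FreeMagma.mul (FreeMagma.lift c α) (FreeMagma.lift c β) = FreeMagma.mul γ δ := hc
  injection h1 with h2 h3
  exact ⟨⟨c, h2⟩, ⟨c, h3⟩⟩

/-- `A_τ ≤ A_σ` if `τ` is an instance of `σ`.

Proof. `τ = lift c σ`; induction on `σ`: `AS` of a variable is `⊤`, and `Submodule.map₂_le_map₂` for
products. -/
theorem Inst.AS_le {F A : Type} [Field F] [NonUnitalNonAssocRing A] [Module F A]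
    [IsScalarTower F A A] [SMulCommClass F A A] {σ τ : FreeMagma ℕ} (h : Inst σ τ) :
    AS F A τ ≤ AS F A σ := by
  obtain ⟨c, rfl⟩ := h
  induction σ using FreeMagma.rec with
  | of i => exact le_top
  | mul s t hs ht => exact Submodule.map₂_le_map₂ hs ht

/-- The finite set of the subtrees of the members of `T`. -/
def allSubs (T : List (FreeMagma ℕ)) : Finset (FreeMagma ℕ) := (T.flatMap subs).toFinset

/-- Membership in `allSubs`. -/
theorem mem_allSubs {T : List (FreeMagma ℕ)} {s : FreeMagma ℕ} :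
    s ∈ allSubs T ↔ ∃ t ∈ T, s ∈ subs t := by
  simp [allSubs]

/-- Members of `T` are subtrees of themselves. -/
theorem mem_allSubs_self {T : List (FreeMagma ℕ)} {t : FreeMagma ℕ} (ht : t ∈ T) :
    t ∈ allSubs T := by
  refine mem_allSubs.2 ⟨t, ht, ?_⟩
  cases t with
  | of i => exact List.mem_singleton.2 rfl
  | mul s t => exact List.mem_cons_self

/-- The factors of a subtree are subtrees. -/
theorem factors_mem_subs {t α β : FreeMagma ℕ} (h : α * β ∈ subs t) :
    α ∈ subs t ∧ β ∈ subs t := by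
  have self : ∀ s : FreeMagma ℕ, s ∈ subs s := by
    intro s
    cases s with
    | of i => exact List.mem_singleton.2 rfl
    | mul s t => exact List.mem_cons_self
  induction t using FreeMagma.rec with
  | of i =>
    have h1 : FreeMagma.mul α β = FreeMagma.of i := List.mem_singleton.1 h
    cases h1
  | mul s t hs ht =>
    have h1 : α * β ∈ FreeMagma.mul s t :: (subs s ++ subs t) := h
    change α ∈ FreeMagma.mul s t :: (subs s ++ subs t) ∧
      β ∈ FreeMagma.mul s t :: (subs s ++ subs t)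
    rcases List.mem_cons.1 h1 with h2 | h2
    · have h3 : FreeMagma.mul α β = FreeMagma.mul s t := h2
      injection h3 with h4 h5
      subst h4 h5
      exact ⟨List.mem_cons_of_mem _ (List.mem_append_left _ (self _)),
        List.mem_cons_of_mem _ (List.mem_append_right _ (self _))⟩
    · rcases List.mem_append.1 h2 with h3 | h3
      · exact ⟨List.mem_cons_of_mem _ (List.mem_append_left _ (hs h3).1),
          List.mem_cons_of_mem _ (List.mem_append_left _ (hs h3).2)⟩
      · exact ⟨List.mem_cons_of_mem _ (List.mem_append_right _ (ht h3).1),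
          List.mem_cons_of_mem _ (List.mem_append_right _ (ht h3).2)⟩

/-- The factors of a subtree are subtrees. Proof: `subs` is transitively closed, by induction. -/
theorem factors_mem_allSubs {T : List (FreeMagma ℕ)} {α β : FreeMagma ℕ}
    (h : α * β ∈ allSubs T) : α ∈ allSubs T ∧ β ∈ allSubs T := by
  obtain ⟨t, ht, h1⟩ := mem_allSubs.1 h
  exact ⟨mem_allSubs.2 ⟨t, ht, (factors_mem_subs h1).1⟩,
    mem_allSubs.2 ⟨t, ht, (factors_mem_subs h1).2⟩⟩

/-- The combinatorial data used in the induction step: `T1` (`T2`) consists of left (right) factors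
of members of `S ∪ T` whose other factor is a variable, the products of `L1` and `L2` and those of
`L3` and `L4` are in `S ∪ T`, and every member of `S ∪ T` is a product of one of four kinds. -/
structure StepData (T : List (FreeMagma ℕ)) (S T1 T2 L1 L2 L3 L4 : Finset (FreeMagma ℕ)) :
    Prop where
  sub : T1 ⊆ allSubs T ∧ T2 ⊆ allSubs T ∧ L1 ⊆ allSubs T ∧ L2 ⊆ allSubs T ∧ L3 ⊆ allSubs T ∧
    L4 ⊆ allSubs T
  sub' : ∀ τ, τ ∈ S ∨ τ ∈ T → τ ∈ allSubs T
  t1 : ∀ α ∈ T1, ∃ i : ℕ, α * .of i ∈ S ∨ α * .of i ∈ T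
  t2 : ∀ β ∈ T2, ∃ i : ℕ, .of i * β ∈ S ∨ .of i * β ∈ T
  l12 : ∀ α ∈ L1, ∀ β ∈ L2, α * β ∈ S ∨ α * β ∈ T
  l34 : ∀ α ∈ L3, ∀ β ∈ L4, α * β ∈ S ∨ α * β ∈ T
  cov : ∀ τ, τ ∈ S ∨ τ ∈ T → ∃ α β, τ = α * β ∧ (α ∈ T1 ∨ β ∈ T2 ∨
    (∃ γ ∈ L1, ∃ δ ∈ L2, Inst γ α ∧ Inst δ β) ∨ ∃ γ ∈ L3, ∃ δ ∈ L4, Inst γ α ∧ Inst δ β)

/-- Existence of the data.

Proof. `M = S ∪ T` consists of products. `T1`: the left factors of the members of `M` whose right
factor is a variable; `T2`: the right factors of the members of `M` whose left factor is a variable.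
The other members of `M` are forks. If there are none, `L1 = L2 = L3 = L4 = ∅`. Otherwise apply
`exists_two` to them: `σ = α₁ * α₂`, `σ' = α₃ * α₄` and `Li = {αi}`; `Inst.factors`. -/
theorem exists_stepData {T : List (FreeMagma ℕ)}
    (hfork : ∀ f g k : FreeMagma ℕ, IsFork T f → IsFork T g → IsFork T k →
      (Inst f g ∨ Inst g f) ∨ (Inst g k ∨ Inst k g) ∨ (Inst f k ∨ Inst k f))
    {S : Finset (FreeMagma ℕ)} (hS : S ⊆ allSubs T)
    (hx : ∀ τ, τ ∈ S ∨ τ ∈ T → ∃ α β : FreeMagma ℕ, τ = α * β) :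
    ∃ T1 T2 L1 L2 L3 L4 : Finset (FreeMagma ℕ), StepData T S T1 T2 L1 L2 L3 L4 := by
  classical
  have hM : ∀ τ, τ ∈ S ∨ τ ∈ T → τ ∈ allSubs T := by
    rintro τ (h | h)
    · exact hS h
    · exact mem_allSubs_self h
  let T1 := (allSubs T).filter fun α => ∃ i : ℕ, α * .of i ∈ S ∨ α * .of i ∈ T
  let T2 := (allSubs T).filter fun β => ∃ i : ℕ, .of i * β ∈ S ∨ .of i * β ∈ T
  have kind : ∀ τ, τ ∈ S ∨ τ ∈ T → ∃ α β, τ = α * β ∧ (α ∈ T1 ∨ β ∈ T2 ∨ IsFork T τ) := by
    intro τ hτ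
    obtain ⟨α, β, rfl⟩ := hx τ hτ
    refine ⟨α, β, rfl, ?_⟩
    have hmem := hM _ hτ
    cases α with
    | of i =>
      exact Or.inr (Or.inl (Finset.mem_filter.2 ⟨(factors_mem_allSubs hmem).2, i, hτ⟩))
    | mul a b =>
      cases β with
      | of i => exact Or.inl (Finset.mem_filter.2 ⟨(factors_mem_allSubs hmem).1, i, hτ⟩)
      | mul c d =>
        exact Or.inr (Or.inr ⟨mem_allSubs.1 hmem, a, b, c, d, rfl⟩)
  let M := (S ∪ T.toFinset).filter fun τ => IsFork T τ
  have memM : ∀ τ, τ ∈ M ↔ (τ ∈ S ∨ τ ∈ T) ∧ IsFork T τ := by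
    intro τ
    simp only [M, Finset.mem_filter, Finset.mem_union, List.mem_toFinset]
  rcases M.eq_empty_or_nonempty with hE | hN
  · refine ⟨T1, T2, ∅, ∅, ∅, ∅, ⟨Finset.filter_subset _ _, Finset.filter_subset _ _, by simp,
      by simp, by simp, by simp⟩, hM, fun α hα => (Finset.mem_filter.1 hα).2,
      fun β hβ => (Finset.mem_filter.1 hβ).2, by simp, by simp, fun τ hτ => ?_⟩
    obtain ⟨α, β, h1, h2⟩ := kind τ hτ
    refine ⟨α, β, h1, ?_⟩
    rcases h2 with h2 | h2 | h2
    · exact Or.inl h2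
    · exact Or.inr (Or.inl h2)
    · have : τ ∈ M := (memM τ).2 ⟨hτ, h2⟩
      rw [hE] at this
      exact absurd this (Finset.notMem_empty _)
  · obtain ⟨σ, hσ, σ', hσ', hall⟩ := exists_two hN fun f hf g hg k hk =>
      hfork f g k ((memM f).1 hf).2 ((memM g).1 hg).2 ((memM k).1 hk).2
    obtain ⟨α₁, α₂, rfl⟩ := hx σ ((memM σ).1 hσ).1
    obtain ⟨α₃, α₄, rfl⟩ := hx σ' ((memM σ').1 hσ').1
    have hf1 := factors_mem_allSubs (hM _ ((memM _).1 hσ).1)
    have hf2 := factors_mem_allSubs (hM _ ((memM _).1 hσ').1)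
    refine ⟨T1, T2, {α₁}, {α₂}, {α₃}, {α₄}, ⟨Finset.filter_subset _ _, Finset.filter_subset _ _,
      by simpa using hf1.1, by simpa using hf1.2, by simpa using hf2.1, by simpa using hf2.2⟩, hM,
      fun α hα => (Finset.mem_filter.1 hα).2, fun β hβ => (Finset.mem_filter.1 hβ).2, ?_, ?_,
      fun τ hτ => ?_⟩
    · intro α hα β hβ
      rw [Finset.mem_singleton.1 hα, Finset.mem_singleton.1 hβ]
      exact ((memM _).1 hσ).1
    · intro α hα β hβ
      rw [Finset.mem_singleton.1 hα, Finset.mem_singleton.1 hβ]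
      exact ((memM _).1 hσ').1
    · obtain ⟨α, β, rfl, h2⟩ := kind τ hτ
      refine ⟨α, β, rfl, ?_⟩
      rcases h2 with h2 | h2 | h2
      · exact Or.inl h2
      · exact Or.inr (Or.inl h2)
      · rcases hall _ ((memM _).2 ⟨hτ, h2⟩) with h3 | h3
        · exact Or.inr (Or.inr (Or.inl ⟨α₁, Finset.mem_singleton_self _, α₂,
            Finset.mem_singleton_self _, h3.factors.1, h3.factors.2⟩))
        · exact Or.inr (Or.inr (Or.inr ⟨α₃, Finset.mem_singleton_self _, α₄,
            Finset.mem_singleton_self _, h3.factors.1, h3.factors.2⟩))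

end Pool.Agent.W_59b51d_h18
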