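import Pool.Agent.W_59b51d_h18.SForks

/-!
# Complete monomials: solvable algebras

The identity `full k 0 = 0` says that the algebra is solvable of index at most `k`.
-/

namespace Pool.Agent.W_59b51d_h18

/-- The complete monomial of height `k` in the `2 ^ k` different variables
`i * 2 ^ k, …, i * 2 ^ k + 2 ^ k - 1`: `full 0 i` is a variable, `full 1 i` a product of two
variables, `full 2 i` a product `(xy)(zt)`, and so on. -/
def full : ℕ → ℕ → FreeMagma ℕ
  | 0, i => .of i
  | k + 1, i => full k (2 * i) * full k (2 * i + 1)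

lemma mem_vars_full {k i j : ℕ} (h : j ∈ vars (full k i)) :
    i * 2 ^ k ≤ j ∧ j < (i + 1) * 2 ^ k := by
  induction k generalizing i with
  | zero =>
    have : j = i := by simpa [full, vars] using h
    subst this
    simp
  | succ k ih =>
    have h' : j ∈ vars (full k (2 * i)) ++ vars (full k (2 * i + 1)) := h
    rw [pow_succ]
    rcases List.mem_append.1 h' with h' | h'
    · obtain ⟨h1, h2⟩ := ih h'
      constructor
      · calc i * (2 ^ k * 2) = 2 * i * 2 ^ k := by ring
          _ ≤ j := h1
      · calc j < (2 * i + 1) * 2 ^ k := h2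
          _ ≤ (2 * i + 2) * 2 ^ k := Nat.mul_le_mul_right _ (by omega)
          _ = (i + 1) * (2 ^ k * 2) := by ring
    · obtain ⟨h1, h2⟩ := ih h'
      constructor
      · calc i * (2 ^ k * 2) = 2 * i * 2 ^ k := by ring
          _ ≤ (2 * i + 1) * 2 ^ k := Nat.mul_le_mul_right _ (by omega)
          _ ≤ j := h1
      · calc j < (2 * i + 1 + 1) * 2 ^ k := h2
          _ = (i + 1) * (2 ^ k * 2) := by ring

theorem multilinear_full (k i : ℕ) : Multilinear (full k i) := by
  induction k generalizing i with
  | zero => simp [Multilinear, full, vars]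
  | succ k ih =>
    change (vars (full k (2 * i)) ++ vars (full k (2 * i + 1))).Nodup
    refine List.nodup_append.2 ⟨ih _, ih _, ?_⟩
    intro a ha b hb hab
    have h1 := (mem_vars_full ha).2
    have h2 := (mem_vars_full hb).1
    omega

/-- The subtrees of a complete monomial are complete. -/
theorem eq_full_of_mem_subs {k i : ℕ} {s : FreeMagma ℕ} (h : s ∈ subs (full k i)) :
    ∃ j i', s = full j i' := by
  induction k generalizing i with
  | zero =>
    have : s = .of i := by simpa [full, subs] using h
    exact ⟨0, i, this⟩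
  | succ k ih =>
    have h' : s ∈ full (k + 1) i :: (subs (full k (2 * i)) ++ subs (full k (2 * i + 1))) := h
    rcases List.mem_cons.1 h' with h' | h'
    · exact ⟨k + 1, i, h'⟩
    · rcases List.mem_append.1 h' with h' | h'
      · exact ih h'
      · exact ih h'

lemma lift_full {c : ℕ → FreeMagma ℕ} {d : ℕ} (j i i' : ℕ)
    (hc : ∀ m < 2 ^ j, c (i * 2 ^ j + m) = full d (i' * 2 ^ j + m)) :
    FreeMagma.lift c (full j i) = full (j + d) i' := by
  induction j generalizing i i' with
  | zero =>
    have := hc 0 (by simp)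
    simp only [pow_zero, mul_one, add_zero] at this
    rw [Nat.zero_add]
    exact this
  | succ j ih =>
    rw [Nat.succ_add]
    change FreeMagma.lift c (full j (2 * i) * full j (2 * i + 1)) =
      full (j + d) (2 * i') * full (j + d) (2 * i' + 1)
    have hpow : 2 ^ (j + 1) = 2 ^ j * 2 := pow_succ 2 j
    rw [map_mul, ih (2 * i) (2 * i'), ih (2 * i + 1) (2 * i' + 1)]
    · intro m hm
      have := hc (2 ^ j + m) (by omega)
      rw [hpow] at this
      rw [show (2 * i + 1) * 2 ^ j + m = i * (2 ^ j * 2) + (2 ^ j + m) by ring,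
        show (2 * i' + 1) * 2 ^ j + m = i' * (2 ^ j * 2) + (2 ^ j + m) by ring]
      exact this
    · intro m hm
      have := hc m (by omega)
      rw [hpow] at this
      rw [show (2 * i) * 2 ^ j + m = i * (2 ^ j * 2) + m by ring,
        show (2 * i') * 2 ^ j + m = i' * (2 ^ j * 2) + m by ring]
      exact this

theorem inst_full {j j' : ℕ} (h : j ≤ j') (i i' : ℕ) : Inst (full j i) (full j' i') := by
  obtain ⟨d, rfl⟩ := Nat.exists_eq_add_of_le h
  refine ⟨fun v => full d (i' * 2 ^ j + (v - i * 2 ^ j)), lift_full j i i' fun m _ => ?_⟩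
  simp only [Nat.add_sub_cancel_left]

theorem inst_or_full {k : ℕ} {f g : FreeMagma ℕ} (hf : IsFork [full k 0] f)
    (hg : IsFork [full k 0] g) : Inst f g ∨ Inst g f := by
  obtain ⟨⟨t, ht, hf⟩, -⟩ := hf
  obtain ⟨⟨t', ht', hg⟩, -⟩ := hg
  rw [List.mem_singleton] at ht ht'
  subst ht ht'
  obtain ⟨j, i, rfl⟩ := eq_full_of_mem_subs hf
  obtain ⟨j', i', rfl⟩ := eq_full_of_mem_subs hg
  rcases le_total j j' with h | h
  · exact Or.inl (inst_full h i i')
  · exact Or.inr (inst_full h i' i)

/-- The fork condition holds for the algebras which are solvable of index at most `k`. -/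
theorem forkCondition_full (k : ℕ) : ForkCondition [full k 0] := by
  intro a b c d _ hf hg _ h1 h2
  exact absurd (inst_or_full hf hg) (not_or.2 ⟨h1, h2⟩)

end Pool.Agent.W_59b51d_h18
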