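import Pool.Agent.W_59b51d_h18.SBasic

/-!
# The subspaces `A_τ` as images
-/

namespace Pool.Agent.W_59b51d_h18

/-- The values of a monomial depend only on the values of its variables.

Proof. Induction on `t`. -/
theorem lift_congr {M : Type} [Mul M] {t : FreeMagma ℕ} {c c' : ℕ → M}
    (h : ∀ i ∈ vars t, c i = c' i) : FreeMagma.lift c t = FreeMagma.lift c' t := by
  induction t using FreeMagma.rec with
  | of i => exact h i (List.mem_singleton.2 rfl)
  | mul s t hs ht =>
    change FreeMagma.lift c s * FreeMagma.lift c t = FreeMagma.lift c' s * FreeMagma.lift c' t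
    rw [hs fun i hi => h i (List.mem_append_left _ hi),
      ht fun i hi => h i (List.mem_append_right _ hi)]

/-- A product of values of `α` and `β` is a value of the multilinear monomial `α * β`.

Proof. Take `c'' i = c i` for `i ∈ vars α` and `c'' i = c' i` for the other `i`; the lists `vars α`
and `vars β` are disjoint. Use `lift_congr`. -/
theorem exists_glue {M : Type} [Mul M] {α β : FreeMagma ℕ} (h : Multilinear (α * β))
    (c c' : ℕ → M) : ∃ c'' : ℕ → M, (∀ i, c'' i = c i ∨ c'' i = c' i) ∧
      FreeMagma.lift c'' (α * β) = FreeMagma.lift c α * FreeMagma.lift c' β := by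
  classical
  have hd : List.Disjoint (vars α) (vars β) := List.disjoint_of_nodup_append h
  refine ⟨fun i => if i ∈ vars α then c i else c' i, fun i => ?_, ?_⟩
  · by_cases hi : i ∈ vars α
    · exact Or.inl (if_pos hi)
    · exact Or.inr (if_neg hi)
  · change FreeMagma.lift (fun i => if i ∈ vars α then c i else c' i) α *
      FreeMagma.lift (fun i => if i ∈ vars α then c i else c' i) β = _
    rw [lift_congr (t := α) (c' := c) fun i hi => if_pos hi,
      lift_congr (t := β) (c' := c') fun i hi => if_neg fun hi' => hd hi' hi]

/-- The factors of a multilinear monomial are multilinear. -/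
theorem multilinear_left {α β : FreeMagma ℕ} (h : Multilinear (α * β)) : Multilinear α := by
  exact List.Nodup.of_append_left (l₁ := vars α) (l₂ := vars β) h

/-- The factors of a multilinear monomial are multilinear. -/
theorem multilinear_right {α β : FreeMagma ℕ} (h : Multilinear (α * β)) : Multilinear β := by
  exact List.Nodup.of_append_right (l₁ := vars α) (l₂ := vars β) h

/-- The subtrees of a multilinear monomial are multilinear. -/
theorem multilinear_of_mem_subs {t : FreeMagma ℕ} (h : Multilinear t) {s : FreeMagma ℕ}
    (hs : s ∈ subs t) : Multilinear s := by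
  induction t using FreeMagma.rec with
  | of i =>
    have h1 : s = FreeMagma.of i := List.mem_singleton.1 hs
    rw [h1]
    exact h
  | mul α β iα iβ =>
    have h1 : s ∈ (FreeMagma.mul α β) :: (subs α ++ subs β) := hs
    rcases List.mem_cons.1 h1 with h2 | h2
    · rw [h2]
      exact h
    · rcases List.mem_append.1 h2 with h3 | h3
      · exact iα (multilinear_left h) h3
      · exact iβ (multilinear_right h) h3

section Algebra

variable {F : Type} [Field F] {X A : Type} [NonUnitalNonAssocRing A] [Module F A]
  [IsScalarTower F A A] [SMulCommClass F A A]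

/-- `A_τ` is the image of the span of the values of `τ` at monomials, if `τ` is multilinear and the
algebra is generated by `a`.

Proof. Induction on `τ`. For a variable both sides are `⊤`. For `τ = α * β`:
`AS (α * β) = map₂ mul (AS α) (AS β) = map₂ mul (map ev Eα) (map ev Eβ)`, which is the span of the
elements `ev (tr (lift c α)) * ev (tr (lift c' β)) = ev (tr (lift c α * lift c' β))`
(`Submodule.map₂_span_span`, `Submodule.map_span`), and `lift c α * lift c' β = lift c'' (α * β)` by
`exists_glue`. -/
theorem AS_eq_map {a : X → A} (ha : Function.Surjective (ev F a)) {τ : FreeMagma ℕ}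
    (hτ : Multilinear τ) : AS F A τ = Submodule.map (ev F a)
      (Submodule.span F {p | ∃ c : ℕ → FreeMagma X, p = tr F (FreeMagma.lift c τ)}) := by
  induction τ using FreeMagma.rec with
  | of i =>
    have h1 : Submodule.span F {p : NA F X | ∃ c : ℕ → FreeMagma X,
        p = tr F (FreeMagma.lift c (FreeMagma.of i))} = ⊤ := by
      rw [Submodule.eq_top_iff']
      intro p
      induction p using NA_induction with
      | h0 => exact zero_mem _
      | hadd p q hp hq => exact add_mem hp hq
      | hsm c m => exact Submodule.smul_mem _ _ (Submodule.subset_span ⟨fun _ => m, rfl⟩)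
    rw [h1, Submodule.map_top, LinearMap.range_eq_top.2 ha]
    rfl
  | mul α β iα iβ =>
    have hτ' : Multilinear (α * β) := hτ
    change AS F A (α * β) = Submodule.map (ev F a)
      (Submodule.span F {p | ∃ c : ℕ → FreeMagma X, p = tr F (FreeMagma.lift c (α * β))})
    rw [AS_mul, iα (multilinear_left hτ'), iβ (multilinear_right hτ'), Submodule.map_span,
      Submodule.map_span, Submodule.map_span, Submodule.map₂_span_span]
    congr 1
    ext x
    constructor
    · rintro ⟨_, ⟨_, ⟨c, rfl⟩, rfl⟩, _, ⟨_, ⟨c', rfl⟩, rfl⟩, rfl⟩
      obtain ⟨c'', -, h⟩ := exists_glue hτ' c c'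
      refine ⟨_, ⟨c'', rfl⟩, ?_⟩
      rw [h, ← mulP_tr, ev_mulP]
      rfl
    · rintro ⟨_, ⟨c, rfl⟩, rfl⟩
      refine ⟨_, ⟨_, ⟨c, rfl⟩, rfl⟩, _, ⟨_, ⟨c, rfl⟩, rfl⟩, ?_⟩
      change ev F a (tr F (FreeMagma.lift c α)) * ev F a (tr F (FreeMagma.lift c β)) = _
      rw [← ev_mulP, mulP_tr]
      rfl

end Algebra

end Pool.Agent.W_59b51d_h18
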