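import Mathlib

/-!
# Extension of a linear map with values in given subspaces
-/

namespace Pool.Agent.W_59b51d_h18

/-- Factorization of a linear map through another one, over a field.

Proof. `ψ` is `0` on `ker σ`; a linear map `g : range σ → H0` with `g (σ x) = ψ x` exists
(`Submodule.liftQ` and `LinearMap.quotKerEquivRange`), and it extends to `A`
(`LinearMap.exists_extend`). -/
theorem exists_factor {F E A H : Type} [Field F] [AddCommGroup E] [Module F E] [AddCommGroup A]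
    [Module F A] [AddCommGroup H] [Module F H] (σ : E →ₗ[F] A) (ψ : E →ₗ[F] H)
    (h : ∀ x, σ x = 0 → ψ x = 0) (H0 : Submodule F H) (h0 : ∀ x, ψ x ∈ H0) :
    ∃ Φ : A →ₗ[F] H, (∀ x, Φ (σ x) = ψ x) ∧ ∀ a, Φ a ∈ H0 := by
  obtain ⟨s, hs⟩ := LinearMap.exists_rightInverse_of_surjective σ.rangeRestrict
    σ.range_rangeRestrict
  obtain ⟨g, hg⟩ := LinearMap.exists_extend
    ((ψ.comp s).codRestrict H0 (fun x => h0 (s x)))
  refine ⟨H0.subtype.comp g, fun x => ?_, fun a => (g a).2⟩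
  have e1 : g (σ x) = ((ψ.comp s).codRestrict H0 (fun x => h0 (s x))) (σ.rangeRestrict x) := by
    rw [← hg]
    rfl
  have e2 : σ.rangeRestrict (s (σ.rangeRestrict x)) = σ.rangeRestrict x :=
    LinearMap.congr_fun hs (σ.rangeRestrict x)
  have e3 : σ (s (σ.rangeRestrict x)) = σ x := congrArg Subtype.val e2
  have e4 : ψ (s (σ.rangeRestrict x) - x) = 0 := h _ (by rw [map_sub, e3, sub_self])
  have e5 : ψ (s (σ.rangeRestrict x)) = ψ x := by
    rw [map_sub] at e4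
    exact sub_eq_zero.mp e4
  show ((g (σ x) : H0) : H) = ψ x
  rw [e1]
  exact e5

/-- A linear map into the sum of two subspaces is the sum of linear maps into these subspaces. -/
theorem exists_split_map {F C H : Type} [Field F] [AddCommGroup C] [Module F C] [AddCommGroup H]
    [Module F H] (P Q : Submodule F H) (f : C →ₗ[F] H) (hf : ∀ c, f c ∈ P ⊔ Q) :
    ∃ f1 f3 : C →ₗ[F] H, (∀ c, f1 c ∈ P) ∧ (∀ c, f3 c ∈ Q) ∧ ∀ c, f1 c + f3 c = f c := by
  have hr : ∀ c, f c ∈ LinearMap.range (P.subtype.coprod Q.subtype) := by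
    intro c
    rw [LinearMap.range_coprod, Submodule.range_subtype, Submodule.range_subtype]
    exact hf c
  obtain ⟨s, hs⟩ := LinearMap.exists_rightInverse_of_surjective
    (P.subtype.coprod Q.subtype).rangeRestrict (LinearMap.range_rangeRestrict _)
  let f' : C →ₗ[F] LinearMap.range (P.subtype.coprod Q.subtype) := f.codRestrict _ hr
  refine ⟨P.subtype.comp ((LinearMap.fst F P Q).comp (s.comp f')),
    Q.subtype.comp ((LinearMap.snd F P Q).comp (s.comp f')), fun c => (s (f' c)).1.2,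
    fun c => (s (f' c)).2.2, fun c => ?_⟩
  have e2 := congrArg Subtype.val (LinearMap.congr_fun hs (f' c))
  exact e2

/-- **Lemma X.** `V`, `W ≤ U1 ⊓ U3` are subspaces of `A`, and `H13 ≤ H1 ⊓ H3`, `H1 ⊔ H3 ≤ H0` are
subspaces of `H`. The linear map `φ`, of which only the values on `V` matter, can be changed outside
of `V` so that it maps `A` into `H0`, `U1` into `H1`, `U3` into `H3`, `U1 ⊓ U3` into `H13` and
kills `W`, provided that it does so on `V` and that it maps `V ⊓ (U1 ⊔ U3)` into `H1 ⊔ H3`.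

Proof. (1) There is a linear `Φ0 : U1 ⊓ U3 → H13` which is `φ` on `V ⊓ U1 ⊓ U3` and `0` on `W`:
`exists_factor` for `σ : (V ⊓ U1 ⊓ U3) × W → A`, `(v, w) ↦ v + w` and `ψ (v, w) = φ v`
(if `v + w = 0` then `v ∈ V ⊓ W`, so `φ v = 0`), with values in `H13`.
(2) Let `M = (V ⊓ U1) ⊔ (V ⊓ U3) ≤ N = V ⊓ (U1 ⊔ U3)` and let `C ≤ N` be a subspace with
`M ⊔ C = N`, `M ⊓ C = ⊥`. As `U1 × U3 → U1 ⊔ U3` is onto there are linear maps `u1 : C → U1`,
`u3 : C → U3` with `u1 c + u3 c = c`; in the same way there are linear maps `h1 : C → H1`,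
`h3 : C → H3` with `h1 c + h3 c = φ c`.
(3) There is a linear `Φ1 : A → H1` with `Φ1 = Φ0` on `U1 ⊓ U3`, `Φ1 = φ` on `V ⊓ U1` and
`Φ1 (u1 c) = h1 c`: `exists_factor` for `(k, v, c) ↦ k + v + u1 c` on
`(U1 ⊓ U3) × (V ⊓ U1) × C`: if `k + v + u1 c = 0` then `c + v = u3 c - k ∈ V ⊓ U3`, so `c ∈ M`, so
`c = 0` and `v = - k ∈ V ⊓ U1 ⊓ U3`, so `Φ0 k + φ v + h1 c = - φ v + φ v = 0`. In the same way
there is `Φ3 : A → H3` (equal to `Φ0` on `U1 ⊓ U3`, to `φ` on `V ⊓ U3`, and `Φ3 (u3 c) = h3 c`).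
(4) There is a linear `Φ : A → H0` equal to `Φ1` on `U1`, to `Φ3` on `U3` and to `φ` on `V`:
`exists_factor` for `U1 × U3 × V → A`, `(x, y, v) ↦ x + y + v`: if `x + y + v = 0` then `- v ∈ N`,
`- v = m1 + m3 + c`, `m1 ∈ V ⊓ U1`, `m3 ∈ V ⊓ U3`, `c ∈ C`; so
`k := x - m1 - u1 c = - (y - m3 - u3 c)` is in `U1 ⊓ U3` and
`Φ1 x + Φ3 y = φ m1 + h1 c + Φ0 k + φ m3 + h3 c - Φ0 k = φ (- v)`. -/
theorem lemmaX {F A H : Type} [Field F] [AddCommGroup A] [Module F A] [AddCommGroup H] [Module F H]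
    (V U1 U3 W : Submodule F A) (hW1 : W ≤ U1) (hW3 : W ≤ U3) (H1 H3 H13 H0 : Submodule F H)
    (h1 : H13 ≤ H1) (h3 : H13 ≤ H3) (g1 : H1 ≤ H0) (g3 : H3 ≤ H0) (φ : A →ₗ[F] H)
    (f1 : ∀ v ∈ V, v ∈ U1 → φ v ∈ H1) (f3 : ∀ v ∈ V, v ∈ U3 → φ v ∈ H3)
    (f13 : ∀ v ∈ V, v ∈ U1 → v ∈ U3 → φ v ∈ H13) (f0 : ∀ v ∈ V, φ v ∈ H0)
    (fs : ∀ v ∈ V, v ∈ U1 ⊔ U3 → φ v ∈ H1 ⊔ H3) (fw : ∀ v ∈ V, v ∈ W → φ v = 0) :
    ∃ Φ : A →ₗ[F] H, (∀ v ∈ V, Φ v = φ v) ∧ (∀ a ∈ U1, Φ a ∈ H1) ∧ (∀ a ∈ U3, Φ a ∈ H3) ∧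
      (∀ a ∈ U1, a ∈ U3 → Φ a ∈ H13) ∧ (∀ a ∈ W, Φ a = 0) ∧ ∀ a, Φ a ∈ H0 := by
  -- step 1
  obtain ⟨Φ0, hΦ0, hΦ0m⟩ := exists_factor
    ((V ⊓ (U1 ⊓ U3)).subtype.coprod W.subtype)
    ((φ.comp (V ⊓ (U1 ⊓ U3)).subtype).comp (LinearMap.fst F _ W))
    (by
      rintro ⟨⟨v, hv⟩, ⟨w, hw⟩⟩ h
      have h' : v + w = 0 := h
      have hvw : v = - w := eq_neg_of_add_eq_zero_left h'
      show φ v = 0
      exact fw v hv.1 (by rw [hvw]; exact W.neg_mem hw))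
    H13
    (by
      rintro ⟨⟨v, hv⟩, ⟨w, hw⟩⟩
      exact f13 v hv.1 hv.2.1 hv.2.2)
  have p1 : ∀ v ∈ V, v ∈ U1 → v ∈ U3 → Φ0 v = φ v := by
    intro v hv a b
    have := hΦ0 (⟨v, hv, a, b⟩, 0)
    simpa using this
  have p2 : ∀ w ∈ W, Φ0 w = 0 := by
    intro w hw
    have := hΦ0 (0, ⟨w, hw⟩)
    simpa using this
  -- step 2
  obtain ⟨C', hC'⟩ := Submodule.exists_isCompl ((V ⊓ U1) ⊔ (V ⊓ U3))
  have hMN : (V ⊓ U1) ⊔ (V ⊓ U3) ≤ V ⊓ (U1 ⊔ U3) := le_inf_sup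
  have hsup : ((V ⊓ U1) ⊔ (V ⊓ U3)) ⊔ (C' ⊓ (V ⊓ (U1 ⊔ U3))) = V ⊓ (U1 ⊔ U3) := by
    rw [← sup_inf_assoc_of_le _ hMN, hC'.sup_eq_top, top_inf_eq]
  have hinf : ∀ c ∈ C' ⊓ (V ⊓ (U1 ⊔ U3)), c ∈ (V ⊓ U1) ⊔ (V ⊓ U3) → c = 0 := by
    intro c hc hc'
    have : c ∈ ((V ⊓ U1) ⊔ (V ⊓ U3)) ⊓ C' := ⟨hc', hc.1⟩
    rw [hC'.inf_eq_bot] at this
    exact (Submodule.mem_bot F).mp this
  generalize C' ⊓ (V ⊓ (U1 ⊔ U3)) = C at hsup hinf
  have hCN : ∀ c ∈ C, c ∈ V ⊓ (U1 ⊔ U3) := by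
    intro c hc
    rw [← hsup]
    exact Submodule.mem_sup_right hc
  obtain ⟨u1, u3, hu1, hu3, hu⟩ := exists_split_map U1 U3 C.subtype (fun c => (hCN c c.2).2)
  obtain ⟨k1, k3, hk1, hk3, hk⟩ := exists_split_map H1 H3 (φ.comp C.subtype)
    (fun c => fs c (hCN c c.2).1 (hCN c c.2).2)
  have hu' : ∀ c : C, u1 c + u3 c = (c : A) := hu
  have hk' : ∀ c : C, k1 c + k3 c = φ (c : A) := hk
  -- step 3
  obtain ⟨Φ1, hΦ1, hΦ1m⟩ := exists_factor
    ((U1 ⊓ U3).subtype.coprod ((V ⊓ U1).subtype.coprod u1))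
    ((Φ0.comp (U1 ⊓ U3).subtype).coprod ((φ.comp (V ⊓ U1).subtype).coprod k1))
    (by
      rintro ⟨⟨k, hk0⟩, ⟨v, hv⟩, c⟩ h
      have h' : k + (v + u1 c) = 0 := h
      have hc : (c : A) = 0 := by
        apply hinf c c.2
        have e : (c : A) = - v + (u3 c - k) := by
          rw [← hu' c]
          have : u1 c = - v - k := by
            calc u1 c = (k + (v + u1 c)) - v - k := by abel
              _ = - v - k := by rw [h']; abel
          rw [this]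
          abel
        have e' : u3 c - k = (c : A) + v := by rw [e]; abel
        have m : u3 c - k ∈ V ⊓ U3 := by
          refine ⟨?_, U3.sub_mem (hu3 c) hk0.2⟩
          rw [e']
          exact V.add_mem (hCN c c.2).1 hv.1
        rw [e]
        exact Submodule.add_mem _ (Submodule.mem_sup_left (Submodule.neg_mem _ hv))
          (Submodule.mem_sup_right m)
      have hc0 : c = 0 := Subtype.ext hc
      subst hc0
      rw [map_zero, add_zero] at h'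
      have hkv : k = - v := eq_neg_of_add_eq_zero_left h'
      show Φ0 k + (φ v + k1 0) = 0
      rw [map_zero, add_zero, hkv, map_neg, p1 v hv.1 hv.2, neg_add_cancel]
      have : - k ∈ U3 := U3.neg_mem hk0.2
      rwa [hkv, neg_neg] at this)
    H1
    (by
      rintro ⟨⟨k, hk0⟩, ⟨v, hv⟩, c⟩
      exact H1.add_mem (h1 (hΦ0m k)) (H1.add_mem (f1 v hv.1 hv.2) (hk1 c)))
  obtain ⟨Φ3, hΦ3, hΦ3m⟩ := exists_factor
    ((U1 ⊓ U3).subtype.coprod ((V ⊓ U3).subtype.coprod u3))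
    ((Φ0.comp (U1 ⊓ U3).subtype).coprod ((φ.comp (V ⊓ U3).subtype).coprod k3))
    (by
      rintro ⟨⟨k, hk0⟩, ⟨v, hv⟩, c⟩ h
      have h' : k + (v + u3 c) = 0 := h
      have hc : (c : A) = 0 := by
        apply hinf c c.2
        have e : (c : A) = (u1 c - k) + - v := by
          rw [← hu' c]
          have : u3 c = - v - k := by
            calc u3 c = (k + (v + u3 c)) - v - k := by abel
              _ = - v - k := by rw [h']; abel
          rw [this]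
          abel
        have e' : u1 c - k = (c : A) + v := by rw [e]; abel
        have m : u1 c - k ∈ V ⊓ U1 := by
          refine ⟨?_, U1.sub_mem (hu1 c) hk0.1⟩
          rw [e']
          exact V.add_mem (hCN c c.2).1 hv.1
        rw [e]
        exact Submodule.add_mem _ (Submodule.mem_sup_left m)
          (Submodule.mem_sup_right (Submodule.neg_mem _ hv))
      have hc0 : c = 0 := Subtype.ext hc
      subst hc0
      rw [map_zero, add_zero] at h'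
      have hkv : k = - v := eq_neg_of_add_eq_zero_left h'
      show Φ0 k + (φ v + k3 0) = 0
      rw [map_zero, add_zero, hkv, map_neg, p1 v hv.1 _ hv.2, neg_add_cancel]
      have : - k ∈ U1 := U1.neg_mem hk0.1
      rwa [hkv, neg_neg] at this)
    H3
    (by
      rintro ⟨⟨k, hk0⟩, ⟨v, hv⟩, c⟩
      exact H3.add_mem (h3 (hΦ0m k)) (H3.add_mem (f3 v hv.1 hv.2) (hk3 c)))
  have q1 : ∀ k ∈ U1, k ∈ U3 → Φ1 k = Φ0 k := by
    intro k a b
    have := hΦ1 (⟨k, a, b⟩, 0, 0)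
    simpa using this
  have q1v : ∀ v ∈ V, v ∈ U1 → Φ1 v = φ v := by
    intro v a b
    have := hΦ1 (0, ⟨v, a, b⟩, 0)
    simpa using this
  have q1c : ∀ c : C, Φ1 (u1 c) = k1 c := by
    intro c
    have := hΦ1 (0, 0, c)
    simpa using this
  have q3 : ∀ k ∈ U1, k ∈ U3 → Φ3 k = Φ0 k := by
    intro k a b
    have := hΦ3 (⟨k, a, b⟩, 0, 0)
    simpa using this
  have q3v : ∀ v ∈ V, v ∈ U3 → Φ3 v = φ v := by
    intro v a b
    have := hΦ3 (0, ⟨v, a, b⟩, 0)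
    simpa using this
  have q3c : ∀ c : C, Φ3 (u3 c) = k3 c := by
    intro c
    have := hΦ3 (0, 0, c)
    simpa using this
  -- step 4
  obtain ⟨Φ, hΦ, hΦm⟩ := exists_factor
    (U1.subtype.coprod (U3.subtype.coprod V.subtype))
    ((Φ1.comp U1.subtype).coprod ((Φ3.comp U3.subtype).coprod (φ.comp V.subtype)))
    (by
      rintro ⟨⟨x, hx⟩, ⟨y, hy⟩, ⟨v, hv⟩⟩ h
      have h' : x + (y + v) = 0 := h
      show Φ1 x + (Φ3 y + φ v) = 0
      have hxy : x + y = - v := by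
        calc x + y = (x + (y + v)) - v := by abel
          _ = - v := by rw [h']; abel
      have hN : - v ∈ V ⊓ (U1 ⊔ U3) := by
        refine ⟨V.neg_mem hv, ?_⟩
        rw [← hxy]
        exact Submodule.add_mem_sup hx hy
      rw [← hsup] at hN
      obtain ⟨m, hm, c, hc, hmc⟩ := Submodule.mem_sup.mp hN
      obtain ⟨m1, hm1, m3, hm3, hmm⟩ := Submodule.mem_sup.mp hm
      have hcc := hu' ⟨c, hc⟩
      have hkc := hk' ⟨c, hc⟩
      have a1 := q1c ⟨c, hc⟩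
      have a3 := q3c ⟨c, hc⟩
      have b1 := hu1 ⟨c, hc⟩
      have b3 := hu3 ⟨c, hc⟩
      generalize u1 ⟨c, hc⟩ = c1 at *
      generalize u3 ⟨c, hc⟩ = c3 at *
      generalize k1 ⟨c, hc⟩ = d1 at *
      generalize k3 ⟨c, hc⟩ = d3 at *
      simp only at hcc hkc
      have hv' : v = -(m1 + m3 + (c1 + c3)) := by
        rw [hcc, hmm, hmc, neg_neg]
      have hK : x - m1 - c1 = - (y - m3 - c3) := by
        have : x + y = m1 + m3 + (c1 + c3) := by rw [hxy, hv', neg_neg]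
        calc x - m1 - c1 = (x + y) - y - m1 - c1 := by abel
          _ = - (y - m3 - c3) := by rw [this]; abel
      have kU1 : x - m1 - c1 ∈ U1 := U1.sub_mem (U1.sub_mem hx hm1.2) b1
      have kU3 : x - m1 - c1 ∈ U3 := by
        rw [hK]
        exact U3.neg_mem (U3.sub_mem (U3.sub_mem hy hm3.2) b3)
      have ex : Φ1 x = φ m1 + d1 + Φ0 (x - m1 - c1) := by
        rw [← q1 _ kU1 kU3, map_sub, map_sub, q1v m1 hm1.1 hm1.2, a1]
        abel
      have ey : Φ3 y = φ m3 + d3 - Φ0 (x - m1 - c1) := by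
        rw [← q3 _ kU1 kU3, hK, map_neg, map_sub, map_sub, q3v m3 hm3.1 hm3.2, a3]
        abel
      have ev : φ v = - (φ m1 + φ m3 + (d1 + d3)) := by
        rw [hv', map_neg, map_add, map_add, hkc, hcc]
      rw [ex, ey, ev]
      abel)
    H0
    (by
      rintro ⟨⟨x, hx⟩, ⟨y, hy⟩, ⟨v, hv⟩⟩
      exact H0.add_mem (g1 (hΦ1m x)) (H0.add_mem (g3 (hΦ3m y)) (f0 v hv)))
  have r1 : ∀ x ∈ U1, Φ x = Φ1 x := by
    intro x hx
    have := hΦ (⟨x, hx⟩, 0, 0)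
    simpa using this
  have r3 : ∀ y ∈ U3, Φ y = Φ3 y := by
    intro y hy
    have := hΦ (0, ⟨y, hy⟩, 0)
    simpa using this
  have rv : ∀ v ∈ V, Φ v = φ v := by
    intro v hv
    have := hΦ (0, 0, ⟨v, hv⟩)
    simpa using this
  refine ⟨Φ, rv, fun a ha => ?_, fun a ha => ?_, fun a ha hb => ?_, fun a ha => ?_, hΦm⟩
  · rw [r1 a ha]; exact hΦ1m a
  · rw [r3 a ha]; exact hΦ3m a
  · rw [r1 a ha, q1 a ha hb]; exact hΦ0m a
  · rw [r1 a (hW1 ha), q1 a (hW1 ha) (hW3 ha)]; exact p2 a ha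

end Pool.Agent.W_59b51d_h18
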