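import Pool.Agent.W_59b51d_h18.SStep
import Pool.Agent.W_59b51d_h18.SComp

/-!
# Varieties given by monomial identities with few incomparable forks
-/

namespace Pool.Agent.W_59b51d_h18

/-- If among any three forks of `T` two are comparable, then every finitely presented algebra of the
variety given by `T` over a computable field has solvable word problem. -/
theorem solvable_of_forks (T : List (FreeMagma ℕ)) (hT : ∀ t ∈ T, Multilinear t)
    (hfork : ∀ f g k : FreeMagma ℕ, IsFork T f → IsFork T g → IsFork T k →
      (Inst f g ∨ Inst g f) ∨ (Inst g k ∨ Inst k g) ∨ (Inst f k ∨ Inst k f))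
    (F : Type) [Field F] [Primcodable F] (hadd : Computable₂ fun a b : F => a + b)
    (hmul : Computable₂ fun a b : F => a * b) (n : ℕ) (r : List (Poly F (Fin n))) :
    Solvable F T r := by
  obtain ⟨c, K, h⟩ := exists_bound (F := F) hT hfork r
  exact solvable_of_bound hadd hmul T hT r c K h

end Pool.Agent.W_59b51d_h18
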