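import Pool.Agent.W_59b51d_h18.SForks
import Pool.Agent.W_59b51d_h18.SImage

/-!
# Products of elements of the spaces `DD`
-/

namespace Pool.Agent.W_59b51d_h18

variable {F X : Type} [Field F] {T : List (FreeMagma ℕ)} {r : List (Poly F X)}

/-- Consequences times small elements. Proof: `Submodule.span_induction` for both, `Gen.mulr`
(`N` is increased with `Gen.mono`). -/
theorem Cons_mulP {N : ℕ} {p q : NA F X} (hp : p ∈ Cons T r N) (hq : q ∈ Tr F X N) :
    mulP F X p q ∈ Cons T r (N + 1) := by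
  have h1 : ∀ m : FreeMagma X, height m ≤ N → ∀ p ∈ Cons T r N,
      mulP F X p (tr F m) ∈ Cons T r (N + 1) := by
    intro m hm p hp
    have : Cons T r N ≤ (Cons T r (N + 1)).comap ((mulP F X).flip (tr F m)) :=
      Submodule.span_le.2 fun g hg => Gen.mem (Gen.mulr hg hm)
    exact this hp
  have h2 : Tr F X N ≤ (Cons T r (N + 1)).comap (mulP F X p) := Tr_le fun m hm => h1 m hm p hp
  exact h2 hq

/-- Small elements times consequences. -/
theorem mulP_Cons {N : ℕ} {p q : NA F X} (hp : p ∈ Tr F X N) (hq : q ∈ Cons T r N) :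
    mulP F X p q ∈ Cons T r (N + 1) := by
  have h1 : ∀ m : FreeMagma X, height m ≤ N → ∀ q ∈ Cons T r N,
      mulP F X (tr F m) q ∈ Cons T r (N + 1) := by
    intro m hm q hq
    have : Cons T r N ≤ (Cons T r (N + 1)).comap (mulP F X (tr F m)) :=
      Submodule.span_le.2 fun g hg => Gen.mem (Gen.mull hg hm)
    exact this hq
  have h2 : Tr F X N ≤ (Cons T r (N + 1)).comap ((mulP F X).flip q) :=
    Tr_le fun m hm => h1 m hm q hq
  exact h2 hp

/-- The height of a value of a monomial. Proof: induction on `t`. -/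
theorem height_lift_le {N : ℕ} {c : ℕ → FreeMagma X} (hc : ∀ i, height (c i) ≤ N)
    (t : FreeMagma ℕ) : height (FreeMagma.lift c t) ≤ height t + N := by
  induction t using FreeMagma.rec with
  | of i => exact (hc i).trans (Nat.le_add_left _ _)
  | mul s t hs ht =>
    change max (height (FreeMagma.lift c s)) (height (FreeMagma.lift c t)) + 1 ≤
      max (height s) (height t) + 1 + N
    omega

/-- A value of a member of `S ∪ T` lies in `DD T r S N`. -/
theorem tr_mem_DD' {S : Finset (FreeMagma ℕ)} {N : ℕ} {τ : FreeMagma ℕ} (hτ : τ ∈ S ∨ τ ∈ T)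
    {c : ℕ → FreeMagma X} (hc : ∀ i, height (c i) ≤ N) :
    tr F (FreeMagma.lift c τ) ∈ DD T r S N := by
  rcases hτ with hτ | hτ
  · exact tr_mem_DD hτ hc
  · exact Cons_le_DD (Gen.mem (Gen.inst hτ hc))

/-- A product of values of `α` and `β`, if `α * β ∈ S ∪ T`. -/
theorem mul_mem_DD {S : Finset (FreeMagma ℕ)} {N : ℕ} {α β : FreeMagma ℕ}
    (hτ : α * β ∈ S ∨ α * β ∈ T) (hm : Multilinear (α * β))
    {c c' : ℕ → FreeMagma X} (hc : ∀ i, height (c i) ≤ N) (hc' : ∀ i, height (c' i) ≤ N) :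
    mulP F X (tr F (FreeMagma.lift c α)) (tr F (FreeMagma.lift c' β)) ∈ DD T r S N := by
  obtain ⟨c'', h1, h2⟩ := exists_glue hm c c'
  rw [mulP_tr, ← h2]
  refine tr_mem_DD' hτ fun i => ?_
  rcases h1 i with h | h <;> rw [h]
  · exact hc i
  · exact hc' i

/-- Left factors in `T1` (the other factor is a variable): a value of `α ∈ T1` times anything
small is a value of `α * of i`.

Proof. By linearity (`Tr_le`) `q = tr m`; `lift c α * m = lift c'' (α * of i)` by `exists_glue` with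
`c' = fun _ => m`. -/
theorem mul_T1 {S : Finset (FreeMagma ℕ)} {N : ℕ} {α : FreeMagma ℕ} {i : ℕ}
    (hα : α * .of i ∈ S ∨ α * .of i ∈ T) (hm : Multilinear (α * .of i))
    {c : ℕ → FreeMagma X} (hc : ∀ i, height (c i) ≤ N) {q : NA F X} (hq : q ∈ Tr F X N) :
    mulP F X (tr F (FreeMagma.lift c α)) q ∈ DD T r S N := by
  have : Tr F X N ≤ (DD T r S N).comap (mulP F X (tr F (FreeMagma.lift c α))) :=
    Tr_le fun m hm' => mul_mem_DD (c' := fun _ => m) hα hm hc fun _ => hm'
  exact this hq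

/-- The mirror image of `mul_T1`. -/
theorem mul_T2 {S : Finset (FreeMagma ℕ)} {N : ℕ} {β : FreeMagma ℕ} {i : ℕ}
    (hβ : .of i * β ∈ S ∨ .of i * β ∈ T) (hm : Multilinear (.of i * β))
    {c : ℕ → FreeMagma X} (hc : ∀ i, height (c i) ≤ N) {q : NA F X} (hq : q ∈ Tr F X N) :
    mulP F X q (tr F (FreeMagma.lift c β)) ∈ DD T r S N := by
  have : Tr F X N ≤ (DD T r S N).comap ((mulP F X).flip (tr F (FreeMagma.lift c β))) :=
    Tr_le fun m hm' => mul_mem_DD (c := fun _ => m) hβ hm (fun _ => hm') hc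
  exact this hq

/-- A value of `α` times an element of `DD T r (T2 ∪ L) N`, if `α * β ∈ S ∪ T` for all `β ∈ L`.

Proof. By linearity (`q ∈ EE ⊔ Cons`, `Submodule.mem_sup`, `Submodule.span_induction`) `q` is
(a) `tr (lift c' β)` with `β ∈ T2`: use `mul_T2` with `N + K - 1` in the place of `N`, as
`height (lift c α) ≤ height α + N ≤ N + K - 1`; (b) `tr (lift c' β)` with `β ∈ L`: `exists_glue` and
`tr_mem_DD'`; (c) in `Cons T r N`: `mulP_Cons` with `N + K - 1`. -/
theorem mul_L1 {S T2 L : Finset (FreeMagma ℕ)} {N K : ℕ} {α : FreeMagma ℕ}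
    (hT2 : ∀ β ∈ T2, ∃ i : ℕ, (.of i * β ∈ S ∨ .of i * β ∈ T) ∧ Multilinear (.of i * β))
    (hL : ∀ β ∈ L, (α * β ∈ S ∨ α * β ∈ T) ∧ Multilinear (α * β)) (hK : height α + 1 ≤ K)
    {c : ℕ → FreeMagma X} (hc : ∀ i, height (c i) ≤ N) {q : NA F X}
    (hq : q ∈ DD T r (T2 ∪ L) N) :
    mulP F X (tr F (FreeMagma.lift c α)) q ∈ DD T r S (N + K) := by
  have hα : tr F (FreeMagma.lift c α) ∈ Tr F X (N + K - 1) :=
    tr_mem_Tr ((height_lift_le hc α).trans (by omega))
  have : DD T r (T2 ∪ L) N ≤ (DD T r S (N + K)).comap (mulP F X (tr F (FreeMagma.lift c α))) := by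
    refine sup_le (Submodule.span_le.2 ?_) ?_
    · rintro _ ⟨β, hβ, c', hc', rfl⟩
      change mulP F X (tr F (FreeMagma.lift c α)) (tr F (FreeMagma.lift c' β)) ∈ DD T r S (N + K)
      rcases Finset.mem_union.1 hβ with hβ | hβ
      · obtain ⟨i, hi, hi'⟩ := hT2 β hβ
        exact DD_mono (by omega)
          (mul_T2 hi hi' (fun j => (hc' j).trans (by omega : N ≤ N + K - 1)) hα)
      · obtain ⟨h1, h2⟩ := hL β hβ
        exact DD_mono (by omega) (mul_mem_DD h1 h2 hc hc')
    · intro g hg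
      have := mulP_Cons hα (Cons_mono (by omega : N ≤ N + K - 1) hg)
      exact Cons_le_DD (Cons_mono (by omega) this)
  exact this hq

/-- The mirror image of `mul_L1`. -/
theorem mul_L2 {S T1 L : Finset (FreeMagma ℕ)} {N K : ℕ} {β : FreeMagma ℕ}
    (hT1 : ∀ α ∈ T1, ∃ i : ℕ, (α * .of i ∈ S ∨ α * .of i ∈ T) ∧ Multilinear (α * .of i))
    (hL : ∀ α ∈ L, (α * β ∈ S ∨ α * β ∈ T) ∧ Multilinear (α * β)) (hK : height β + 1 ≤ K)
    {c : ℕ → FreeMagma X} (hc : ∀ i, height (c i) ≤ N) {q : NA F X}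
    (hq : q ∈ DD T r (T1 ∪ L) N) :
    mulP F X q (tr F (FreeMagma.lift c β)) ∈ DD T r S (N + K) := by
  have hβ : tr F (FreeMagma.lift c β) ∈ Tr F X (N + K - 1) :=
    tr_mem_Tr ((height_lift_le hc β).trans (by omega))
  have : DD T r (T1 ∪ L) N ≤
      (DD T r S (N + K)).comap ((mulP F X).flip (tr F (FreeMagma.lift c β))) := by
    refine sup_le (Submodule.span_le.2 ?_) ?_
    · rintro _ ⟨α, hα, c', hc', rfl⟩
      change mulP F X (tr F (FreeMagma.lift c' α)) (tr F (FreeMagma.lift c β)) ∈ DD T r S (N + K)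
      rcases Finset.mem_union.1 hα with hα | hα
      · obtain ⟨i, hi, hi'⟩ := hT1 α hα
        exact DD_mono (by omega)
          (mul_T1 hi hi' (fun j => (hc' j).trans (by omega : N ≤ N + K - 1)) hβ)
      · obtain ⟨h1, h2⟩ := hL α hα
        exact DD_mono (by omega) (mul_mem_DD h1 h2 hc' hc)
    · intro g hg
      have := Cons_mulP (Cons_mono (by omega : N ≤ N + K - 1) hg) hβ
      exact Cons_le_DD (Cons_mono (by omega) this)
  exact this hq

/-- `DD T r (T1 ∪ L) N` times a small element `q` which is well behaved for the values of the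
members of `L`.

Proof. By linearity in `p`: values of members of `T1` (`mul_T1`), values of members of `L` (`hL`),
and consequences (`Cons_mulP`); all the resulting spaces are in `DD T r S (N + K)` as `1 ≤ K`. -/
theorem mul_DD_left {S T1 L : Finset (FreeMagma ℕ)} {N K : ℕ} (hK : 1 ≤ K)
    (hT1 : ∀ α ∈ T1, ∃ i : ℕ, (α * .of i ∈ S ∨ α * .of i ∈ T) ∧ Multilinear (α * .of i))
    {q : NA F X} (hq : q ∈ Tr F X N)
    (hL : ∀ α ∈ L, ∀ c : ℕ → FreeMagma X, (∀ i, height (c i) ≤ N) →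
      mulP F X (tr F (FreeMagma.lift c α)) q ∈ DD T r S (N + K))
    {p : NA F X} (hp : p ∈ DD T r (T1 ∪ L) N) : mulP F X p q ∈ DD T r S (N + K) := by
  have : DD T r (T1 ∪ L) N ≤ (DD T r S (N + K)).comap ((mulP F X).flip q) := by
    refine sup_le (Submodule.span_le.2 ?_) ?_
    · rintro _ ⟨α, hα, c, hc, rfl⟩
      change mulP F X (tr F (FreeMagma.lift c α)) q ∈ DD T r S (N + K)
      rcases Finset.mem_union.1 hα with hα | hα
      · obtain ⟨i, hi, hi'⟩ := hT1 α hα
        exact DD_mono (by omega) (mul_T1 hi hi' hc hq)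
      · exact hL α hα c hc
    · intro g hg
      exact Cons_le_DD (Cons_mono (by omega) (Cons_mulP hg hq))
  exact this hp

/-- The mirror image of `mul_DD_left`. -/
theorem mul_DD_right {S T2 L : Finset (FreeMagma ℕ)} {N K : ℕ} (hK : 1 ≤ K)
    (hT2 : ∀ β ∈ T2, ∃ i : ℕ, (.of i * β ∈ S ∨ .of i * β ∈ T) ∧ Multilinear (.of i * β))
    {q : NA F X} (hq : q ∈ Tr F X N)
    (hL : ∀ β ∈ L, ∀ c : ℕ → FreeMagma X, (∀ i, height (c i) ≤ N) →
      mulP F X q (tr F (FreeMagma.lift c β)) ∈ DD T r S (N + K))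
    {p : NA F X} (hp : p ∈ DD T r (T2 ∪ L) N) : mulP F X q p ∈ DD T r S (N + K) := by
  have : DD T r (T2 ∪ L) N ≤ (DD T r S (N + K)).comap (mulP F X q) := by
    refine sup_le (Submodule.span_le.2 ?_) ?_
    · rintro _ ⟨β, hβ, c, hc, rfl⟩
      change mulP F X q (tr F (FreeMagma.lift c β)) ∈ DD T r S (N + K)
      rcases Finset.mem_union.1 hβ with hβ | hβ
      · obtain ⟨i, hi, hi'⟩ := hT2 β hβ
        exact DD_mono (by omega) (mul_T2 hi hi' hc hq)
      · exact hL β hβ c hc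
    · intro g hg
      exact Cons_le_DD (Cons_mono (by omega) (mulP_Cons hq hg))
  exact this hp

end Pool.Agent.W_59b51d_h18
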