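import Pool.Agent.W_59b51d_h18.Defs

/-! Shapes of monomials, values of shapes, numbering of the leaves. -/

namespace Pool.Agent.W_59b51d_h18

/-- shapes: binary trees -/
inductive Sh : Type
  | x : Sh
  | m : Sh → Sh → Sh
  deriving DecidableEq

/-- the shape of a monomial -/
def sh {X : Type} : FreeMagma X → Sh
  | .of _ => .x
  | .mul s t => .m (sh s) (sh t)

/-- the values of a shape in a magma -/
def Vals (A : Type) [Mul A] : Sh → Set A
  | .x => Set.univ
  | .m s t => {p | ∃ q ∈ Vals A s, ∃ r ∈ Vals A t, p = q * r}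

/-- number of leaves -/
def Sh.len : Sh → ℕ
  | .x => 1
  | .m s t => s.len + t.len

theorem Sh.len_pos (s : Sh) : 0 < s.len := by
  induction s with
  | x => simp [Sh.len]
  | m s t ih1 ih2 => simp only [Sh.len]; omega

theorem lift_congr {A : Type} [Mul A] (t : FreeMagma ℕ) (v v' : ℕ → A)
    (h : ∀ i ∈ vars t, v i = v' i) : FreeMagma.lift v t = FreeMagma.lift v' t := by
  induction t using FreeMagma.rec with
  | of i => exact h i (by simp [vars])
  | mul s t ih1 ih2 =>
    change FreeMagma.lift v s * FreeMagma.lift v t = FreeMagma.lift v' s * FreeMagma.lift v' t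
    rw [ih1 fun i hi => h i (by simp [vars, hi]), ih2 fun i hi => h i (by simp [vars, hi])]

theorem lift_mem_vals {X A : Type} [Mul A] (v : X → A) (t : FreeMagma X) :
    FreeMagma.lift v t ∈ Vals A (sh t) := by
  induction t using FreeMagma.rec with
  | of i => exact Set.mem_univ _
  | mul s t ih1 ih2 => exact ⟨_, ih1, _, ih2, rfl⟩

theorem exists_of_mem_vals {A : Type} [Mul A] (t : FreeMagma ℕ) (ht : Multilinear t) (p : A)
    (hp : p ∈ Vals A (sh t)) : ∃ v : ℕ → A, FreeMagma.lift v t = p := by
  classical
  induction t using FreeMagma.rec generalizing p with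
  | of i => exact ⟨fun _ => p, rfl⟩
  | mul s t ih1 ih2 =>
    obtain ⟨q, hq, r, hr, rfl⟩ := hp
    simp only [Multilinear, vars, List.nodup_append] at ht
    obtain ⟨v, hv⟩ := ih1 ht.1 q hq
    obtain ⟨v', hv'⟩ := ih2 ht.2.1 r hr
    refine ⟨fun i => if i ∈ vars s then v i else v' i, ?_⟩
    change FreeMagma.lift (fun i => if i ∈ vars s then v i else v' i) s *
      FreeMagma.lift (fun i => if i ∈ vars s then v i else v' i) t = _
    rw [lift_congr s _ v fun i hi => if_pos hi, hv,
      lift_congr t _ v' fun i hi => if_neg fun h => ht.2.2 i h i hi rfl, hv']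

theorem sat_iff {A : Type} [NonUnitalNonAssocRing A] (T : List (FreeMagma ℕ))
    (hT : ∀ t ∈ T, Multilinear t) : Sat A T ↔ ∀ t ∈ T, ∀ p ∈ Vals A (sh t), p = 0 := by
  constructor
  · intro h t ht p hp
    obtain ⟨v, rfl⟩ := exists_of_mem_vals t (hT t ht) p hp
    exact h t ht v
  · intro h t ht v
    exact h t ht _ (lift_mem_vals v t)

/-- numbering the leaves from left to right, starting with `k` -/
def num : Sh → ℕ → FreeMagma ℕ
  | .x, k => .of k
  | .m s t, k => .mul (num s k) (num t (k + s.len))

theorem sh_num (s : Sh) : ∀ k, sh (num s k) = s := by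
  induction s with
  | x => intro k; rfl
  | m s t ih1 ih2 => intro k; simp only [num, sh, ih1, ih2]

theorem mem_vars_num (s : Sh) : ∀ k i, i ∈ vars (num s k) → k ≤ i ∧ i < k + s.len := by
  induction s with
  | x =>
    intro k i hi
    simp only [num, vars, List.mem_singleton] at hi
    simp only [Sh.len]
    omega
  | m s t ih1 ih2 =>
    intro k i hi
    simp only [num, vars, List.mem_append] at hi
    simp only [Sh.len]
    rcases hi with hi | hi
    · have := ih1 _ _ hi
      omega
    · have := ih2 _ _ hi
      omega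

theorem multilinear_num (s : Sh) : ∀ k, Multilinear (num s k) := by
  induction s with
  | x => intro k; simp [num, Multilinear, vars]
  | m s t ih1 ih2 =>
    intro k
    simp only [num, Multilinear, vars, List.nodup_append]
    refine ⟨ih1 k, ih2 _, ?_⟩
    intro a ha b hb hab
    have h1 := mem_vars_num s _ _ ha
    have h2 := mem_vars_num t _ _ hb
    omega

end Pool.Agent.W_59b51d_h18
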