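import Pool.Agent.W_59b51d_h18.Shape

/-! Pairwise different shapes with the same number of leaves. -/

namespace Pool.Agent.W_59b51d_h18

/-- `j` multiplications by leaves from the left -/
def Lx : ℕ → Sh → Sh
  | 0, s => s
  | n + 1, s => .m .x (Lx n s)

/-- `j` multiplications by leaves from the right -/
def Rx : ℕ → Sh → Sh
  | 0, s => s
  | n + 1, s => .m (Rx n s) .x

/-- the shapes -/
def tau (K j : ℕ) : Sh := Lx j (Rx (K - j) (.m .x .x))

theorem len_Lx (n : ℕ) (s : Sh) : (Lx n s).len = s.len + n := by
  induction n with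
  | zero => rfl
  | succ n ih => simp only [Lx, Sh.len, ih]; omega

theorem len_Rx (n : ℕ) (s : Sh) : (Rx n s).len = s.len + n := by
  induction n with
  | zero => rfl
  | succ n ih => simp only [Rx, Sh.len, ih]; omega

theorem len_tau (K j : ℕ) (h : j ≤ K) : (tau K j).len = K + 2 := by
  simp only [tau, len_Lx, len_Rx, Sh.len]
  omega

/-- the number of leading multiplications by leaves from the left -/
def lead : Sh → ℕ
  | .m .x (.m a b) => lead (.m a b) + 1
  | _ => 0

theorem lead_Lx (n : ℕ) (a b : Sh) : lead (Lx n (.m a b)) = lead (.m a b) + n := by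
  induction n with
  | zero => rfl
  | succ n ih =>
    cases n with
    | zero => simp only [Lx, lead]
    | succ n =>
      simp only [Lx, lead] at ih ⊢
      omega

theorem lead_tau (K j : ℕ) (h : j < K) : lead (tau K j) = j := by
  obtain ⟨k, hk⟩ : ∃ k, K - j = k + 1 := ⟨K - j - 1, by omega⟩
  rw [tau, hk, Rx, lead_Lx]
  have : lead (.m (Rx k (.m .x .x)) .x) = 0 := by
    cases k with
    | zero => rfl
    | succ k => rfl
  rw [this, zero_add]

theorem tau_inj {K j j' : ℕ} (h : j < K) (h' : j' < K) (e : tau K j = tau K j') : j = j' := by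
  rw [← lead_tau K j h, e, lead_tau K j' h']

/-- every shape `tau K j` is a product -/
theorem exists_tau_eq (K j : ℕ) : ∃ a b, tau K j = .m a b := by
  cases j with
  | zero =>
    simp only [tau, Lx]
    cases K - 0 with
    | zero => exact ⟨_, _, rfl⟩
    | succ n => exact ⟨_, _, rfl⟩
  | succ j => exact ⟨_, _, rfl⟩

/-- the long comb with the side trees `tau K j` -/
def big (K : ℕ) : ℕ → Sh
  | 0 => .x
  | j + 1 => .m (tau K j) (big K j)

end Pool.Agent.W_59b51d_h18
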